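import Mathlib

set_option autoImplicit false

namespace Pool.Agent.H92.Lac

open Finset

/-- the level of `N`: for `N ≥ 1`, `16^(lev N - 1) ≤ N < 16^(lev N)`. -/
def lev (N : ℕ) : ℕ := Nat.log 16 N + 1

lemma lt_pow_lev (N : ℕ) : N < 16 ^ lev N := Nat.lt_pow_succ_log_self (by norm_num) N

lemma pow_le_of_lev {N : ℕ} (hN : N ≠ 0) : 16 ^ (lev N) ≤ 16 * N := by
  unfold lev
  rw [pow_succ, mul_comm]
  exact Nat.mul_le_mul_left _ (Nat.pow_log_le_self 16 hN)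

lemma lev_le {N m : ℕ} (h : N < 16 ^ m) (hN : N ≠ 0) : lev N ≤ m := by
  unfold lev
  have : Nat.log 16 N < m := Nat.log_lt_of_lt_pow hN h
  omega

lemma lev_eq {N m : ℕ} (h : N < 16 ^ (m+1)) (h2 : 16 ^ m ≤ N) : lev N = m + 1 := by
  unfold lev
  have hN : N ≠ 0 := by
    have : 0 < 16 ^ m := by positivity
    omega
  have h1 : Nat.log 16 N < m + 1 := Nat.log_lt_of_lt_pow hN h
  have h3 : m ≤ Nat.log 16 N := Nat.le_log_of_pow_le (by norm_num) h2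
  omega

/-- counting lemma -/
lemma count_aux (K : Set ℕ) (δ : ℝ) (hδ : 0 < δ)
    (hK : ∀ a ∈ K, ∀ b ∈ K, a < b → (1 + δ) * (a : ℝ) < (b : ℝ)) (x : ℝ) (hx : 0 < x) :
    ∀ (m : ℕ) (S : Finset ℕ), (∀ s ∈ S, s ∈ K) → (∀ s ∈ S, x ≤ (s:ℝ)) → S.card = m + 1 →
      ∃ s ∈ S, (1 + δ) ^ m * x ≤ (s : ℝ) ∧ ∀ t ∈ S, t ≤ s := by
  intro m
  induction m with
  | zero =>
    intro S hS1 hS2 hc
    obtain ⟨s, hs⟩ := Finset.card_eq_one.mp hc
    refine ⟨s, by simp [hs], ?_, by simp [hs]⟩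
    simpa using hS2 s (by simp [hs])
  | succ m ih =>
    intro S hS1 hS2 hc
    have hne : S.Nonempty := by
      rw [← Finset.card_pos]; omega
    set M := S.max' hne with hM
    have hMS : M ∈ S := S.max'_mem hne
    obtain ⟨s, hs, h1, h2⟩ := ih (S.erase M) (fun s hs => hS1 s (Finset.mem_of_mem_erase hs))
      (fun s hs => hS2 s (Finset.mem_of_mem_erase hs)) (by rw [Finset.card_erase_of_mem hMS]; omega)
    have hsM : s < M := by
      have h3 : s ≤ M := S.le_max' s (Finset.mem_of_mem_erase hs)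
      have h4 : s ≠ M := Finset.ne_of_mem_erase hs
      omega
    have := hK s (hS1 s (Finset.mem_of_mem_erase hs)) M (hS1 M hMS) hsM
    refine ⟨M, hMS, ?_, fun t ht => S.le_max' t ht⟩
    calc (1 + δ) ^ (m+1) * x = (1 + δ) * ((1+δ)^m * x) := by ring
      _ ≤ (1 + δ) * s := by
        apply mul_le_mul_of_nonneg_left h1 (by linarith)
      _ ≤ M := this.le

lemma count (K : Set ℕ) (δ : ℝ) (hδ : 0 < δ)
    (hK : ∀ a ∈ K, ∀ b ∈ K, a < b → (1 + δ) * (a : ℝ) < (b : ℝ)) (B : ℕ) (hB : 16 ≤ (1 + δ) ^ B)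
    (x : ℝ) (hx : 0 < x) (S : Finset ℕ) (hS1 : ∀ s ∈ S, s ∈ K) (hS2 : ∀ s ∈ S, x ≤ (s:ℝ))
    (hS3 : ∀ s ∈ S, (s:ℝ) < 16 * x) : S.card ≤ B := by
  by_contra hcon
  push Not at hcon
  obtain ⟨S', hS', hc⟩ := Finset.exists_subset_card_eq (show B + 1 ≤ S.card by omega)
  obtain ⟨s, hs, h1, -⟩ := count_aux K δ hδ hK x hx B S' (fun s hs => hS1 s (hS' hs))
    (fun s hs => hS2 s (hS' hs)) hc
  have h2 := hS3 s (hS' hs)
  have : 16 * x ≤ (1 + δ)^B * x := mul_le_mul_of_nonneg_right hB hx.le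
  linarith

/-- `(n,k)` threatens the `16`-adic interval `[A/16^m,(A+1)/16^m]`. -/
def thr (ψ : ℕ → ℝ) (m A n k : ℕ) : Prop :=
  ∃ x : ℝ, (A:ℝ) / 16 ^ m ≤ x ∧ x ≤ ((A:ℝ) + 1) / 16 ^ m ∧ ∃ p : ℤ, |((n * k : ℕ) : ℝ) * x - p| < ψ n

lemma thr_parent {ψ : ℕ → ℝ} {m A n k d : ℕ} (hd : d < 16) (h : thr ψ (m+1) (16 * A + d) n k) :
    thr ψ m A n k := by
  obtain ⟨x, h1, h2, h3⟩ := h
  refine ⟨x, ?_, ?_, h3⟩
  · refine le_trans ?_ h1
    push_cast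
    rw [pow_succ, div_le_div_iff₀ (by positivity) (by positivity)]
    have h16 : (0:ℝ) < 16 ^ m := by positivity
    have hd0 : (0:ℝ) ≤ d := Nat.cast_nonneg d
    nlinarith [mul_nonneg hd0 h16.le]
  · refine le_trans h2 ?_
    push_cast
    rw [pow_succ, div_le_div_iff₀ (by positivity) (by positivity)]
    have h16 : (0:ℝ) < 16 ^ m := by positivity
    have hd0 : (d:ℝ) + 1 ≤ 16 := by exact_mod_cast hd
    nlinarith [mul_nonneg (sub_nonneg.mpr hd0) h16.le]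

end Pool.Agent.H92.Lac
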