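import Mathlib
import Pool.Agent.H92.Lac1

set_option autoImplicit false

namespace Pool.Agent.H92.Lac

open Finset

/-- threatened by a fixed integer `p`. -/
def thrp (ψ : ℕ → ℝ) (m A n k : ℕ) (p : ℤ) : Prop :=
  ∃ x : ℝ, (A:ℝ) / 16 ^ m ≤ x ∧ x ≤ ((A:ℝ) + 1) / 16 ^ m ∧ |((n * k : ℕ) : ℝ) * x - p| < ψ n

open Classical in
lemma card_thrp (ψ : ℕ → ℝ) (m A n k : ℕ) (p : ℤ) (hnk : 0 < n * k)
    (hψ : 2 * ψ n * 16 ^ (m+1) ≤ ((n * k : ℕ) : ℝ)) :
    ((range 16).filter (fun d => thrp ψ (m+1) (16 * A + d) n k p)).card ≤ 2 := by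
  set D := (range 16).filter (fun d => thrp ψ (m+1) (16 * A + d) n k p) with hD
  by_cases hne : D.Nonempty
  · set d0 := D.min' hne with hd0
    have hsub : D ⊆ {d0, d0 + 1} := by
      intro d hd
      have h1 : d0 ≤ d := D.min'_le d hd
      have hd0D : d0 ∈ D := D.min'_mem hne
      obtain ⟨x, hx1, hx2, hx3⟩ := (Finset.mem_filter.mp hd).2
      obtain ⟨y, hy1, hy2, hy3⟩ := (Finset.mem_filter.mp hd0D).2
      have hN : (0:ℝ) < ((n * k : ℕ) : ℝ) := by exact_mod_cast hnk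
      have h16 : (0:ℝ) < 16 ^ (m+1) := by positivity
      have h2 : ((n * k : ℕ) : ℝ) * (x - y) < 2 * ψ n := by
        have := abs_lt.mp hx3
        have := abs_lt.mp hy3
        nlinarith
      have h3 : ((d:ℝ) - d0 - 1) / 16 ^ (m+1) ≤ x - y := by
        have : ((d:ℝ) - d0 - 1) / 16 ^ (m+1) = ((16 * A + d : ℕ) : ℝ) / 16 ^ (m+1) - (((16 * A + d0 : ℕ) : ℝ) + 1) / 16 ^ (m+1) := by
          push_cast
          ring
        rw [this]
        linarith
      have h4 : ((n * k : ℕ) : ℝ) * ((d:ℝ) - d0 - 1) < ((n * k : ℕ) : ℝ) := by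
        have h5 : ((n * k : ℕ) : ℝ) * (((d:ℝ) - d0 - 1) / 16 ^ (m+1)) ≤ ((n * k : ℕ) : ℝ) * (x - y) :=
          mul_le_mul_of_nonneg_left h3 hN.le
        have h6 : ((n * k : ℕ) : ℝ) * (((d:ℝ) - d0 - 1) / 16 ^ (m+1)) < 2 * ψ n := lt_of_le_of_lt h5 h2
        have h7 : ((n * k : ℕ) : ℝ) * ((d:ℝ) - d0 - 1) < 2 * ψ n * 16 ^ (m+1) := by
          have := mul_lt_mul_of_pos_right h6 h16
          calc ((n * k : ℕ) : ℝ) * ((d:ℝ) - d0 - 1) = ((n * k : ℕ) : ℝ) * (((d:ℝ) - d0 - 1) / 16 ^ (m+1)) * 16 ^ (m+1) := by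
                field_simp
            _ < _ := this
        linarith
      have h8 : (d:ℝ) - d0 - 1 < 1 := by
        by_contra hcon
        push Not at hcon
        nlinarith
      have h9 : d < d0 + 2 := by
        have : (d:ℝ) < d0 + 2 := by linarith
        exact_mod_cast this
      simp only [Finset.mem_insert, Finset.mem_singleton]
      omega
    calc D.card ≤ ({d0, d0+1} : Finset ℕ).card := Finset.card_le_card hsub
      _ ≤ 2 := Finset.card_le_two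
  · rw [Finset.not_nonempty_iff_eq_empty] at hne
    simp [hne]

open Classical in
lemma card_thr (ψ : ℕ → ℝ) (m A n k : ℕ) (hnk : 0 < n * k) (hlt : n * k < 16 ^ m) (hψ4 : ψ n ≤ 1/4)
    (hψ : 2 * ψ n * 16 ^ (m+1) ≤ ((n * k : ℕ) : ℝ)) :
    ((range 16).filter (fun d => thr ψ (m+1) (16 * A + d) n k)).card ≤ 4 := by
  set P : ℤ := ⌊((n * k : ℕ) : ℝ) * ((A:ℝ) / 16 ^ m) - 1/4⌋ with hP
  have hsub : (range 16).filter (fun d => thr ψ (m+1) (16 * A + d) n k) ⊆
      (range 16).filter (fun d => thrp ψ (m+1) (16 * A + d) n k (P+1)) ∪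
      (range 16).filter (fun d => thrp ψ (m+1) (16 * A + d) n k (P+2)) := by
    intro d hd
    rw [Finset.mem_filter] at hd
    obtain ⟨hd1, hd2⟩ := hd
    have hd16 : d < 16 := Finset.mem_range.mp hd1
    obtain ⟨x, hx1, hx2, p, hp⟩ := hd2
    have hN : (0:ℝ) < ((n * k : ℕ) : ℝ) := by exact_mod_cast hnk
    have h16 : (0:ℝ) < 16 ^ m := by positivity
    have hpar : (A:ℝ) / 16 ^ m ≤ x ∧ x ≤ ((A:ℝ) + 1) / 16 ^ m := by
      constructor
      · refine le_trans ?_ hx1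
        push_cast
        rw [pow_succ, div_le_div_iff₀ (by positivity) (by positivity)]
        have hd0 : (0:ℝ) ≤ d := Nat.cast_nonneg d
        nlinarith [mul_nonneg hd0 h16.le]
      · refine le_trans hx2 ?_
        push_cast
        rw [pow_succ, div_le_div_iff₀ (by positivity) (by positivity)]
        have hd0 : (d:ℝ) + 1 ≤ 16 := by exact_mod_cast hd16
        nlinarith [mul_nonneg (sub_nonneg.mpr hd0) h16.le]
    have hN1 : ((n * k : ℕ) : ℝ) / 16 ^ m < 1 := by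
      rw [div_lt_one h16]
      exact_mod_cast hlt
    have hx3 : ((n * k : ℕ) : ℝ) * x ≤ ((n * k : ℕ) : ℝ) * ((A:ℝ) / 16 ^ m) + 1 := by
      have := mul_le_mul_of_nonneg_left hpar.2 hN.le
      have h5 : ((n * k : ℕ) : ℝ) * (((A:ℝ) + 1) / 16 ^ m) = ((n * k : ℕ) : ℝ) * ((A:ℝ) / 16 ^ m) + ((n * k : ℕ) : ℝ) / 16 ^ m := by ring
      linarith
    have hx4 : ((n * k : ℕ) : ℝ) * ((A:ℝ) / 16 ^ m) ≤ ((n * k : ℕ) : ℝ) * x := mul_le_mul_of_nonneg_left hpar.1 hN.le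
    have hp' := abs_lt.mp hp
    have e1 : (P:ℝ) ≤ ((n * k : ℕ) : ℝ) * ((A:ℝ) / 16 ^ m) - 1/4 := Int.floor_le _
    have e2 : ((n * k : ℕ) : ℝ) * ((A:ℝ) / 16 ^ m) - 1/4 < P + 1 := Int.lt_floor_add_one _
    have e3 : (P:ℝ) < p := by linarith
    have e4 : (p:ℝ) < P + 3 := by linarith
    have e3' : P < p := by exact_mod_cast e3
    have e4' : p < P + 3 := by exact_mod_cast e4
    have : p = P + 1 ∨ p = P + 2 := by omega
    rw [Finset.mem_union, Finset.mem_filter, Finset.mem_filter]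
    rcases this with h | h
    · left
      exact ⟨hd1, x, hx1, hx2, by rw [← h]; exact hp⟩
    · right
      exact ⟨hd1, x, hx1, hx2, by rw [← h]; exact hp⟩
  calc _ ≤ _ := Finset.card_le_card hsub
    _ ≤ _ := Finset.card_union_le _ _
    _ ≤ 2 + 2 := Nat.add_le_add (card_thrp ψ m A n k (P+1) hnk hψ) (card_thrp ψ m A n k (P+2) hnk hψ)

end Pool.Agent.H92.Lac
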