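import Mathlib
import Pool.Agent.H92.Lac2

set_option autoImplicit false

namespace Pool.Agent.H92.Lac

open Finset

open Classical in
/-- active pairs at stage `m` -/
noncomputable def act (K : Set ℕ) (m : ℕ) : Finset (ℕ × ℕ) :=
  ((range (16 ^ m)) ×ˢ (range (16 ^ m))).filter
    (fun q => 0 < q.1 ∧ 0 < q.2 ∧ q.2 ∈ K ∧ q.1 * q.2 < 16 ^ m)

lemma mem_act {K : Set ℕ} {m : ℕ} {q : ℕ × ℕ} :
    q ∈ act K m ↔ 0 < q.1 ∧ 0 < q.2 ∧ q.2 ∈ K ∧ q.1 * q.2 < 16 ^ m := by
  classical
  unfold act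
  rw [Finset.mem_filter, Finset.mem_product, Finset.mem_range, Finset.mem_range]
  constructor
  · exact fun h => h.2
  · rintro ⟨h1, h2, h3, h4⟩
    refine ⟨⟨?_, ?_⟩, h1, h2, h3, h4⟩
    · exact lt_of_le_of_lt (Nat.le_mul_of_pos_right _ h2) h4
    · exact lt_of_le_of_lt (Nat.le_mul_of_pos_left _ h1) h4

noncomputable def wt (ρ : ℕ → ℝ) (m : ℕ) (q : ℕ × ℕ) : ℝ := ρ q.1 * 2 ^ m / 2 ^ (lev (q.1 * q.2))

open Classical in
/-- potential -/
noncomputable def pot (K : Set ℕ) (ρ ψ : ℕ → ℝ) (m A : ℕ) : ℝ :=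
  ∑ q ∈ act K m, if thr ψ m A q.1 q.2 then wt ρ m q else 0

lemma wt_le_one {K : Set ℕ} {ρ ψ : ℕ → ℝ} (hρ : ∀ n, 0 ≤ ρ n) {m A : ℕ} (h : pot K ρ ψ m A ≤ 1)
    {q : ℕ × ℕ} (hq : q ∈ act K m) (ht : thr ψ m A q.1 q.2) : wt ρ m q ≤ 1 := by
  classical
  refine le_trans ?_ h
  unfold pot
  have hnn : ∀ i ∈ act K m, 0 ≤ (if thr ψ m A i.1 i.2 then wt ρ m i else 0) := by
    intro i _
    split_ifs
    · unfold wt
      have := hρ i.1
      positivity
    · exact le_refl _
  have := Finset.single_le_sum hnn hq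
  simpa [ht] using this

lemma tele (c : ℝ) (N : ℕ) : ∑ n ∈ range N, c / ((n:ℝ) * (n + 1)) = c * (1 - 1 / N) ∨ N = 0 := by
  induction N with
  | zero => right; rfl
  | succ N ih =>
    left
    rcases ih with h | h
    · rcases Nat.eq_zero_or_pos N with h0 | h0
      · subst h0; simp
      · rw [Finset.sum_range_succ, h]
        have : (N:ℝ) ≠ 0 := by positivity
        have : (N:ℝ) + 1 ≠ 0 := by positivity
        push_cast
        field_simp
        ring
    · subst h; simp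

lemma sum_rho_le (c : ℝ) (hc : 0 ≤ c) (N : ℕ) : ∑ n ∈ range N, c / ((n:ℝ) * (n + 1)) ≤ c := by
  rcases tele c N with h | h
  · rw [h]
    have : (0:ℝ) ≤ 1 / N := by positivity
    nlinarith
  · subst h; simpa using hc

open Classical in
lemma new_bound (K : Set ℕ) (δ : ℝ) (hδ : 0 < δ)
    (hK : ∀ a ∈ K, ∀ b ∈ K, a < b → (1 + δ) * (a : ℝ) < (b : ℝ)) (B : ℕ) (hB : 16 ≤ (1 + δ) ^ B)
    (c : ℝ) (hc : 0 ≤ c) (hcB : c * B ≤ 1/2) (ψ : ℕ → ℝ) (m A : ℕ) :
    ∑ q ∈ act K (m+1) \ act K m,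
      (if thr ψ (m+1) A q.1 q.2 then wt (fun n => c / ((n:ℝ) * (n + 1))) (m+1) q else 0) ≤ 1/2 := by
  set ρ : ℕ → ℝ := fun n => c / ((n:ℝ) * (n + 1)) with hρdef
  have hρ : ∀ n, 0 ≤ ρ n := fun n => by rw [hρdef]; positivity
  have h1 : ∑ q ∈ act K (m+1) \ act K m,
      (if thr ψ (m+1) A q.1 q.2 then wt ρ (m+1) q else 0) ≤ ∑ q ∈ act K (m+1) \ act K m, ρ q.1 := by
    apply Finset.sum_le_sum
    intro q hq
    rw [Finset.mem_sdiff, mem_act, mem_act] at hq
    obtain ⟨⟨h1, h2, h3, h4⟩, h5⟩ := hq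
    have h6 : 16 ^ m ≤ q.1 * q.2 := by
      by_contra hcon
      push Not at hcon
      exact h5 ⟨h1, h2, h3, hcon⟩
    have hl := lev_eq h4 h6
    split_ifs
    · unfold wt
      rw [hl]
      rw [mul_div_assoc, div_self (by positivity), mul_one]
    · exact hρ _
  refine le_trans h1 ?_
  have hmaps : ∀ q ∈ act K (m+1) \ act K m, q.1 ∈ range (16 ^ (m+1)) := by
    intro q hq
    rw [Finset.mem_sdiff, mem_act] at hq
    rw [Finset.mem_range]
    exact lt_of_le_of_lt (Nat.le_mul_of_pos_right _ hq.1.2.1) hq.1.2.2.2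
  rw [← Finset.sum_fiberwise_of_maps_to hmaps]
  have h2 : ∀ n ∈ range (16 ^ (m+1)),
      ∑ q ∈ (act K (m+1) \ act K m).filter (fun q => q.1 = n), ρ q.1 ≤ ρ n * B := by
    intro n _
    have h3 : ∑ q ∈ (act K (m+1) \ act K m).filter (fun q => q.1 = n), ρ q.1
        = ∑ q ∈ (act K (m+1) \ act K m).filter (fun q => q.1 = n), ρ n := by
      apply Finset.sum_congr rfl
      intro q hq
      rw [(Finset.mem_filter.mp hq).2]
    rw [h3, Finset.sum_const, nsmul_eq_mul, mul_comm]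
    apply mul_le_mul_of_nonneg_left _ (hρ n)
    norm_cast
    rcases Nat.eq_zero_or_pos n with hn | hn
    · have : (act K (m+1) \ act K m).filter (fun q => q.1 = n) = ∅ := by
        apply Finset.filter_eq_empty_iff.mpr
        intro q hq
        rw [Finset.mem_sdiff, mem_act] at hq
        omega
      rw [this]; simp
    · set T := (act K (m+1) \ act K m).filter (fun q => q.1 = n) with hT
      have hinj : Set.InjOn (fun q : ℕ × ℕ => q.2) T := by
        intro a ha b hb hab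
        rw [Finset.mem_coe, hT, Finset.mem_filter] at ha hb
        exact Prod.ext (by rw [ha.2, hb.2]) hab
      rw [← Finset.card_image_of_injOn hinj]
      have hnR : (0:ℝ) < n := by exact_mod_cast hn
      apply count K δ hδ hK B hB ((16:ℝ) ^ m / n) (by positivity)
      · intro s hs
        obtain ⟨q, hq, rfl⟩ := Finset.mem_image.mp hs
        rw [hT, Finset.mem_filter, Finset.mem_sdiff, mem_act] at hq
        exact hq.1.1.2.2.1
      · intro s hs
        obtain ⟨q, hq, rfl⟩ := Finset.mem_image.mp hs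
        rw [hT, Finset.mem_filter, Finset.mem_sdiff, mem_act, mem_act] at hq
        have h6 : 16 ^ m ≤ q.1 * q.2 := by
          by_contra hcon
          push Not at hcon
          exact hq.1.2 ⟨hq.1.1.1, hq.1.1.2.1, hq.1.1.2.2.1, hcon⟩
        rw [div_le_iff₀ hnR]
        rw [hq.2] at h6
        rw [mul_comm] at h6
        exact_mod_cast h6
      · intro s hs
        obtain ⟨q, hq, rfl⟩ := Finset.mem_image.mp hs
        rw [hT, Finset.mem_filter, Finset.mem_sdiff, mem_act] at hq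
        have h6 := hq.1.1.2.2.2
        rw [hq.2] at h6
        rw [← mul_div_assoc, lt_div_iff₀ hnR]
        have : q.2 * n < 16 * 16 ^ m := by
          rw [pow_succ] at h6
          nlinarith
        exact_mod_cast this
  calc _ ≤ ∑ n ∈ range (16 ^ (m+1)), ρ n * B := Finset.sum_le_sum h2
    _ = (∑ n ∈ range (16 ^ (m+1)), ρ n) * B := by rw [Finset.sum_mul]
    _ ≤ c * B := mul_le_mul_of_nonneg_right (sum_rho_le c hc _) (by positivity)
    _ ≤ 1/2 := hcB

open Classical in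
lemma step (K : Set ℕ) (δ : ℝ) (hδ : 0 < δ)
    (hK : ∀ a ∈ K, ∀ b ∈ K, a < b → (1 + δ) * (a : ℝ) < (b : ℝ)) (B : ℕ) (hB : 16 ≤ (1 + δ) ^ B)
    (c : ℝ) (hc : 0 < c) (hc1 : c ≤ 1) (hcB : c * B ≤ 1/2) (m A : ℕ)
    (h : pot K (fun n => c / ((n:ℝ) * (n + 1))) (fun n => (c / ((n:ℝ) * (n + 1))) ^ 4 / 512) m A ≤ 1) :
    ∃ d < 16, pot K (fun n => c / ((n:ℝ) * (n + 1))) (fun n => (c / ((n:ℝ) * (n + 1))) ^ 4 / 512)
      (m+1) (16 * A + d) ≤ 1 := by
  set ρ : ℕ → ℝ := fun n => c / ((n:ℝ) * (n + 1)) with hρdef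
  set ψ : ℕ → ℝ := fun n => (c / ((n:ℝ) * (n + 1))) ^ 4 / 512 with hψdef
  have hρ : ∀ n, 0 ≤ ρ n := fun n => by rw [hρdef]; positivity
  have hρpos : ∀ n, 0 < n → 0 < ρ n := fun n hn => by
    rw [hρdef]
    have : (0:ℝ) < n := by exact_mod_cast hn
    positivity
  have hψρ : ∀ n, ψ n = ρ n ^ 4 / 512 := fun n => rfl
  have hρ1 : ∀ n, ρ n ≤ 1 := by
    intro n
    rcases Nat.eq_zero_or_pos n with hn | hn
    · simp [hρdef, hn]
    · have : (1:ℝ) ≤ n := by exact_mod_cast hn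
      show c / ((n:ℝ) * (n + 1)) ≤ 1
      rw [div_le_one (by positivity)]
      nlinarith
  -- old part
  have hsub : act K m ⊆ act K (m+1) := by
    intro q hq
    rw [mem_act] at hq ⊢
    exact ⟨hq.1, hq.2.1, hq.2.2.1, lt_of_lt_of_le hq.2.2.2 (Nat.pow_le_pow_right (by norm_num) (by omega))⟩
  have hold : ∑ d ∈ range 16, ∑ q ∈ act K m,
      (if thr ψ (m+1) (16 * A + d) q.1 q.2 then wt ρ (m+1) q else 0) ≤ ∑ d ∈ range 16, (1/2 : ℝ) := by
    rw [Finset.sum_comm]
    have h1 : ∀ q ∈ act K m, ∑ d ∈ range 16,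
        (if thr ψ (m+1) (16 * A + d) q.1 q.2 then wt ρ (m+1) q else 0)
          ≤ 8 * (if thr ψ m A q.1 q.2 then wt ρ m q else 0) := by
      intro q hq
      rw [← Finset.sum_filter, Finset.sum_const, nsmul_eq_mul]
      have hq' := mem_act.mp hq
      have hw2 : wt ρ (m+1) q = 2 * wt ρ m q := by unfold wt; rw [pow_succ]; ring
      split_ifs with ht
      · have hw1 := wt_le_one hρ h hq ht
        have hcard := card_thr ψ m A q.1 q.2 (Nat.mul_pos hq'.1 hq'.2.1) hq'.2.2.2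
          (by
            rw [hψρ]
            have := hρ1 q.1
            have := hρ q.1
            have : ρ q.1 ^ 4 ≤ 1 := pow_le_one₀ (by assumption) (by assumption)
            linarith)
          (by
            rw [hψρ]
            have hne : q.1 * q.2 ≠ 0 := Nat.pos_iff_ne_zero.mp (Nat.mul_pos hq'.1 hq'.2.1)
            have h3 : ((16:ℝ) ^ (lev (q.1 * q.2))) ≤ 16 * ((q.1 * q.2 : ℕ) : ℝ) := by
              exact_mod_cast pow_le_of_lev hne
            unfold wt at hw1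
            rw [div_le_one (by positivity)] at hw1
            have h4 : (ρ q.1 * 2 ^ m) ^ 4 ≤ (2 ^ (lev (q.1 * q.2))) ^ 4 := by
              apply pow_le_pow_left₀ (by have := hρ q.1; positivity) hw1
            have h5 : ((2:ℝ) ^ (lev (q.1 * q.2))) ^ 4 = 16 ^ (lev (q.1 * q.2)) := by
              rw [← pow_mul, mul_comm, pow_mul]; norm_num
            have h6 : ((2:ℝ) ^ m) ^ 4 = 16 ^ m := by
              rw [← pow_mul, mul_comm, pow_mul]; norm_num
            rw [mul_pow, h5, h6] at h4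
            have h7 : (16:ℝ) ^ (m+1) = 16 ^ m * 16 := pow_succ _ _
            rw [h7]
            linarith)
        rw [hw2]
        have hwnn : 0 ≤ wt ρ m q := by
          unfold wt
          have := hρ q.1
          positivity
        have : ((({d ∈ range 16 | thr ψ (m + 1) (16 * A + d) q.1 q.2} : Finset ℕ).card : ℕ) : ℝ) ≤ 4 := by
          exact_mod_cast hcard
        nlinarith
      · have : ({d ∈ range 16 | thr ψ (m + 1) (16 * A + d) q.1 q.2} : Finset ℕ) = ∅ := by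
          apply Finset.filter_eq_empty_iff.mpr
          intro d hd hcon
          exact ht (thr_parent (Finset.mem_range.mp hd) hcon)
        rw [this]
        simp
    calc _ ≤ ∑ q ∈ act K m, 8 * (if thr ψ m A q.1 q.2 then wt ρ m q else 0) := Finset.sum_le_sum h1
      _ = 8 * pot K ρ ψ m A := by rw [← Finset.mul_sum]; rfl
      _ ≤ 8 * 1 := by linarith
      _ = ∑ d ∈ range 16, (1/2 : ℝ) := by norm_num
  obtain ⟨d, hd, hd2⟩ := Finset.exists_le_of_sum_le (by simp) hold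
  refine ⟨d, Finset.mem_range.mp hd, ?_⟩
  unfold pot
  rw [← Finset.sum_sdiff hsub]
  have := new_bound K δ hδ hK B hB c hc.le hcB ψ m (16 * A + d)
  linarith

end Pool.Agent.H92.Lac
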