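import Mathlib
import Pool.Agent.H92.Lac3

set_option autoImplicit false

namespace Pool.Agent.H92.Lac

open Finset

/-- For every lacunary `K` there is a real `θ` such that all `k θ`, `k ∈ K`, are
uniformly Diophantine. -/
theorem exists_theta (K : Set ℕ) (hpos : ∀ k ∈ K, 0 < k) (δ : ℝ) (hδ : 0 < δ)
    (hK : ∀ a ∈ K, ∀ b ∈ K, a < b → (1 + δ) * (a : ℝ) < (b : ℝ)) :
    ∃ θ : ℝ, ∃ c : ℝ, 0 < c ∧ ∀ k ∈ K, ∀ n : ℕ, 0 < n → ∀ p : ℤ,
      c / (n:ℝ) ^ 8 ≤ |((n * k : ℕ) : ℝ) * θ - p| := by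
  classical
  obtain ⟨B, hB⟩ := pow_unbounded_of_one_lt 16 (show 1 < 1 + δ by linarith)
  set c : ℝ := 1 / (2 * (B + 1)) with hcdef
  have hc : 0 < c := by rw [hcdef]; positivity
  have hc1 : c ≤ 1 := by
    rw [hcdef, div_le_one (by positivity)]
    have : (0:ℝ) ≤ B := Nat.cast_nonneg B
    linarith
  have hcB : c * B ≤ 1/2 := by
    rw [hcdef]
    have : (0:ℝ) ≤ B := Nat.cast_nonneg B
    rw [div_mul_eq_mul_div, one_mul, div_le_div_iff₀ (by positivity) (by norm_num)]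
    linarith
  set ρ : ℕ → ℝ := fun n => c / ((n:ℝ) * (n + 1)) with hρdef
  set ψ : ℕ → ℝ := fun n => (c / ((n:ℝ) * (n + 1))) ^ 4 / 512 with hψdef
  have hρ : ∀ n, 0 ≤ ρ n := fun n => by rw [hρdef]; positivity
  have hstep : ∀ m A, pot K ρ ψ m A ≤ 1 → ∃ d, d < 16 ∧ pot K ρ ψ (m+1) (16 * A + d) ≤ 1 := by
    intro m A h
    exact step K δ hδ hK B hB.le c hc hc1 hcB m A h
  choose! g hg using hstep
  obtain ⟨a, ha0, has⟩ : ∃ a : ℕ → ℕ, a 0 = 0 ∧ ∀ m, a (m+1) = 16 * a m + g m (a m) :=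
    ⟨fun m => Nat.rec (motive := fun _ => ℕ) 0 (fun m x => 16 * x + g m x) m, rfl, fun m => rfl⟩
  have hpot : ∀ m, pot K ρ ψ m (a m) ≤ 1 := by
    intro m
    induction m with
    | zero =>
      have : act K 0 = ∅ := by
        apply Finset.eq_empty_of_forall_notMem
        intro q hq
        rw [mem_act] at hq
        have := Nat.mul_pos hq.1 hq.2.1
        simp at hq
        omega
      unfold pot
      rw [this]
      simp
    | succ m ih =>
      rw [has]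
      exact (hg m (a m) ih).2
  -- nested intervals
  have hmono : Monotone (fun m : ℕ => ((a m : ℕ) : ℝ) / 16 ^ m) := by
    apply monotone_nat_of_le_succ
    intro m
    rw [has]
    rw [pow_succ, div_le_div_iff₀ (by positivity) (by positivity)]
    push_cast
    have h16 : (0:ℝ) < 16 ^ m := by positivity
    have hd0 : (0:ℝ) ≤ g m (a m) := Nat.cast_nonneg _
    nlinarith [mul_nonneg hd0 h16.le]
  have hanti : Antitone (fun m : ℕ => (((a m : ℕ) : ℝ) + 1) / 16 ^ m) := by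
    apply antitone_nat_of_succ_le
    intro m
    rw [has]
    rw [pow_succ, div_le_div_iff₀ (by positivity) (by positivity)]
    push_cast
    have h16 : (0:ℝ) < 16 ^ m := by positivity
    have hd0 : (g m (a m) : ℝ) + 1 ≤ 16 := by exact_mod_cast (hg m (a m) (hpot m)).1
    nlinarith [mul_nonneg (sub_nonneg.mpr hd0) h16.le]
  have hle : ∀ m, (fun m : ℕ => ((a m : ℕ) : ℝ) / 16 ^ m) m ≤ (fun m : ℕ => (((a m : ℕ) : ℝ) + 1) / 16 ^ m) m := by
    intro m
    show (a m : ℝ) / 16 ^ m ≤ ((a m : ℝ) + 1) / 16 ^ m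
    gcongr
    linarith
  have hmem := Monotone.ciSup_mem_iInter_Icc_of_antitone hmono hanti hle
  set θ : ℝ := ⨆ m : ℕ, ((a m : ℕ) : ℝ) / 16 ^ m with hθ
  rw [Set.mem_iInter] at hmem
  refine ⟨θ, c ^ 4 / 8192, by positivity, ?_⟩
  intro k hk n hn p
  have hψge : c ^ 4 / 8192 / (n:ℝ) ^ 8 ≤ ψ n := by
    show c ^ 4 / 8192 / (n:ℝ) ^ 8 ≤ (c / ((n:ℝ) * (n + 1))) ^ 4 / 512
    have hn1 : (1:ℝ) ≤ n := by exact_mod_cast hn
    have h1 : (n:ℝ) * (n + 1) ≤ 2 * n ^ 2 := by nlinarith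
    have h2 : c / (2 * n ^ 2) ≤ c / ((n:ℝ) * (n + 1)) := by
      apply div_le_div_of_nonneg_left hc.le (by positivity) h1
    have h3 : (c / (2 * n ^ 2)) ^ 4 ≤ (c / ((n:ℝ) * (n + 1))) ^ 4 := pow_le_pow_left₀ (by positivity) h2 4
    calc c ^ 4 / 8192 / (n:ℝ) ^ 8 = (c / (2 * n ^ 2)) ^ 4 / 512 := by
          field_simp
          ring
      _ ≤ _ := by gcongr
  refine le_trans hψge ?_
  by_contra hcon
  push Not at hcon
  have hkpos := hpos k hk
  set l := lev (n * k) with hl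
  have hw : ∀ j : ℕ, ρ n * 2 ^ j ≤ 1 := by
    intro j
    have hq : (n, k) ∈ act K (l + j) := by
      rw [mem_act]
      refine ⟨hn, hkpos, hk, ?_⟩
      exact lt_of_lt_of_le (lt_pow_lev (n * k)) (Nat.pow_le_pow_right (by norm_num) (by omega))
    have ht : thr ψ (l + j) (a (l+j)) n k := by
      obtain ⟨h1, h2⟩ := hmem (l + j)
      exact ⟨θ, h1, h2, p, hcon⟩
    have := wt_le_one hρ (hpot (l + j)) hq ht
    unfold wt at this
    simp only at this
    rw [pow_add, ← hl] at this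
    have h2 : (0:ℝ) < 2 ^ l := by positivity
    rw [div_le_one h2] at this
    have h3 : ρ n * 2 ^ j * 2 ^ l ≤ 1 * 2 ^ l := by linarith
    exact le_of_mul_le_mul_right h3 h2
  have hρn : 0 < ρ n := by
    show 0 < c / ((n:ℝ) * (n + 1))
    have : (0:ℝ) < n := by exact_mod_cast hn
    positivity
  obtain ⟨j, hj⟩ := pow_unbounded_of_one_lt (1 / ρ n) (show (1:ℝ) < 2 by norm_num)
  have := hw j
  rw [div_lt_iff₀ hρn] at hj
  linarith

end Pool.Agent.H92.Lac
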