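import Mathlib
import Pool.Agent.H92.Lac4

set_option autoImplicit false

namespace Pool.Agent.H92.Lac

open Finset

/-- Small steps hit every interval of length at least the step. -/
lemma hit_aux (s : ℝ) (hs0 : s ≠ 0) (u L : ℝ) (hL : |s| ≤ L) (x : ℝ) :
    ∃ j : ℕ, (j:ℝ) ≤ 1 / |s| + 1 ∧ ∃ z : ℤ, u + z ≤ x + j * s ∧ x + j * s ≤ u + L + z := by
  have hs : 0 < |s| := abs_pos.mpr hs0
  rcases lt_or_gt_of_ne hs0 with h | h
  · -- s < 0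
    have habs : |s| = -s := abs_of_neg h
    set z : ℤ := ⌊x - u - L⌋ with hz
    have hz1 : (z:ℝ) ≤ x - u - L := Int.floor_le _
    have hz2 : x - u - L < z + 1 := Int.lt_floor_add_one _
    set t : ℝ := (x - u - L - z) / |s| with ht
    have ht0 : 0 ≤ t := div_nonneg (by linarith) hs.le
    set j : ℕ := ⌈t⌉₊ with hj
    have hj1 : t ≤ j := Nat.le_ceil t
    have hj2 : (j:ℝ) < t + 1 := Nat.ceil_lt_add_one ht0
    have ht1 : t ≤ 1 / |s| := by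
      rw [ht]
      gcongr
      linarith
    have hts : t * |s| = x - u - L - z := by rw [ht]; field_simp
    refine ⟨j, by linarith, z, ?_, ?_⟩
    · have : (j:ℝ) * |s| ≤ (t + 1) * |s| := mul_le_mul_of_nonneg_right hj2.le hs.le
      have e : (j:ℝ) * s = -((j:ℝ) * |s|) := by rw [habs]; ring
      nlinarith
    · have : t * |s| ≤ (j:ℝ) * |s| := mul_le_mul_of_nonneg_right hj1 hs.le
      have e : (j:ℝ) * s = -((j:ℝ) * |s|) := by rw [habs]; ring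
      nlinarith
  · -- s > 0
    have habs : |s| = s := abs_of_pos h
    set z : ℤ := ⌈x - u⌉ with hz
    have hz1 : x - u ≤ z := Int.le_ceil _
    have hz2 : (z:ℝ) < x - u + 1 := Int.ceil_lt_add_one _
    set t : ℝ := (u + z - x) / |s| with ht
    have ht0 : 0 ≤ t := div_nonneg (by linarith) hs.le
    set j : ℕ := ⌈t⌉₊ with hj
    have hj1 : t ≤ j := Nat.le_ceil t
    have hj2 : (j:ℝ) < t + 1 := Nat.ceil_lt_add_one ht0
    have ht1 : t ≤ 1 / |s| := by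
      rw [ht]
      gcongr
      linarith
    have hts : t * |s| = u + z - x := by rw [ht]; field_simp
    refine ⟨j, by linarith, z, ?_, ?_⟩
    · have : t * |s| ≤ (j:ℝ) * |s| := mul_le_mul_of_nonneg_right hj1 hs.le
      have e : (j:ℝ) * s = ((j:ℝ) * |s|) := by rw [habs]
      nlinarith
    · have : (j:ℝ) * |s| ≤ (t + 1) * |s| := mul_le_mul_of_nonneg_right hj2.le hs.le
      have e : (j:ℝ) * s = ((j:ℝ) * |s|) := by rw [habs]
      nlinarith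

lemma fract_eq_of {y : ℝ} {z : ℤ} (h0 : 0 ≤ y) (h1 : y < 1) : Int.fract (y + z) = y := by
  rw [Int.fract_add_intCast]
  exact Int.fract_eq_self.mpr ⟨h0, h1⟩

lemma hit (α : ℝ) (q : ℕ) (p : ℤ) (hs0 : (q:ℝ) * α - p ≠ 0) (u L : ℝ) (hu : 0 ≤ u)
    (huL : u + L < 1) (hL : |(q:ℝ) * α - p| ≤ L) (x : ℝ) :
    ∃ j : ℕ, (j:ℝ) ≤ 1 / |(q:ℝ) * α - p| + 1 ∧
      u ≤ Int.fract (x + (j * q : ℕ) * α) ∧ Int.fract (x + (j * q : ℕ) * α) ≤ u + L := by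
  obtain ⟨j, hj, z, h1, h2⟩ := hit_aux _ hs0 u L hL x
  refine ⟨j, hj, ?_⟩
  set y := x + j * ((q:ℝ) * α - p) - z with hy
  have e : x + ((j * q : ℕ) : ℝ) * α = y + ((z + j * p : ℤ) : ℝ) := by
    rw [hy]; push_cast; ring
  rw [e, fract_eq_of (by linarith) (by linarith)]
  constructor <;> linarith

/-- digits detect shifts -/
lemma digit (u v : ℝ) (hu : 0 ≤ u) (huv : 0 ≤ u + v) (h1 : 1 ≤ |v|) (h2 : |v| ≤ 2) :
    ⌊u⌋₊ % 3 ≠ ⌊u + v⌋₊ % 3 := by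
  have e1 := Nat.floor_le hu
  have e2 := Nat.lt_floor_add_one u
  have e3 := Nat.floor_le huv
  have e4 := Nat.lt_floor_add_one (u + v)
  rcases le_or_gt 0 v with h | h
  · rw [abs_of_nonneg h] at h1 h2
    have a1 : (⌊u⌋₊ : ℝ) < ⌊u + v⌋₊ := by
      by_contra hcon
      push Not at hcon
      linarith
    have a2 : (⌊u + v⌋₊ : ℝ) < ⌊u⌋₊ + 3 := by linarith
    have a1' : ⌊u⌋₊ < ⌊u + v⌋₊ := by exact_mod_cast a1
    have a2' : ⌊u + v⌋₊ < ⌊u⌋₊ + 3 := by exact_mod_cast a2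
    omega
  · rw [abs_of_neg h] at h1 h2
    have a1 : (⌊u + v⌋₊ : ℝ) < ⌊u⌋₊ := by
      by_contra hcon
      push Not at hcon
      linarith
    have a2 : (⌊u⌋₊ : ℝ) < ⌊u + v⌋₊ + 3 := by linarith
    have a1' : ⌊u + v⌋₊ < ⌊u⌋₊ := by exact_mod_cast a1
    have a2' : ⌊u⌋₊ < ⌊u + v⌋₊ + 3 := by exact_mod_cast a2
    omega

/-- numerical choice of `i0`. -/
lemma exists_i0 (c : ℝ) (hc : 0 < c) : ∃ i0 : ℕ, 4 ≤ i0 ∧ ∀ i : ℕ, i0 ≤ i →
    16 * (i:ℝ) ^ 2 ≤ 2 ^ i ∧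
    ((4 * (i:ℝ) ^ 2) * ((4 * (i:ℝ)^2) ^ 8 / c + 1)) ^ 8 < c * 2 ^ i := by
  have h1 := tendsto_pow_const_div_const_pow_of_one_lt 2 (show (1:ℝ) < 2 by norm_num)
  have h2 := tendsto_pow_const_div_const_pow_of_one_lt 144 (show (1:ℝ) < 2 by norm_num)
  have e1 : ∀ᶠ i : ℕ in Filter.atTop, (i:ℝ) ^ 2 / 2 ^ i < 1/16 :=
    h1.eventually_lt_const (by norm_num)
  have hpos : 0 < c / ((4:ℝ) ^ 72 * (1 / c + 1) ^ 8) := by positivity
  have e2 : ∀ᶠ i : ℕ in Filter.atTop, (i:ℝ) ^ 144 / 2 ^ i < c / ((4:ℝ) ^ 72 * (1 / c + 1) ^ 8) :=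
    h2.eventually_lt_const hpos
  have e3 : ∀ᶠ i : ℕ in Filter.atTop, 4 ≤ i := Filter.eventually_ge_atTop 4
  obtain ⟨i0, hi0⟩ := Filter.eventually_atTop.mp (e1.and (e2.and e3))
  refine ⟨i0, (hi0 i0 le_rfl).2.2, ?_⟩
  intro i hi
  obtain ⟨f1, f2, f3⟩ := hi0 i hi
  have hi1 : (1:ℝ) ≤ i := by
    have : 1 ≤ i := by omega
    exact_mod_cast this
  have h2i : (0:ℝ) < 2 ^ i := by positivity
  constructor
  · rw [div_lt_iff₀ h2i] at f1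
    linarith
  · rw [div_lt_div_iff₀ h2i (by positivity)] at f2
    set Q : ℝ := 4 * (i:ℝ) ^ 2 with hQ
    have hQ1 : 1 ≤ Q := by rw [hQ]; nlinarith
    have g1 : Q * (Q ^ 8 / c + 1) ≤ Q ^ 9 * (1 / c + 1) := by
      have : 1 ≤ Q ^ 8 := one_le_pow₀ hQ1
      have e : Q ^ 9 * (1 / c + 1) = Q * (Q ^ 8 / c + Q ^ 8) := by ring
      rw [e]
      gcongr
    calc (Q * (Q ^ 8 / c + 1)) ^ 8 ≤ (Q ^ 9 * (1 / c + 1)) ^ 8 := by
          apply pow_le_pow_left₀ (by positivity) g1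
      _ = (i:ℝ) ^ 144 * ((4:ℝ) ^ 72 * (1 / c + 1) ^ 8) := by
          rw [hQ]; ring
      _ < c * 2 ^ i := f2

end Pool.Agent.H92.Lac
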