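import Mathlib
import Pool.Agent.H92.Lac5

set_option autoImplicit false

namespace Pool.Agent.H92.Lac

open Finset

lemma zone (i0 i : ℕ) (hi0 : 0 < i0) (hi : 0 < i) (y : ℝ) (h1 : (i0:ℝ) / (i + 1) < y)
    (h2 : y ≤ (i0:ℝ) / i) : ⌊(i0:ℝ) / y⌋₊ = i := by
  have hi0' : (0:ℝ) < i0 := by exact_mod_cast hi0
  have hi' : (0:ℝ) < i := by exact_mod_cast hi
  have hy : 0 < y := lt_trans (by positivity) h1
  rw [Nat.floor_eq_iff (by positivity)]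
  constructor
  · rw [le_div_iff₀ hy]
    rw [le_div_iff₀ hi'] at h2
    linarith
  · rw [div_lt_iff₀ hy]
    rw [div_lt_iff₀ (by positivity)] at h1
    linarith

/-- the colouring of the circle -/
noncomputable def circ (i0 : ℕ) (y : ℝ) : Fin (2 ^ (i0 + 1)) × Fin 3 :=
  (⟨⌊(2:ℝ) ^ (i0 + 1) * y⌋₊ % 2 ^ (i0+1), Nat.mod_lt _ (by positivity)⟩,
   ⟨⌊(2:ℝ) ^ (⌊(i0:ℝ) / y⌋₊ + 1) * y⌋₊ % 3, Nat.mod_lt _ (by norm_num)⟩)

lemma circ_coarse (i0 : ℕ) (y y' : ℝ) (h0 : 0 ≤ y) (h1 : y < 1) (h0' : 0 ≤ y') (h1' : y' < 1)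
    (h : circ i0 y = circ i0 y') : |y' - y| < (1/2) ^ (i0 + 1) := by
  have h2 : (0:ℝ) < 2 ^ (i0 + 1) := by positivity
  have e := congrArg (fun z => (z.1 : ℕ)) h
  simp only [circ] at e
  have f1 : ⌊(2:ℝ) ^ (i0 + 1) * y⌋₊ < 2 ^ (i0 + 1) := by
    rw [Nat.floor_lt (by positivity)]
    push_cast
    nlinarith
  have f2 : ⌊(2:ℝ) ^ (i0 + 1) * y'⌋₊ < 2 ^ (i0 + 1) := by
    rw [Nat.floor_lt (by positivity)]
    push_cast
    nlinarith
  rw [Nat.mod_eq_of_lt f1, Nat.mod_eq_of_lt f2] at e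
  have e1 := Nat.floor_le (show 0 ≤ (2:ℝ) ^ (i0 + 1) * y by positivity)
  have e2 := Nat.lt_floor_add_one ((2:ℝ) ^ (i0 + 1) * y)
  have e3 := Nat.floor_le (show 0 ≤ (2:ℝ) ^ (i0 + 1) * y' by positivity)
  have e4 := Nat.lt_floor_add_one ((2:ℝ) ^ (i0 + 1) * y')
  rw [e] at e1 e2
  have e5 : (2:ℝ) ^ (i0 + 1) * |y' - y| < 1 := by
    have e7 : (2:ℝ) ^ (i0 + 1) * |y' - y| = |(2:ℝ) ^ (i0 + 1) * (y' - y)| := by
      rw [abs_mul, abs_of_pos h2]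
    rw [e7, abs_lt]
    constructor <;> linarith
  have e6 : ((1:ℝ)/2) ^ (i0 + 1) = 1 / 2 ^ (i0 + 1) := by rw [div_pow, one_pow]
  rw [e6, lt_div_iff₀ h2]
  linarith

theorem coloring (K : Set ℕ) (θ c : ℝ) (hc : 0 < c)
    (hθ : ∀ k ∈ K, ∀ n : ℕ, 0 < n → ∀ p : ℤ, c / (n:ℝ) ^ 8 ≤ |((n * k : ℕ) : ℝ) * θ - p|) :
    ∃ N : ℕ, ∃ col : ℤ → Fin N,
        ∀ k ∈ K, ∀ a : ℤ, ∀ n : ℕ, 0 < n →
          ∃ i : ℕ, i < n ∧
            col (a + (i : ℤ) * (k : ℤ)) ≠ col (a + ((n : ℤ) + (i : ℤ)) * (k : ℤ)) := by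
  obtain ⟨i0, hi04, hi0⟩ := exists_i0 c hc
  let e : (Fin (2 ^ (i0 + 1)) × Fin 3) ≃ Fin (Fintype.card (Fin (2 ^ (i0 + 1)) × Fin 3)) :=
    Fintype.equivFin _
  refine ⟨Fintype.card (Fin (2 ^ (i0 + 1)) × Fin 3), fun a => e (circ i0 (Int.fract ((a:ℝ) * θ))), ?_⟩
  intro k hk a n hn
  by_contra hcon
  push Not at hcon
  have hcol : ∀ j : ℕ, j < n →
      circ i0 (Int.fract ((a:ℝ) * θ + (j:ℕ) * ((k:ℝ) * θ))) =
      circ i0 (Int.fract ((a:ℝ) * θ + (j:ℕ) * ((k:ℝ) * θ) + ((n * k : ℕ) : ℝ) * θ)) := by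
    intro j hj
    have := e.injective (hcon j hj)
    have e1 : (((a + (j:ℤ) * (k:ℤ) : ℤ)) : ℝ) * θ = (a:ℝ) * θ + (j:ℕ) * ((k:ℝ) * θ) := by
      push_cast; ring
    have e2 : (((a + ((n:ℤ) + (j:ℤ)) * (k:ℤ) : ℤ)) : ℝ) * θ =
        (a:ℝ) * θ + (j:ℕ) * ((k:ℝ) * θ) + ((n * k : ℕ) : ℝ) * θ := by
      push_cast; ring
    rw [e1, e2] at this
    exact this
  -- coarse step
  have h0 := hcol 0 hn
  have hcoarse := circ_coarse i0 _ _ (Int.fract_nonneg _) (Int.fract_lt_one _) (Int.fract_nonneg _)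
    (Int.fract_lt_one _) h0
  set X : ℝ := (a:ℝ) * θ + ((0:ℕ):ℝ) * ((k:ℝ) * θ) with hX
  set p : ℤ := ⌊X + ((n * k : ℕ) : ℝ) * θ⌋ - ⌊X⌋ with hp
  set b : ℝ := ((n * k : ℕ) : ℝ) * θ - p with hb
  have hbeq : Int.fract (X + ((n * k : ℕ) : ℝ) * θ) - Int.fract X = b := by
    rw [hb, hp, Int.fract, Int.fract]
    push_cast
    ring
  rw [hbeq] at hcoarse
  have hblow : c / (n:ℝ) ^ 8 ≤ |b| := hθ k hk n hn p
  have hnR : (0:ℝ) < n := by exact_mod_cast hn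
  have hbpos : 0 < |b| := lt_of_lt_of_le (by positivity) hblow
  have hb1 : |b| ≤ 1 := by
    refine le_trans hcoarse.le ?_
    apply pow_le_one₀ <;> norm_num
  obtain ⟨i, hi1, hi2⟩ := exists_nat_pow_near_of_lt_one hbpos hb1 (show (0:ℝ) < 1/2 by norm_num)
    (show (1/2:ℝ) < 1 by norm_num)
  have hii0 : i0 ≤ i := by
    have : ((1:ℝ)/2) ^ (i+1) < (1/2) ^ (i0 + 1) := lt_trans hi1 hcoarse
    have := (pow_lt_pow_iff_right_of_lt_one₀ (show (0:ℝ) < 1/2 by norm_num) (show (1/2:ℝ) < 1 by norm_num)).mp this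
    omega
  obtain ⟨n1, n2⟩ := hi0 i hii0
  have hipos : 0 < i := by omega
  have hiR : (1:ℝ) ≤ i := by exact_mod_cast hipos
  have h2i : (0:ℝ) < 2 ^ i := by positivity
  have hhalf : ∀ m : ℕ, ((1:ℝ)/2) ^ m = 1 / 2 ^ m := fun m => by rw [div_pow, one_pow]
  have hi0R : (1:ℝ) ≤ i0 := by
    have : 1 ≤ i0 := by omega
    exact_mod_cast this
  have hi0i : (i0:ℝ) ≤ i := by exact_mod_cast hii0
  -- target interval
  set u : ℝ := (i0:ℝ) / (i + 1) + 2 * (1 / 2 ^ i) with hu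
  set L : ℝ := (i0:ℝ) / (i * (i + 1)) - 4 * (1 / 2 ^ i) with hL
  have huL : u + L = (i0:ℝ) / i - 2 * (1 / 2 ^ i) := by
    rw [hu, hL]
    have : (i:ℝ) ≠ 0 := by positivity
    have : (i:ℝ) + 1 ≠ 0 := by positivity
    field_simp
    ring
  have huL1 : u + L < 1 := by
    rw [huL]
    have : (i0:ℝ) / i ≤ 1 := by rw [div_le_one (by positivity)]; exact hi0i
    have : (0:ℝ) < 1 / 2 ^ i := by positivity
    linarith
  have hu0 : 0 ≤ u := by rw [hu]; positivity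
  have hLQ : 1 / (4 * (i:ℝ) ^ 2) ≤ L := by
    rw [hL]
    have a1 : 1 / (2 * (i:ℝ) ^ 2) ≤ (i0:ℝ) / (i * (i + 1)) := by
      rw [div_le_div_iff₀ (by positivity) (by positivity)]
      nlinarith
    have a2 : (1:ℝ) / 2 ^ i ≤ 1 / (16 * (i:ℝ)^2) := one_div_le_one_div_of_le (by positivity) n1
    have a3 : (1:ℝ) / (4 * (i:ℝ) ^ 2) = 1 / (2 * (i:ℝ) ^ 2) - 4 * (1 / (16 * (i:ℝ)^2)) := by
      field_simp
      ring
    linarith
  -- Dirichlet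
  obtain ⟨q, hq0, hqQ, hq⟩ := Real.exists_nat_abs_mul_sub_round_le ((k:ℝ) * θ)
    (show 0 < 4 * i ^ 2 by positivity)
  set r : ℤ := round ((q:ℝ) * ((k:ℝ) * θ)) with hr
  set s : ℝ := (q:ℝ) * ((k:ℝ) * θ) - r with hs
  have hqR : (0:ℝ) < q := by exact_mod_cast hq0
  have hslow : c / (q:ℝ) ^ 8 ≤ |s| := by
    have := hθ k hk q hq0 r
    have e1 : ((q * k : ℕ) : ℝ) * θ - r = s := by rw [hs]; push_cast; ring
    rwa [e1] at this
  have hspos : 0 < |s| := lt_of_lt_of_le (by positivity) hslow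
  have hs0 : s ≠ 0 := abs_pos.mp hspos
  have hsL : |s| ≤ L := by
    refine le_trans hq (le_trans ?_ hLQ)
    push_cast
    apply one_div_le_one_div_of_le (by positivity)
    linarith
  obtain ⟨j, hj, hy1, hy2⟩ := hit ((k:ℝ) * θ) q r hs0 u L hu0 huL1 hsL ((a:ℝ) * θ)
  have hQ' : (q:ℝ) ≤ 4 * (i:ℝ) ^ 2 := by exact_mod_cast hqQ
  have hjq : j * q < n := by
    have b1 : 1 / |s| ≤ (4 * (i:ℝ) ^ 2) ^ 8 / c := by
      rw [div_le_div_iff₀ hspos hc]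
      rw [div_le_iff₀ (by positivity)] at hslow
      have : |s| * (q:ℝ) ^ 8 ≤ |s| * (4 * (i:ℝ) ^ 2) ^ 8 := by
        apply mul_le_mul_of_nonneg_left _ hspos.le
        apply pow_le_pow_left₀ hqR.le hQ'
      linarith
    have b2 : ((j * q : ℕ) : ℝ) ≤ (4 * (i:ℝ) ^ 2) * ((4 * (i:ℝ)^2) ^ 8 / c + 1) := by
      push_cast
      rw [mul_comm]
      apply mul_le_mul hQ' (by linarith) (by positivity) (by positivity)
    have b3 : ((j * q : ℕ) : ℝ) ^ 8 < (n:ℝ) ^ 8 := by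
      calc ((j * q : ℕ) : ℝ) ^ 8 ≤ ((4 * (i:ℝ) ^ 2) * ((4 * (i:ℝ)^2) ^ 8 / c + 1)) ^ 8 :=
            pow_le_pow_left₀ (by positivity) b2 8
        _ < c * 2 ^ i := n2
        _ ≤ (n:ℝ) ^ 8 := by
            have := le_trans hblow hi2
            rw [hhalf, div_le_div_iff₀ (by positivity) (by positivity)] at this
            linarith
    have b4 := lt_of_pow_lt_pow_left₀ 8 hnR.le b3
    exact_mod_cast b4
  have hfin := hcol (j * q) hjq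
  set Y : ℝ := (a:ℝ) * θ + ((j * q : ℕ) : ℝ) * ((k:ℝ) * θ) with hY
  set y : ℝ := Int.fract Y with hy
  have hbabs := abs_le.mp hi2
  rw [hhalf] at hbabs
  have h2ipos : (0:ℝ) < 1 / 2 ^ i := by positivity
  have hyb : Int.fract (Y + ((n * k : ℕ) : ℝ) * θ) = y + b := by
    have e1 : Y + ((n * k : ℕ) : ℝ) * θ = (y + b) + ((⌊Y⌋ + p : ℤ) : ℝ) := by
      rw [hy, hb, Int.fract]
      push_cast
      ring
    rw [e1]
    have l1 : u - 1 / 2 ^ i ≥ 0 := by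
      rw [hu]
      have : 0 ≤ (i0:ℝ) / (i + 1) := by positivity
      linarith
    have l2 : u + L + 1 / 2 ^ i < 1 := by
      rw [huL]
      have : (i0:ℝ) / i ≤ 1 := by rw [div_le_one (by positivity)]; exact hi0i
      linarith
    rw [Int.fract_add_intCast]
    exact Int.fract_eq_self.mpr ⟨by linarith, by linarith⟩
  rw [hyb] at hfin
  -- both in zone i
  have z1 : ⌊(i0:ℝ) / y⌋₊ = i := by
    apply zone i0 i (by omega) hipos
    · have : u ≤ y := hy1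
      rw [hu] at this
      linarith
    · have : y ≤ u + L := hy2
      rw [huL] at this
      linarith
  have hblt : (i0:ℝ) / (i + 1) < y + b := by
    have h5 : u ≤ y := hy1
    rw [hu] at h5
    linarith
  have z2 : ⌊(i0:ℝ) / (y + b)⌋₊ = i := by
    apply zone i0 i (by omega) hipos _ hblt
    have : y ≤ u + L := hy2
    rw [huL] at this
    linarith
  have hfin2 := congrArg (fun z => (z.2 : ℕ)) hfin
  simp only [circ] at hfin2
  rw [z1, z2] at hfin2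
  have hy0 : 0 ≤ y := Int.fract_nonneg _
  have hyb0 : 0 ≤ y + b := by rw [← hyb]; exact Int.fract_nonneg _
  have h2i1 : (0:ℝ) < 2 ^ (i+1) := by positivity
  refine digit ((2:ℝ) ^ (i+1) * y) ((2:ℝ) ^ (i+1) * b) (by positivity) ?_ ?_ ?_ ?_
  · rw [← mul_add]; positivity
  · rw [abs_mul, abs_of_pos h2i1]
    rw [hhalf, div_lt_iff₀ h2i1] at hi1
    linarith
  · rw [abs_mul, abs_of_pos h2i1]
    rw [hhalf, le_div_iff₀ h2i] at hi2
    have : (2:ℝ) ^ (i+1) = 2 ^ i * 2 := pow_succ _ _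
    rw [this]
    linarith
  · rw [← mul_add]
    exact hfin2

end Pool.Agent.H92.Lac
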