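import Mathlib
import Pool.Agent.H92.Lac6

set_option autoImplicit false

namespace Pool.Agent.H92.Lac

open Finset

/-- For every lacunary `K` there is a real `θ` such that all `k θ`, `k ∈ K`, are
uniformly Diophantine, with a constant depending only on the lacunarity of `K`. -/
theorem exists_theta_unif (K : Set ℕ) (hpos : ∀ k ∈ K, 0 < k) (δ : ℝ) (hδ : 0 < δ)
    (hK : ∀ a ∈ K, ∀ b ∈ K, a < b → (1 + δ) * (a : ℝ) < (b : ℝ)) (B : ℕ)
    (hB : 16 < (1 + δ) ^ B) :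
    ∃ θ : ℝ, ∀ k ∈ K, ∀ n : ℕ, 0 < n → ∀ p : ℤ,
      (1 / (2 * ((B:ℝ) + 1))) ^ 4 / 8192 / (n:ℝ) ^ 8 ≤ |((n * k : ℕ) : ℝ) * θ - p| := by
  classical
  set c : ℝ := 1 / (2 * (B + 1)) with hcdef
  have hc : 0 < c := by rw [hcdef]; positivity
  have hc1 : c ≤ 1 := by
    rw [hcdef, div_le_one (by positivity)]
    have : (0:ℝ) ≤ B := Nat.cast_nonneg B
    linarith
  have hcB : c * B ≤ 1/2 := by
    rw [hcdef]
    have : (0:ℝ) ≤ B := Nat.cast_nonneg B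
    rw [div_mul_eq_mul_div, one_mul, div_le_div_iff₀ (by positivity) (by norm_num)]
    linarith
  set ρ : ℕ → ℝ := fun n => c / ((n:ℝ) * (n + 1)) with hρdef
  set ψ : ℕ → ℝ := fun n => (c / ((n:ℝ) * (n + 1))) ^ 4 / 512 with hψdef
  have hρ : ∀ n, 0 ≤ ρ n := fun n => by rw [hρdef]; positivity
  have hstep : ∀ m A, pot K ρ ψ m A ≤ 1 → ∃ d, d < 16 ∧ pot K ρ ψ (m+1) (16 * A + d) ≤ 1 := by
    intro m A h
    exact step K δ hδ hK B hB.le c hc hc1 hcB m A h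
  choose! g hg using hstep
  obtain ⟨a, ha0, has⟩ : ∃ a : ℕ → ℕ, a 0 = 0 ∧ ∀ m, a (m+1) = 16 * a m + g m (a m) :=
    ⟨fun m => Nat.rec (motive := fun _ => ℕ) 0 (fun m x => 16 * x + g m x) m, rfl, fun m => rfl⟩
  have hpot : ∀ m, pot K ρ ψ m (a m) ≤ 1 := by
    intro m
    induction m with
    | zero =>
      have : act K 0 = ∅ := by
        apply Finset.eq_empty_of_forall_notMem
        intro q hq
        rw [mem_act] at hq
        have := Nat.mul_pos hq.1 hq.2.1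
        simp at hq
        omega
      unfold pot
      rw [this]
      simp
    | succ m ih =>
      rw [has]
      exact (hg m (a m) ih).2
  -- nested intervals
  have hmono : Monotone (fun m : ℕ => ((a m : ℕ) : ℝ) / 16 ^ m) := by
    apply monotone_nat_of_le_succ
    intro m
    rw [has]
    rw [pow_succ, div_le_div_iff₀ (by positivity) (by positivity)]
    push_cast
    have h16 : (0:ℝ) < 16 ^ m := by positivity
    have hd0 : (0:ℝ) ≤ g m (a m) := Nat.cast_nonneg _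
    nlinarith [mul_nonneg hd0 h16.le]
  have hanti : Antitone (fun m : ℕ => (((a m : ℕ) : ℝ) + 1) / 16 ^ m) := by
    apply antitone_nat_of_succ_le
    intro m
    rw [has]
    rw [pow_succ, div_le_div_iff₀ (by positivity) (by positivity)]
    push_cast
    have h16 : (0:ℝ) < 16 ^ m := by positivity
    have hd0 : (g m (a m) : ℝ) + 1 ≤ 16 := by exact_mod_cast (hg m (a m) (hpot m)).1
    nlinarith [mul_nonneg (sub_nonneg.mpr hd0) h16.le]
  have hle : ∀ m, (fun m : ℕ => ((a m : ℕ) : ℝ) / 16 ^ m) m ≤ (fun m : ℕ => (((a m : ℕ) : ℝ) + 1) / 16 ^ m) m := by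
    intro m
    show (a m : ℝ) / 16 ^ m ≤ ((a m : ℝ) + 1) / 16 ^ m
    gcongr
    linarith
  have hmem := Monotone.ciSup_mem_iInter_Icc_of_antitone hmono hanti hle
  set θ : ℝ := ⨆ m : ℕ, ((a m : ℕ) : ℝ) / 16 ^ m with hθ
  rw [Set.mem_iInter] at hmem
  refine ⟨θ, ?_⟩
  intro k hk n hn p
  have hψge : c ^ 4 / 8192 / (n:ℝ) ^ 8 ≤ ψ n := by
    show c ^ 4 / 8192 / (n:ℝ) ^ 8 ≤ (c / ((n:ℝ) * (n + 1))) ^ 4 / 512
    have hn1 : (1:ℝ) ≤ n := by exact_mod_cast hn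
    have h1 : (n:ℝ) * (n + 1) ≤ 2 * n ^ 2 := by nlinarith
    have h2 : c / (2 * n ^ 2) ≤ c / ((n:ℝ) * (n + 1)) := by
      apply div_le_div_of_nonneg_left hc.le (by positivity) h1
    have h3 : (c / (2 * n ^ 2)) ^ 4 ≤ (c / ((n:ℝ) * (n + 1))) ^ 4 := pow_le_pow_left₀ (by positivity) h2 4
    calc c ^ 4 / 8192 / (n:ℝ) ^ 8 = (c / (2 * n ^ 2)) ^ 4 / 512 := by
          field_simp
          ring
      _ ≤ _ := by gcongr
  refine le_trans hψge ?_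
  by_contra hcon
  push Not at hcon
  have hkpos := hpos k hk
  set l := lev (n * k) with hl
  have hw : ∀ j : ℕ, ρ n * 2 ^ j ≤ 1 := by
    intro j
    have hq : (n, k) ∈ act K (l + j) := by
      rw [mem_act]
      refine ⟨hn, hkpos, hk, ?_⟩
      exact lt_of_lt_of_le (lt_pow_lev (n * k)) (Nat.pow_le_pow_right (by norm_num) (by omega))
    have ht : thr ψ (l + j) (a (l+j)) n k := by
      obtain ⟨h1, h2⟩ := hmem (l + j)
      exact ⟨θ, h1, h2, p, hcon⟩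
    have := wt_le_one hρ (hpot (l + j)) hq ht
    unfold wt at this
    simp only at this
    rw [pow_add, ← hl] at this
    have h2 : (0:ℝ) < 2 ^ l := by positivity
    rw [div_le_one h2] at this
    have h3 : ρ n * 2 ^ j * 2 ^ l ≤ 1 * 2 ^ l := by linarith
    exact le_of_mul_le_mul_right h3 h2
  have hρn : 0 < ρ n := by
    show 0 < c / ((n:ℝ) * (n + 1))
    have : (0:ℝ) < n := by exact_mod_cast hn
    positivity
  obtain ⟨j, hj⟩ := pow_unbounded_of_one_lt (1 / ρ n) (show (1:ℝ) < 2 by norm_num)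
  have := hw j
  rw [div_lt_iff₀ hρn] at hj
  linarith

/-- numerical choice of `i0`, with a polynomial bound. -/
lemma exists_i0_poly : ∃ C0 : ℝ, 0 < C0 ∧ ∀ c : ℝ, 0 < c → c ≤ 1 →
    ∃ i0 : ℕ, 4 ≤ i0 ∧ (2:ℝ) ^ (i0 + 1) ≤ C0 / c ^ 18 ∧ ∀ i : ℕ, i0 ≤ i →
    16 * (i:ℝ) ^ 2 ≤ 2 ^ i ∧
    ((4 * (i:ℝ) ^ 2) * ((4 * (i:ℝ)^2) ^ 8 / c + 1)) ^ 8 < c * 2 ^ i := by
  have h1 := tendsto_pow_const_div_const_pow_of_one_lt 2 (show (1:ℝ) < 2 by norm_num)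
  have h2 := tendsto_pow_const_div_const_pow_of_one_lt 288 (show (1:ℝ) < 2 by norm_num)
  have e1 : ∀ᶠ i : ℕ in Filter.atTop, (i:ℝ) ^ 2 / 2 ^ i < 1/16 :=
    h1.eventually_lt_const (by norm_num)
  have e2 : ∀ᶠ i : ℕ in Filter.atTop, (i:ℝ) ^ 288 / 2 ^ i < 1 :=
    h2.eventually_lt_const (by norm_num)
  have e3 : ∀ᶠ i : ℕ in Filter.atTop, 4 ≤ i := Filter.eventually_ge_atTop 4
  obtain ⟨j0, hj0⟩ := Filter.eventually_atTop.mp (e1.and (e2.and e3))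
  refine ⟨2 ^ (j0 + 1) + 4 * (4 ^ 72 * 2 ^ 8) ^ 2, by positivity, ?_⟩
  intro c hc hc1
  set T : ℝ := 4 ^ 72 * (1 / c + 1) ^ 8 / c with hT
  have hc' : 1 ≤ 1 / c := by rw [le_div_iff₀ hc]; linarith
  have hTpos : 0 < T := by rw [hT]; positivity
  have hT1 : 1 ≤ T := by
    rw [hT, le_div_iff₀ hc]
    have a1 : (1:ℝ) ≤ (1 / c + 1) ^ 8 := one_le_pow₀ (by linarith)
    have a2 : (1:ℝ) ≤ 4 ^ 72 := one_le_pow₀ (by norm_num)
    nlinarith
  have hTle : T ≤ (4 ^ 72 * 2 ^ 8) / c ^ 9 := by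
    rw [hT]
    have a1 : (1 / c + 1) ^ 8 ≤ (2 / c) ^ 8 := by
      apply pow_le_pow_left₀ (by positivity)
      have : 2 / c = 1 / c + 1 / c := by ring
      rw [this]; linarith
    have a2 : (4 ^ 72 * 2 ^ 8) / c ^ 9 = 4 ^ 72 * (2 / c) ^ 8 / c := by
      field_simp
    rw [a2]
    gcongr
  have hT2 : 1 ≤ T ^ 2 := one_le_pow₀ hT1
  obtain ⟨l, hl1, hl2⟩ := exists_nat_pow_near hT2 (show (1:ℝ) < 2 by norm_num)
  refine ⟨max j0 (l + 1), le_trans (hj0 j0 le_rfl).2.2 (le_max_left _ _), ?_, ?_⟩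
  · have hc18 : c ^ 18 ≤ 1 := pow_le_one₀ hc.le hc1
    have b1 : (2:ℝ) ^ (j0 + 1) ≤ 2 ^ (j0 + 1) / c ^ 18 := by
      rw [le_div_iff₀ (by positivity)]
      have : (0:ℝ) < 2 ^ (j0 + 1) := by positivity
      nlinarith
    have b2 : (2:ℝ) ^ (l + 1 + 1) ≤ 4 * (4 ^ 72 * 2 ^ 8) ^ 2 / c ^ 18 := by
      have d1 : (2:ℝ) ^ (l + 1 + 1) = 4 * 2 ^ l := by ring
      have d2 : T ^ 2 ≤ ((4 ^ 72 * 2 ^ 8) / c ^ 9) ^ 2 := pow_le_pow_left₀ hTpos.le hTle 2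
      have d3 : ((4 ^ 72 * 2 ^ 8) / c ^ 9) ^ 2 = (4 ^ 72 * 2 ^ 8) ^ 2 / c ^ 18 := by
        rw [div_pow, ← pow_mul]
      rw [d1, mul_div_assoc, ← d3]
      linarith
    have b3 : 0 ≤ 4 * ((4:ℝ) ^ 72 * 2 ^ 8) ^ 2 / c ^ 18 := by positivity
    have b4 : 0 ≤ (2:ℝ) ^ (j0 + 1) / c ^ 18 := by positivity
    rw [add_div]
    rcases le_total j0 (l + 1) with h | h
    · rw [max_eq_right h]; linarith
    · rw [max_eq_left h]; linarith
  · intro i hi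
    have hij : j0 ≤ i := le_trans (le_max_left _ _) hi
    have hil : l + 1 ≤ i := le_trans (le_max_right _ _) hi
    obtain ⟨f1, f2, f3⟩ := hj0 i hij
    have hi1 : (1:ℝ) ≤ i := by
      have : 1 ≤ i := by omega
      exact_mod_cast this
    have h2i : (0:ℝ) < 2 ^ i := by positivity
    constructor
    · rw [div_lt_iff₀ h2i] at f1
      linarith
    · rw [div_lt_one h2i] at f2
      have g0 : T ^ 2 < 2 ^ i := lt_of_lt_of_le hl2 (pow_le_pow_right₀ (by norm_num) hil)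
      have g2 : (i:ℝ) ^ 144 * T < 2 ^ i := by
        have k1 : ((i:ℝ) ^ 144 * T) ^ 2 < ((2:ℝ) ^ i) ^ 2 := by
          have k2 : ((i:ℝ) ^ 144 * T) ^ 2 = (i:ℝ) ^ 288 * T ^ 2 := by
            rw [mul_pow, ← pow_mul]
          rw [k2, sq ((2:ℝ) ^ i)]
          apply mul_lt_mul'' f2 g0 (by positivity) (by positivity)
        exact lt_of_pow_lt_pow_left₀ 2 h2i.le k1
      set Q : ℝ := 4 * (i:ℝ) ^ 2 with hQ
      have hQ1 : 1 ≤ Q := by rw [hQ]; nlinarith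
      have g1 : Q * (Q ^ 8 / c + 1) ≤ Q ^ 9 * (1 / c + 1) := by
        have : 1 ≤ Q ^ 8 := one_le_pow₀ hQ1
        have e : Q ^ 9 * (1 / c + 1) = Q * (Q ^ 8 / c + Q ^ 8) := by ring
        rw [e]
        gcongr
      calc (Q * (Q ^ 8 / c + 1)) ^ 8 ≤ (Q ^ 9 * (1 / c + 1)) ^ 8 := by
            apply pow_le_pow_left₀ (by positivity) g1
        _ = c * ((i:ℝ) ^ 144 * T) := by
            rw [hQ, hT]
            field_simp
        _ < c * 2 ^ i := by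
            apply mul_lt_mul_of_pos_left g2 hc

/-- the colouring with an explicit number of colours. -/
theorem coloring_explicit (K : Set ℕ) (θ c : ℝ) (hc : 0 < c)
    (hθ : ∀ k ∈ K, ∀ n : ℕ, 0 < n → ∀ p : ℤ, c / (n:ℝ) ^ 8 ≤ |((n * k : ℕ) : ℝ) * θ - p|)
    (i0 : ℕ) (hi04 : 4 ≤ i0) (hi0 : ∀ i : ℕ, i0 ≤ i → 16 * (i:ℝ) ^ 2 ≤ 2 ^ i ∧
      ((4 * (i:ℝ) ^ 2) * ((4 * (i:ℝ)^2) ^ 8 / c + 1)) ^ 8 < c * 2 ^ i) :
    ∃ col : ℤ → Fin (2 ^ (i0 + 1) * 3),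
        ∀ k ∈ K, ∀ a : ℤ, ∀ n : ℕ, 0 < n →
          ∃ i : ℕ, i < n ∧
            col (a + (i : ℤ) * (k : ℤ)) ≠ col (a + ((n : ℤ) + (i : ℤ)) * (k : ℤ)) := by
  let e : (Fin (2 ^ (i0 + 1)) × Fin 3) ≃ Fin (2 ^ (i0 + 1) * 3) := finProdFinEquiv
  refine ⟨fun a => e (circ i0 (Int.fract ((a:ℝ) * θ))), ?_⟩
  intro k hk a n hn
  by_contra hcon
  push Not at hcon
  have hcol : ∀ j : ℕ, j < n →
      circ i0 (Int.fract ((a:ℝ) * θ + (j:ℕ) * ((k:ℝ) * θ))) =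
      circ i0 (Int.fract ((a:ℝ) * θ + (j:ℕ) * ((k:ℝ) * θ) + ((n * k : ℕ) : ℝ) * θ)) := by
    intro j hj
    have := e.injective (hcon j hj)
    have e1 : (((a + (j:ℤ) * (k:ℤ) : ℤ)) : ℝ) * θ = (a:ℝ) * θ + (j:ℕ) * ((k:ℝ) * θ) := by
      push_cast; ring
    have e2 : (((a + ((n:ℤ) + (j:ℤ)) * (k:ℤ) : ℤ)) : ℝ) * θ =
        (a:ℝ) * θ + (j:ℕ) * ((k:ℝ) * θ) + ((n * k : ℕ) : ℝ) * θ := by
      push_cast; ring
    rw [e1, e2] at this
    exact this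
  -- coarse step
  have h0 := hcol 0 hn
  have hcoarse := circ_coarse i0 _ _ (Int.fract_nonneg _) (Int.fract_lt_one _) (Int.fract_nonneg _)
    (Int.fract_lt_one _) h0
  set X : ℝ := (a:ℝ) * θ + ((0:ℕ):ℝ) * ((k:ℝ) * θ) with hX
  set p : ℤ := ⌊X + ((n * k : ℕ) : ℝ) * θ⌋ - ⌊X⌋ with hp
  set b : ℝ := ((n * k : ℕ) : ℝ) * θ - p with hb
  have hbeq : Int.fract (X + ((n * k : ℕ) : ℝ) * θ) - Int.fract X = b := by
    rw [hb, hp, Int.fract, Int.fract]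
    push_cast
    ring
  rw [hbeq] at hcoarse
  have hblow : c / (n:ℝ) ^ 8 ≤ |b| := hθ k hk n hn p
  have hnR : (0:ℝ) < n := by exact_mod_cast hn
  have hbpos : 0 < |b| := lt_of_lt_of_le (by positivity) hblow
  have hb1 : |b| ≤ 1 := by
    refine le_trans hcoarse.le ?_
    apply pow_le_one₀ <;> norm_num
  obtain ⟨i, hi1, hi2⟩ := exists_nat_pow_near_of_lt_one hbpos hb1 (show (0:ℝ) < 1/2 by norm_num)
    (show (1/2:ℝ) < 1 by norm_num)
  have hii0 : i0 ≤ i := by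
    have : ((1:ℝ)/2) ^ (i+1) < (1/2) ^ (i0 + 1) := lt_trans hi1 hcoarse
    have := (pow_lt_pow_iff_right_of_lt_one₀ (show (0:ℝ) < 1/2 by norm_num) (show (1/2:ℝ) < 1 by norm_num)).mp this
    omega
  obtain ⟨n1, n2⟩ := hi0 i hii0
  have hipos : 0 < i := by omega
  have hiR : (1:ℝ) ≤ i := by exact_mod_cast hipos
  have h2i : (0:ℝ) < 2 ^ i := by positivity
  have hhalf : ∀ m : ℕ, ((1:ℝ)/2) ^ m = 1 / 2 ^ m := fun m => by rw [div_pow, one_pow]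
  have hi0R : (1:ℝ) ≤ i0 := by
    have : 1 ≤ i0 := by omega
    exact_mod_cast this
  have hi0i : (i0:ℝ) ≤ i := by exact_mod_cast hii0
  -- target interval
  set u : ℝ := (i0:ℝ) / (i + 1) + 2 * (1 / 2 ^ i) with hu
  set L : ℝ := (i0:ℝ) / (i * (i + 1)) - 4 * (1 / 2 ^ i) with hL
  have huL : u + L = (i0:ℝ) / i - 2 * (1 / 2 ^ i) := by
    rw [hu, hL]
    have : (i:ℝ) ≠ 0 := by positivity
    have : (i:ℝ) + 1 ≠ 0 := by positivity
    field_simp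
    ring
  have huL1 : u + L < 1 := by
    rw [huL]
    have : (i0:ℝ) / i ≤ 1 := by rw [div_le_one (by positivity)]; exact hi0i
    have : (0:ℝ) < 1 / 2 ^ i := by positivity
    linarith
  have hu0 : 0 ≤ u := by rw [hu]; positivity
  have hLQ : 1 / (4 * (i:ℝ) ^ 2) ≤ L := by
    rw [hL]
    have a1 : 1 / (2 * (i:ℝ) ^ 2) ≤ (i0:ℝ) / (i * (i + 1)) := by
      rw [div_le_div_iff₀ (by positivity) (by positivity)]
      nlinarith
    have a2 : (1:ℝ) / 2 ^ i ≤ 1 / (16 * (i:ℝ)^2) := one_div_le_one_div_of_le (by positivity) n1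
    have a3 : (1:ℝ) / (4 * (i:ℝ) ^ 2) = 1 / (2 * (i:ℝ) ^ 2) - 4 * (1 / (16 * (i:ℝ)^2)) := by
      field_simp
      ring
    linarith
  -- Dirichlet
  obtain ⟨q, hq0, hqQ, hq⟩ := Real.exists_nat_abs_mul_sub_round_le ((k:ℝ) * θ)
    (show 0 < 4 * i ^ 2 by positivity)
  set r : ℤ := round ((q:ℝ) * ((k:ℝ) * θ)) with hr
  set s : ℝ := (q:ℝ) * ((k:ℝ) * θ) - r with hs
  have hqR : (0:ℝ) < q := by exact_mod_cast hq0
  have hslow : c / (q:ℝ) ^ 8 ≤ |s| := by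
    have := hθ k hk q hq0 r
    have e1 : ((q * k : ℕ) : ℝ) * θ - r = s := by rw [hs]; push_cast; ring
    rwa [e1] at this
  have hspos : 0 < |s| := lt_of_lt_of_le (by positivity) hslow
  have hs0 : s ≠ 0 := abs_pos.mp hspos
  have hsL : |s| ≤ L := by
    refine le_trans hq (le_trans ?_ hLQ)
    push_cast
    apply one_div_le_one_div_of_le (by positivity)
    linarith
  obtain ⟨j, hj, hy1, hy2⟩ := hit ((k:ℝ) * θ) q r hs0 u L hu0 huL1 hsL ((a:ℝ) * θ)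
  have hQ' : (q:ℝ) ≤ 4 * (i:ℝ) ^ 2 := by exact_mod_cast hqQ
  have hjq : j * q < n := by
    have b1 : 1 / |s| ≤ (4 * (i:ℝ) ^ 2) ^ 8 / c := by
      rw [div_le_div_iff₀ hspos hc]
      rw [div_le_iff₀ (by positivity)] at hslow
      have : |s| * (q:ℝ) ^ 8 ≤ |s| * (4 * (i:ℝ) ^ 2) ^ 8 := by
        apply mul_le_mul_of_nonneg_left _ hspos.le
        apply pow_le_pow_left₀ hqR.le hQ'
      linarith
    have b2 : ((j * q : ℕ) : ℝ) ≤ (4 * (i:ℝ) ^ 2) * ((4 * (i:ℝ)^2) ^ 8 / c + 1) := by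
      push_cast
      rw [mul_comm]
      apply mul_le_mul hQ' (by linarith) (by positivity) (by positivity)
    have b3 : ((j * q : ℕ) : ℝ) ^ 8 < (n:ℝ) ^ 8 := by
      calc ((j * q : ℕ) : ℝ) ^ 8 ≤ ((4 * (i:ℝ) ^ 2) * ((4 * (i:ℝ)^2) ^ 8 / c + 1)) ^ 8 :=
            pow_le_pow_left₀ (by positivity) b2 8
        _ < c * 2 ^ i := n2
        _ ≤ (n:ℝ) ^ 8 := by
            have := le_trans hblow hi2
            rw [hhalf, div_le_div_iff₀ (by positivity) (by positivity)] at this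
            linarith
    have b4 := lt_of_pow_lt_pow_left₀ 8 hnR.le b3
    exact_mod_cast b4
  have hfin := hcol (j * q) hjq
  set Y : ℝ := (a:ℝ) * θ + ((j * q : ℕ) : ℝ) * ((k:ℝ) * θ) with hY
  set y : ℝ := Int.fract Y with hy
  have hbabs := abs_le.mp hi2
  rw [hhalf] at hbabs
  have h2ipos : (0:ℝ) < 1 / 2 ^ i := by positivity
  have hyb : Int.fract (Y + ((n * k : ℕ) : ℝ) * θ) = y + b := by
    have e1 : Y + ((n * k : ℕ) : ℝ) * θ = (y + b) + ((⌊Y⌋ + p : ℤ) : ℝ) := by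
      rw [hy, hb, Int.fract]
      push_cast
      ring
    rw [e1]
    have l1 : u - 1 / 2 ^ i ≥ 0 := by
      rw [hu]
      have : 0 ≤ (i0:ℝ) / (i + 1) := by positivity
      linarith
    have l2 : u + L + 1 / 2 ^ i < 1 := by
      rw [huL]
      have : (i0:ℝ) / i ≤ 1 := by rw [div_le_one (by positivity)]; exact hi0i
      linarith
    rw [Int.fract_add_intCast]
    exact Int.fract_eq_self.mpr ⟨by linarith, by linarith⟩
  rw [hyb] at hfin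
  -- both in zone i
  have z1 : ⌊(i0:ℝ) / y⌋₊ = i := by
    apply zone i0 i (by omega) hipos
    · have : u ≤ y := hy1
      rw [hu] at this
      linarith
    · have : y ≤ u + L := hy2
      rw [huL] at this
      linarith
  have hblt : (i0:ℝ) / (i + 1) < y + b := by
    have h5 : u ≤ y := hy1
    rw [hu] at h5
    linarith
  have z2 : ⌊(i0:ℝ) / (y + b)⌋₊ = i := by
    apply zone i0 i (by omega) hipos _ hblt
    have : y ≤ u + L := hy2
    rw [huL] at this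
    linarith
  have hfin2 := congrArg (fun z => (z.2 : ℕ)) hfin
  simp only [circ] at hfin2
  rw [z1, z2] at hfin2
  have hy0 : 0 ≤ y := Int.fract_nonneg _
  have hyb0 : 0 ≤ y + b := by rw [← hyb]; exact Int.fract_nonneg _
  have h2i1 : (0:ℝ) < 2 ^ (i+1) := by positivity
  refine digit ((2:ℝ) ^ (i+1) * y) ((2:ℝ) ^ (i+1) * b) (by positivity) ?_ ?_ ?_ ?_
  · rw [← mul_add]; positivity
  · rw [abs_mul, abs_of_pos h2i1]
    rw [hhalf, div_lt_iff₀ h2i1] at hi1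
    linarith
  · rw [abs_mul, abs_of_pos h2i1]
    rw [hhalf, le_div_iff₀ h2i] at hi2
    have : (2:ℝ) ^ (i+1) = 2 ^ i * 2 := pow_succ _ _
    rw [this]
    linarith
  · rw [← mul_add]
    exact hfin2

end Pool.Agent.H92.Lac
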