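import Mathlib

set_option autoImplicit false

namespace Pool.Agent.H92.Tur

open Polynomial Finset

variable {ι : Type*} [Fintype ι] [DecidableEq ι]

/-- partial product -/
noncomputable def GP (s : Finset ι) (w : ι → ℝ) : ℝ[X] := ∏ i ∈ s, (1 + C (w i) * X)

/-- first derivative bounds for a partial product -/
lemma bounds (s : Finset ι) (w : ι → ℝ) (y : ℝ) (hy0 : 0 ≤ y) (hy : y ≤ 1/6)
    (hw : ∀ i ∈ s, |w i| ≤ 1) :
    0 < (GP s w).eval y ∧
    |(derivative (GP s w)).eval y| ≤ (6/5 * ∑ i ∈ s, |w i|) * (GP s w).eval y ∧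
    |(derivative (derivative (GP s w))).eval y| ≤ (6/5 * ∑ i ∈ s, |w i|)^2 * (GP s w).eval y := by
  induction s using Finset.induction_on with
  | empty => simp [GP]
  | insert a s ha ih =>
    obtain ⟨h0, h1, h2⟩ := ih (fun i hi => hw i (Finset.mem_insert_of_mem hi))
    have hwa := hw a (Finset.mem_insert_self a s)
    set r := (GP s w).eval y with hr
    set r1 := (derivative (GP s w)).eval y with hr1
    set r2 := (derivative (derivative (GP s w))).eval y with hr2
    set v := w a with hv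
    set ρ := 6/5 * ∑ i ∈ s, |w i| with hρ
    have hρ0 : 0 ≤ ρ := by rw [hρ]; positivity
    have e : GP (insert a s) w = (1 + C v * X) * GP s w := by
      unfold GP
      rw [Finset.prod_insert ha]
    have e0 : (GP (insert a s) w).eval y = (1 + v * y) * r := by
      rw [e]; simp [hr]
    have e1 : (derivative (GP (insert a s) w)).eval y = v * r + (1 + v * y) * r1 := by
      rw [e]; simp [derivative_mul, hr, hr1]
    have e2 : (derivative (derivative (GP (insert a s) w))).eval y = 2 * v * r1 + (1 + v * y) * r2 := by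
      rw [e]; simp [derivative_mul, hr1, hr2]; ring
    have hvy : |v * y| ≤ 1/6 := by
      rw [abs_mul, abs_of_nonneg hy0]
      nlinarith [abs_nonneg v]
    have hvy' := abs_le.mp hvy
    have hf : 5/6 ≤ 1 + v * y := by linarith
    have hfp : 0 < 1 + v * y := by linarith
    have hsum : 6/5 * ∑ i ∈ insert a s, |w i| = 6/5 * |v| + ρ := by
      rw [Finset.sum_insert ha, hρ, hv]; ring
    rw [hsum, e0, e1, e2]
    have hvr : |v| ≤ 6/5 * |v| * (1 + v * y) := by nlinarith [abs_nonneg v]
    refine ⟨by positivity, ?_, ?_⟩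
    · calc |v * r + (1 + v * y) * r1| ≤ |v * r| + |(1 + v * y) * r1| := abs_add_le _ _
        _ = |v| * r + (1 + v * y) * |r1| := by
            rw [abs_mul, abs_mul, abs_of_pos h0, abs_of_pos hfp]
        _ ≤ (6/5 * |v| * (1 + v * y)) * r + (1 + v * y) * (ρ * r) := by
            gcongr
        _ = (6/5 * |v| + ρ) * ((1 + v * y) * r) := by ring
    · calc |2 * v * r1 + (1 + v * y) * r2| ≤ |2 * v * r1| + |(1 + v * y) * r2| := abs_add_le _ _
        _ = 2 * |v| * |r1| + (1 + v * y) * |r2| := by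
            rw [abs_mul, abs_mul, abs_mul, abs_of_pos hfp]; norm_num
        _ ≤ 2 * (6/5 * |v| * (1 + v * y)) * (ρ * r) + (1 + v * y) * (ρ^2 * r) := by
            gcongr
        _ ≤ (6/5 * |v| + ρ)^2 * ((1 + v * y) * r) := by
            have : 0 ≤ (6/5 * |v|)^2 * ((1 + v * y) * r) := by positivity
            nlinarith

/-- the crucial positivity -/
lemma key_pos (s : Finset ι) (w : ι → ℝ) (y : ℝ) (hy0 : 0 ≤ y) (hy : y ≤ 1/6)
    (hw : ∀ i ∈ s, |w i| ≤ 1) (hsum : ∑ i ∈ s, |w i| ≤ 2) :
    0 < (derivative (derivative (X^2 * GP s w))).eval y := by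
  obtain ⟨h0, h1, h2⟩ := bounds s w y hy0 hy hw
  have e : (derivative (derivative (X^2 * GP s w))).eval y =
      2 * (GP s w).eval y + 4 * y * (derivative (GP s w)).eval y +
        y^2 * (derivative (derivative (GP s w))).eval y := by
    simp [derivative_mul, derivative_pow]; ring
  rw [e]
  set r := (GP s w).eval y with hr
  set r1 := (derivative (GP s w)).eval y with hr1
  set r2 := (derivative (derivative (GP s w))).eval y with hr2
  set ρ := 6/5 * ∑ i ∈ s, |w i| with hρ
  have hρ0 : 0 ≤ ρ := by rw [hρ]; positivity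
  have hρ2 : ρ ≤ 12/5 := by rw [hρ]; linarith
  have a1 := (abs_le.mp h1).1
  have a2 := (abs_le.mp h2).1
  have b1 : ρ * r ≤ 12/5 * r := by gcongr
  have b2 : ρ^2 * r ≤ (12/5)^2 * r := by gcongr
  have c1 : -(12/5 * r) ≤ r1 := by linarith
  have c2 : -((12/5)^2 * r) ≤ r2 := by linarith
  have d1 : -(8/5 * r) ≤ 4 * y * r1 := by
    have : 4 * y * -(12/5 * r) ≤ 4 * y * r1 := by
      apply mul_le_mul_of_nonneg_left c1 (by positivity)
    nlinarith
  have d2 : -(4/25 * r) ≤ y^2 * r2 := by
    have h3 : y^2 * -((12/5)^2 * r) ≤ y^2 * r2 := by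
      apply mul_le_mul_of_nonneg_left c2 (by positivity)
    have h4 : y^2 ≤ 1/36 := by nlinarith
    nlinarith
  linarith

/-- second derivative functional, with sign. -/
noncomputable def F (w : ι → ℝ) (y : ℝ) : ℝ :=
  - (derivative (derivative (GP Finset.univ w))).eval y

/-- splitting off two indices. -/
lemma GP_split (w : ι → ℝ) (i j : ι) (hij : i ≠ j) :
    GP Finset.univ w = (1 + C (w i) * X) * (1 + C (w j) * X) *
      GP ((Finset.univ.erase i).erase j) w := by
  unfold GP
  rw [← Finset.mul_prod_erase Finset.univ _ (Finset.mem_univ i),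
    ← Finset.mul_prod_erase (Finset.univ.erase i) _ (Finset.mem_erase.mpr ⟨hij.symm, Finset.mem_univ j⟩)]
  ring

lemma F_swap (w w' : ι → ℝ) (y : ℝ) (i j : ι) (hij : i ≠ j) (hother : ∀ l, l ≠ i → l ≠ j → w' l = w l)
    (hs : w' i + w' j = w i + w j) :
    F w' y = F w y - (w' i * w' j - w i * w j) *
      (derivative (derivative (X^2 * GP ((Finset.univ.erase i).erase j) w))).eval y := by
  have e1 := GP_split w i j hij
  have e2 := GP_split w' i j hij
  have e3 : GP ((Finset.univ.erase i).erase j) w' = GP ((Finset.univ.erase i).erase j) w := by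
    unfold GP
    apply Finset.prod_congr rfl
    intro l hl
    rw [Finset.mem_erase, Finset.mem_erase] at hl
    rw [hother l hl.2.1 hl.1]
  rw [e3] at e2
  set R := GP ((Finset.univ.erase i).erase j) w with hR
  have e4 : GP Finset.univ w' = GP Finset.univ w + C (w' i * w' j - w i * w j) * (X^2 * R) := by
    rw [e1, e2]
    have h5 : (C (w' i) + C (w' j) : ℝ[X]) = C (w i) + C (w j) := by
      rw [← C_add, ← C_add, hs]
    have h6 : (1 + C (w' i) * X) * (1 + C (w' j) * X) =
      1 + (C (w' i) + C (w' j)) * X + C (w' i * w' j) * X^2 := by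
      rw [C_mul]; ring
    rw [h6, h5, C_sub, C_mul, C_mul]
    ring
  unfold F
  rw [e4]
  simp only [derivative_add, derivative_C_mul, eval_add, eval_C_mul]
  ring

/-- one smoothing step in a block -/
lemma step_block (w : ι → ℝ) (y : ℝ) (hy0 : 0 ≤ y) (hy : y ≤ 1/6) (hw : ∀ i, |w i| ≤ 1)
    (hsum : ∑ i, |w i| ≤ 2) (B : Finset ι) (μ : ℝ) (hB : ∑ i ∈ B, (w i - μ) = 0)
    (hne : ∃ i ∈ B, w i ≠ μ) :
    ∃ w' : ι → ℝ, (∀ l, l ∉ B → w' l = w l) ∧ ∑ i ∈ B, w' i = ∑ i ∈ B, w i ∧
      (∃ i1 ∈ B, ∃ i2 ∈ B, ∀ l ∈ B, w' l ≠ w l → w i1 ≤ w' l ∧ w' l ≤ w i2) ∧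
      (B.filter (fun l => w' l ≠ μ)).card < (B.filter (fun l => w l ≠ μ)).card ∧
      F w' y < F w y := by
  obtain ⟨i2, hi2, hi2'⟩ := Finset.exists_pos_of_sum_zero_of_exists_nonzero (fun i => w i - μ) hB
    (by obtain ⟨i, hi, h⟩ := hne; exact ⟨i, hi, sub_ne_zero.mpr h⟩)
  obtain ⟨i1, hi1, hi1'⟩ := Finset.exists_pos_of_sum_zero_of_exists_nonzero (fun i => μ - w i)
    (by
      have : ∑ i ∈ B, (μ - w i) = - ∑ i ∈ B, (w i - μ) := by
        rw [← Finset.sum_neg_distrib]; apply Finset.sum_congr rfl; intros; ring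
      rw [this, hB, neg_zero])
    (by obtain ⟨i, hi, h⟩ := hne; exact ⟨i, hi, sub_ne_zero.mpr h.symm⟩)
  simp only [sub_pos] at hi1' hi2'
  have hij : i1 ≠ i2 := by rintro rfl; linarith
  set w' : ι → ℝ := Function.update (Function.update w i1 μ) i2 (w i1 + w i2 - μ) with hw'
  have v1 : w' i1 = μ := by rw [hw', Function.update_of_ne hij, Function.update_self]
  have v2 : w' i2 = w i1 + w i2 - μ := by rw [hw', Function.update_self]
  have v3 : ∀ l, l ≠ i1 → l ≠ i2 → w' l = w l := by
    intro l h1 h2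
    rw [hw', Function.update_of_ne h2, Function.update_of_ne h1]
  refine ⟨w', ?_, ?_, ⟨i1, hi1, i2, hi2, ?_⟩, ?_, ?_⟩
  · intro l hl
    exact v3 l (by rintro rfl; exact hl hi1) (by rintro rfl; exact hl hi2)
  · rw [← Finset.add_sum_erase B w' hi1, ← Finset.add_sum_erase B w hi1,
      ← Finset.add_sum_erase (B.erase i1) w' (Finset.mem_erase.mpr ⟨hij.symm, hi2⟩),
      ← Finset.add_sum_erase (B.erase i1) w (Finset.mem_erase.mpr ⟨hij.symm, hi2⟩), v1, v2]
    have : ∑ x ∈ (B.erase i1).erase i2, w' x = ∑ x ∈ (B.erase i1).erase i2, w x := by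
      apply Finset.sum_congr rfl
      intro l hl
      rw [Finset.mem_erase, Finset.mem_erase] at hl
      exact v3 l hl.2.1 hl.1
    rw [this]
    ring
  · intro l hl hne'
    by_cases h1 : l = i1
    · subst h1; rw [v1]; constructor <;> linarith
    · by_cases h2 : l = i2
      · subst h2; rw [v2]; constructor <;> linarith
      · exact absurd (v3 l h1 h2) hne'
  · apply Finset.card_lt_card
    rw [Finset.ssubset_iff_of_subset]
    · exact ⟨i1, by simp [hi1, ne_of_lt hi1'], by simp [v1]⟩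
    · intro l hl
      rw [Finset.mem_filter] at hl ⊢
      refine ⟨hl.1, ?_⟩
      by_cases h1 : l = i1
      · subst h1; exact ne_of_lt hi1'
      · by_cases h2 : l = i2
        · subst h2; exact ne_of_gt hi2'
        · rw [← v3 l h1 h2]; exact hl.2
  · rw [F_swap w w' y i1 i2 hij v3 (by rw [v1, v2]; ring), v1, v2]
    have hk := key_pos ((Finset.univ.erase i1).erase i2) w y hy0 hy (fun i _ => hw i)
      (le_trans (Finset.sum_le_sum_of_subset_of_nonneg (Finset.subset_univ _)
        (fun i _ _ => abs_nonneg _)) hsum)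
    have hp : 0 < μ * (w i1 + w i2 - μ) - w i1 * w i2 := by nlinarith
    have := mul_pos hp hk
    linarith

end Pool.Agent.H92.Tur
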