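import Mathlib
import Pool.Agent.H92.Tur1

set_option autoImplicit false

namespace Pool.Agent.H92.Tur

open Polynomial Finset

variable {ι : Type*} [Fintype ι] [DecidableEq ι]

/-- the balanced configuration -/
noncomputable def wbar (I : Finset ι) : ι → ℝ :=
  fun i => if i ∈ I then 1 / (I.card : ℝ) else - (1 / (Iᶜ.card : ℝ))

lemma abs_bounds (I : Finset ι) (w : ι → ℝ) (h1 : ∀ i ∈ I, 0 ≤ w i) (h2 : ∀ i ∈ Iᶜ, w i ≤ 0)
    (h3 : ∑ i ∈ I, w i = 1) (h4 : ∑ i ∈ Iᶜ, w i = -1) :
    (∀ i, |w i| ≤ 1) ∧ ∑ i, |w i| ≤ 2 := by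
  have e1 : ∑ i ∈ I, |w i| = 1 := by
    rw [← h3]; exact Finset.sum_congr rfl (fun i hi => abs_of_nonneg (h1 i hi))
  have e2 : ∑ i ∈ Iᶜ, |w i| = 1 := by
    have : ∑ i ∈ Iᶜ, |w i| = ∑ i ∈ Iᶜ, - w i :=
      Finset.sum_congr rfl (fun i hi => abs_of_nonpos (h2 i hi))
    rw [this, Finset.sum_neg_distrib, h4, neg_neg]
  constructor
  · intro i
    by_cases hi : i ∈ I
    · rw [← e1]
      exact Finset.single_le_sum (f := fun i => |w i|) (fun i _ => abs_nonneg _) hi
    · rw [← e2]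
      exact Finset.single_le_sum (f := fun i => |w i|) (fun i _ => abs_nonneg _)
        (Finset.mem_compl.mpr hi)
  · rw [← Finset.sum_add_sum_compl I, e1, e2]; norm_num

theorem smooth (I : Finset ι) (y : ℝ) (hy0 : 0 ≤ y) (hy : y ≤ 1/6) :
    ∀ (N : ℕ) (w : ι → ℝ), (∀ i ∈ I, 0 ≤ w i) → (∀ i ∈ Iᶜ, w i ≤ 0) →
    ∑ i ∈ I, w i = 1 → ∑ i ∈ Iᶜ, w i = -1 →
    (I.filter (fun l => w l ≠ 1 / (I.card : ℝ))).card +
      (Iᶜ.filter (fun l => w l ≠ - (1 / (Iᶜ.card : ℝ)))).card ≤ N →
    F (wbar I) y ≤ F w y ∧ (F (wbar I) y = F w y → w = wbar I) := by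
  intro N
  induction N with
  | zero =>
    intro w h1 h2 h3 h4 hN
    have hN' := Nat.le_zero.mp hN
    rw [Nat.add_eq_zero_iff] at hN'
    obtain ⟨n1, n2⟩ := hN'
    rw [Finset.card_eq_zero, Finset.filter_eq_empty_iff] at n1 n2
    have : w = wbar I := by
      funext i
      unfold wbar
      split_ifs with hi
      · exact not_not.mp (n1 hi)
      · exact not_not.mp (n2 (Finset.mem_compl.mpr hi))
    rw [this]
    exact ⟨le_rfl, fun _ => rfl⟩
  | succ N ih =>
    intro w h1 h2 h3 h4 hN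
    obtain ⟨ha, hb⟩ := abs_bounds I w h1 h2 h3 h4
    have hIc : (I.card : ℝ) ≠ 0 := by
      have : I.card ≠ 0 := by
        intro h
        rw [Finset.card_eq_zero] at h
        rw [h] at h3; simp at h3
      exact_mod_cast this
    have hJc : (Iᶜ.card : ℝ) ≠ 0 := by
      have : Iᶜ.card ≠ 0 := by
        intro h
        rw [Finset.card_eq_zero] at h
        rw [h] at h4; simp at h4
      exact_mod_cast this
    by_cases hc1 : ∃ i ∈ I, w i ≠ 1 / (I.card : ℝ)
    · obtain ⟨w', p1, p2, ⟨i1, hi1, i2, hi2, p3⟩, p4, p5⟩ := step_block w y hy0 hy ha hb I (1 / (I.card : ℝ))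
        (by rw [Finset.sum_sub_distrib, h3, Finset.sum_const, nsmul_eq_mul]; field_simp; ring) hc1
      have q1 : ∀ i ∈ I, 0 ≤ w' i := by
        intro l hl
        by_cases h : w' l = w l
        · rw [h]; exact h1 l hl
        · exact le_trans (h1 i1 hi1) (p3 l hl h).1
      have q2 : ∀ i ∈ Iᶜ, w' i = w i := fun l hl => p1 l (Finset.mem_compl.mp hl)
      have q3 : ∑ i ∈ I, w' i = 1 := by rw [p2, h3]
      have q4 : ∑ i ∈ Iᶜ, w' i = -1 := by rw [← h4]; exact Finset.sum_congr rfl q2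
      have q5 : (Iᶜ.filter (fun l => w' l ≠ - (1 / (Iᶜ.card : ℝ)))).card =
          (Iᶜ.filter (fun l => w l ≠ - (1 / (Iᶜ.card : ℝ)))).card := by
        congr 1
        apply Finset.filter_congr
        intro l hl
        rw [q2 l hl]
      obtain ⟨r1, r2⟩ := ih w' q1 (fun i hi => by rw [q2 i hi]; exact h2 i hi) q3 q4 (by omega)
      exact ⟨le_trans r1 p5.le, fun h => absurd h (ne_of_lt (lt_of_le_of_lt r1 p5))⟩
    · by_cases hc2 : ∃ i ∈ Iᶜ, w i ≠ - (1 / (Iᶜ.card : ℝ))
      · obtain ⟨w', p1, p2, ⟨i1, hi1, i2, hi2, p3⟩, p4, p5⟩ := step_block w y hy0 hy ha hb Iᶜ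
          (-(1 / (Iᶜ.card : ℝ)))
          (by rw [Finset.sum_sub_distrib, h4, Finset.sum_const, nsmul_eq_mul]; field_simp; ring) hc2
        have q1 : ∀ i ∈ Iᶜ, w' i ≤ 0 := by
          intro l hl
          by_cases h : w' l = w l
          · rw [h]; exact h2 l hl
          · exact le_trans (p3 l hl h).2 (h2 i2 hi2)
        have q2 : ∀ i ∈ I, w' i = w i := fun l hl => p1 l (by simpa using hl)
        have q3 : ∑ i ∈ Iᶜ, w' i = -1 := by rw [p2, h4]
        have q4 : ∑ i ∈ I, w' i = 1 := by rw [← h3]; exact Finset.sum_congr rfl q2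
        have q5 : (I.filter (fun l => w' l ≠ 1 / (I.card : ℝ))).card =
            (I.filter (fun l => w l ≠ 1 / (I.card : ℝ))).card := by
          congr 1
          apply Finset.filter_congr
          intro l hl
          rw [q2 l hl]
        obtain ⟨r1, r2⟩ := ih w' (fun i hi => by rw [q2 i hi]; exact h1 i hi) q1 q4 q3 (by omega)
        exact ⟨le_trans r1 p5.le, fun h => absurd h (ne_of_lt (lt_of_le_of_lt r1 p5))⟩
      · push Not at hc1 hc2
        have : w = wbar I := by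
          funext i
          unfold wbar
          split_ifs with hi
          · exact hc1 i hi
          · exact hc2 i (Finset.mem_compl.mpr hi)
        rw [this]
        exact ⟨le_rfl, fun _ => rfl⟩

/-- the comparison polynomial -/
noncomputable def q (a b : ℕ) : ℝ[X] := (1 + C (1 / (a:ℝ)) * X) ^ a * (1 - C (1 / (b:ℝ)) * X) ^ b

lemma GP_wbar (I : Finset ι) : GP Finset.univ (wbar I) = q I.card Iᶜ.card := by
  unfold GP q
  rw [← Finset.prod_mul_prod_compl I]
  congr 1
  · rw [← Finset.prod_const]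
    apply Finset.prod_congr rfl
    intro i hi
    simp [wbar, hi]
  · rw [← Finset.prod_const]
    apply Finset.prod_congr rfl
    intro i hi
    have : i ∉ I := Finset.mem_compl.mp hi
    simp only [wbar, this, if_false]
    rw [C_neg]; ring

end Pool.Agent.H92.Tur
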