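import Mathlib

set_option autoImplicit false

namespace Pool.Agent.H92.Tur

lemma poly3_0 (y : ℝ) (h1 : (-4) ≤ y) (h2 : y ≤ (-9/4)) : (4+y)^2*(3-y)*(y^2-2) ≤ 96 := by
  have ha : 0 ≤ y - (-4) := by linarith
  have hb : 0 ≤ (-9/4) - y := by linarith
  have key : (96 - (4+y)^2*(3-y)*(y^2-2)) * (7/4)^5 = (96) * ((y - (-4))^0 * ((-9/4) - y)^5) + (480) * ((y - (-4))^1 * ((-9/4) - y)^4) + (5279/8) * ((y - (-4))^2 * ((-9/4) - y)^3) + (13913/32) * ((y - (-4))^3 * ((-9/4) - y)^2) + (48449/256) * ((y - (-4))^4 * ((-9/4) - y)^1) + (47883/1024) * ((y - (-4))^5 * ((-9/4) - y)^0) := by ring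
  have hpos : 0 ≤ (96 - (4+y)^2*(3-y)*(y^2-2)) * ((7/4):ℝ)^5 := by
    rw [key]
    generalize y - (-4) = α at ha ⊢
    generalize (-9/4) - y = β at hb ⊢
    positivity
  have hh : (0:ℝ) < (7/4)^5 := by positivity
  nlinarith [nonneg_of_mul_nonneg_left hpos hh]

lemma poly3_1 (y : ℝ) (h1 : (-9/4) ≤ y) (h2 : y ≤ (-1/2)) : (4+y)^2*(3-y)*(y^2-2) ≤ 96 := by
  have ha : 0 ≤ y - (-9/4) := by linarith
  have hb : 0 ≤ (-1/2) - y := by linarith
  have key : (96 - (4+y)^2*(3-y)*(y^2-2)) * (7/4)^5 = (47883/1024) * ((y - (-9/4))^0 * ((-1/2) - y)^5) + (142517/512) * ((y - (-9/4))^1 * ((-1/2) - y)^4) + (101271/128) * ((y - (-9/4))^2 * ((-1/2) - y)^3) + (73445/64) * ((y - (-9/4))^3 * ((-1/2) - y)^2) + (47527/64) * ((y - (-9/4))^4 * ((-1/2) - y)^1) + (5473/32) * ((y - (-9/4))^5 * ((-1/2) - y)^0) := by ring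
  have hpos : 0 ≤ (96 - (4+y)^2*(3-y)*(y^2-2)) * ((7/4):ℝ)^5 := by
    rw [key]
    generalize y - (-9/4) = α at ha ⊢
    generalize (-1/2) - y = β at hb ⊢
    positivity
  have hh : (0:ℝ) < (7/4)^5 := by positivity
  nlinarith [nonneg_of_mul_nonneg_left hpos hh]

lemma poly3_2 (y : ℝ) (h1 : (-1/2) ≤ y) (h2 : y ≤ (5/4)) : (4+y)^2*(3-y)*(y^2-2) ≤ 96 := by
  have ha : 0 ≤ y - (-1/2) := by linarith
  have hb : 0 ≤ (5/4) - y := by linarith
  have key : (96 - (4+y)^2*(3-y)*(y^2-2)) * (7/4)^5 = (5473/32) * ((y - (-1/2))^0 * ((5/4) - y)^5) + (61933/64) * ((y - (-1/2))^1 * ((5/4) - y)^4) + (131069/64) * ((y - (-1/2))^2 * ((5/4) - y)^3) + (250133/128) * ((y - (-1/2))^3 * ((5/4) - y)^2) + (411429/512) * ((y - (-1/2))^4 * ((5/4) - y)^1) + (119913/1024) * ((y - (-1/2))^5 * ((5/4) - y)^0) := by ring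
  have hpos : 0 ≤ (96 - (4+y)^2*(3-y)*(y^2-2)) * ((7/4):ℝ)^5 := by
    rw [key]
    generalize y - (-1/2) = α at ha ⊢
    generalize (5/4) - y = β at hb ⊢
    positivity
  have hh : (0:ℝ) < (7/4)^5 := by positivity
  nlinarith [nonneg_of_mul_nonneg_left hpos hh]

lemma poly3_3 (y : ℝ) (h1 : (5/4) ≤ y) (h2 : y ≤ (17/8)) : (4+y)^2*(3-y)*(y^2-2) ≤ 96 := by
  have ha : 0 ≤ y - (5/4) := by linarith
  have hb : 0 ≤ (17/8) - y := by linarith
  have key : (96 - (4+y)^2*(3-y)*(y^2-2)) * (7/8)^5 = (119913/1024) * ((y - (5/4))^0 * ((17/8) - y)^5) + (975837/2048) * ((y - (5/4))^1 * ((17/8) - y)^4) + (1459469/2048) * ((y - (5/4))^2 * ((17/8) - y)^3) + (1927325/4096) * ((y - (5/4))^3 * ((17/8) - y)^2) + (2133133/16384) * ((y - (5/4))^4 * ((17/8) - y)^1) + (439801/32768) * ((y - (5/4))^5 * ((17/8) - y)^0) := by ring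
  have hpos : 0 ≤ (96 - (4+y)^2*(3-y)*(y^2-2)) * ((7/8):ℝ)^5 := by
    rw [key]
    generalize y - (5/4) = α at ha ⊢
    generalize (17/8) - y = β at hb ⊢
    positivity
  have hh : (0:ℝ) < (7/8)^5 := by positivity
  nlinarith [nonneg_of_mul_nonneg_left hpos hh]

lemma poly3_4 (y : ℝ) (h1 : (17/8) ≤ y) (h2 : y ≤ (41/16)) : (4+y)^2*(3-y)*(y^2-2) ≤ 96 := by
  have ha : 0 ≤ y - (17/8) := by linarith
  have hb : 0 ≤ (41/16) - y := by linarith
  have key : (96 - (4+y)^2*(3-y)*(y^2-2)) * (7/16)^5 = (439801/32768) * ((y - (17/8))^0 * ((41/16) - y)^5) + (2330749/65536) * ((y - (17/8))^1 * ((41/16) - y)^4) + (1902749/65536) * ((y - (17/8))^2 * ((41/16) - y)^3) + (1891901/131072) * ((y - (17/8))^3 * ((41/16) - y)^2) + (9169245/524288) * ((y - (17/8))^4 * ((41/16) - y)^1) + (10445721/1048576) * ((y - (17/8))^5 * ((41/16) - y)^0) := by ring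
  have hpos : 0 ≤ (96 - (4+y)^2*(3-y)*(y^2-2)) * ((7/16):ℝ)^5 := by
    rw [key]
    generalize y - (17/8) = α at ha ⊢
    generalize (41/16) - y = β at hb ⊢
    positivity
  have hh : (0:ℝ) < (7/16)^5 := by positivity
  nlinarith [nonneg_of_mul_nonneg_left hpos hh]

lemma poly3_5 (y : ℝ) (h1 : (41/16) ≤ y) (h2 : y ≤ (3)) : (4+y)^2*(3-y)*(y^2-2) ≤ 96 := by
  have ha : 0 ≤ y - (41/16) := by linarith
  have hb : 0 ≤ (3) - y := by linarith
  have key : (96 - (4+y)^2*(3-y)*(y^2-2)) * (7/16)^5 = (10445721/1048576) * ((y - (41/16))^0 * ((3) - y)^5) + (1345605/16384) * ((y - (41/16))^1 * ((3) - y)^4) + (279547/1024) * ((y - (41/16))^2 * ((3) - y)^3) + (13913/32) * ((y - (41/16))^3 * ((3) - y)^2) + (5279/16) * ((y - (41/16))^4 * ((3) - y)^1) + (96) * ((y - (41/16))^5 * ((3) - y)^0) := by ring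
  have hpos : 0 ≤ (96 - (4+y)^2*(3-y)*(y^2-2)) * ((7/16):ℝ)^5 := by
    rw [key]
    generalize y - (41/16) = α at ha ⊢
    generalize (3) - y = β at hb ⊢
    positivity
  have hh : (0:ℝ) < (7/16)^5 := by positivity
  nlinarith [nonneg_of_mul_nonneg_left hpos hh]

lemma poly3 (y : ℝ) (h1 : (-4) ≤ y) (h2 : y ≤ (3)) : (4+y)^2*(3-y)*(y^2-2) ≤ 96 := by
  rcases le_total y (-9/4) with h | h
  · exact poly3_0 y (by assumption) (by assumption)
  rcases le_total y (-1/2) with h | h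
  · exact poly3_1 y (by assumption) (by assumption)
  rcases le_total y (5/4) with h | h
  · exact poly3_2 y (by assumption) (by assumption)
  rcases le_total y (17/8) with h | h
  · exact poly3_3 y (by assumption) (by assumption)
  rcases le_total y (41/16) with h | h
  · exact poly3_4 y (by assumption) (by assumption)
  exact poly3_5 y (by assumption) (by assumption)

lemma poly4_0 (y : ℝ) (h1 : (-5) ≤ y) (h2 : y ≤ (-1/2)) : (5+y)^3*(4-y)^2*(2*y^2-5) ≤ 10000 := by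
  have ha : 0 ≤ y - (-5) := by linarith
  have hb : 0 ≤ (-1/2) - y := by linarith
  have key : (10000 - (5+y)^3*(4-y)^2*(2*y^2-5)) * (9/2)^7 = (10000) * ((y - (-5))^0 * ((-1/2) - y)^7) + (70000) * ((y - (-5))^1 * ((-1/2) - y)^6) + (210000) * ((y - (-5))^2 * ((-1/2) - y)^5) + (142795/8) * ((y - (-5))^3 * ((-1/2) - y)^4) + (142795/8) * ((y - (-5))^4 * ((-1/2) - y)^3) + (5125677/32) * ((y - (-5))^5 * ((-1/2) - y)^2) + (1651441/16) * ((y - (-5))^6 * ((-1/2) - y)^1) + (1171441/64) * ((y - (-5))^7 * ((-1/2) - y)^0) := by ring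
  have hpos : 0 ≤ (10000 - (5+y)^3*(4-y)^2*(2*y^2-5)) * ((9/2):ℝ)^7 := by
    rw [key]
    generalize y - (-5) = α at ha ⊢
    generalize (-1/2) - y = β at hb ⊢
    positivity
  have hh : (0:ℝ) < (9/2)^7 := by positivity
  nlinarith [nonneg_of_mul_nonneg_left hpos hh]

lemma poly4_1 (y : ℝ) (h1 : (-1/2) ≤ y) (h2 : y ≤ (7/4)) : (5+y)^3*(4-y)^2*(2*y^2-5) ≤ 10000 := by
  have ha : 0 ≤ y - (-1/2) := by linarith
  have hb : 0 ≤ (7/4) - y := by linarith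
  have key : (10000 - (5+y)^3*(4-y)^2*(2*y^2-5)) * (9/4)^7 = (1171441/64) * ((y - (-1/2))^0 * ((7/4) - y)^7) + (17994497/128) * ((y - (-1/2))^1 * ((7/4) - y)^6) + (112749951/256) * ((y - (-1/2))^2 * ((7/4) - y)^5) + (367861555/512) * ((y - (-1/2))^3 * ((7/4) - y)^4) + (663978575/1024) * ((y - (-1/2))^4 * ((7/4) - y)^3) + (654879543/2048) * ((y - (-1/2))^5 * ((7/4) - y)^2) + (329766721/4096) * ((y - (-1/2))^6 * ((7/4) - y)^1) + (67571093/8192) * ((y - (-1/2))^7 * ((7/4) - y)^0) := by ring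
  have hpos : 0 ≤ (10000 - (5+y)^3*(4-y)^2*(2*y^2-5)) * ((9/4):ℝ)^7 := by
    rw [key]
    generalize y - (-1/2) = α at ha ⊢
    generalize (7/4) - y = β at hb ⊢
    positivity
  have hh : (0:ℝ) < (9/4)^7 := by positivity
  nlinarith [nonneg_of_mul_nonneg_left hpos hh]

lemma poly4_2 (y : ℝ) (h1 : (7/4) ≤ y) (h2 : y ≤ (4)) : (5+y)^3*(4-y)^2*(2*y^2-5) ≤ 10000 := by
  have ha : 0 ≤ y - (7/4) := by linarith
  have hb : 0 ≤ (4) - y := by linarith
  have key : (10000 - (5+y)^3*(4-y)^2*(2*y^2-5)) * (9/4)^7 = (67571093/8192) * ((y - (7/4))^0 * ((4) - y)^7) + (71615465/2048) * ((y - (7/4))^1 * ((4) - y)^6) + (47636085/1024) * ((y - (7/4))^2 * ((4) - y)^5) + (7226645/256) * ((y - (7/4))^3 * ((4) - y)^4) + (3799565/64) * ((y - (7/4))^4 * ((4) - y)^3) + (1765677/16) * ((y - (7/4))^5 * ((4) - y)^2) + (70000) * ((y - (7/4))^6 * ((4) - y)^1) + (10000) * ((y - (7/4))^7 * ((4) - y)^0) := by ring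
  have hpos : 0 ≤ (10000 - (5+y)^3*(4-y)^2*(2*y^2-5)) * ((9/4):ℝ)^7 := by
    rw [key]
    generalize y - (7/4) = α at ha ⊢
    generalize (4) - y = β at hb ⊢
    positivity
  have hh : (0:ℝ) < (9/4)^7 := by positivity
  nlinarith [nonneg_of_mul_nonneg_left hpos hh]

lemma poly4 (y : ℝ) (h1 : (-5) ≤ y) (h2 : y ≤ (4)) : (5+y)^3*(4-y)^2*(2*y^2-5) ≤ 10000 := by
  rcases le_total y (-1/2) with h | h
  · exact poly4_0 y (by assumption) (by assumption)
  rcases le_total y (7/4) with h | h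
  · exact poly4_1 y (by assumption) (by assumption)
  exact poly4_2 y (by assumption) (by assumption)

lemma poly5_0 (y : ℝ) (h1 : (-6) ≤ y) (h2 : y ≤ (-1/2)) : (6+y)^4*(5-y)^3*(y^2-3) ≤ 486000 := by
  have ha : 0 ≤ y - (-6) := by linarith
  have hb : 0 ≤ (-1/2) - y := by linarith
  have key : (486000 - (6+y)^4*(5-y)^3*(y^2-3)) * (11/2)^9 = (486000) * ((y - (-6))^0 * ((-1/2) - y)^9) + (4374000) * ((y - (-6))^1 * ((-1/2) - y)^8) + (17496000) * ((y - (-6))^2 * ((-1/2) - y)^7) + (40824000) * ((y - (-6))^3 * ((-1/2) - y)^6) + (336699357/16) * ((y - (-6))^4 * ((-1/2) - y)^5) + (30322071/32) * ((y - (-6))^5 * ((-1/2) - y)^4) + (112233119/8) * ((y - (-6))^6 * ((-1/2) - y)^3) + (17496000) * ((y - (-6))^7 * ((-1/2) - y)^2) + (1762820643/256) * ((y - (-6))^8 * ((-1/2) - y)^1) + (463190881/512) * ((y - (-6))^9 * ((-1/2) - y)^0) := by ring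
  have hpos : 0 ≤ (486000 - (6+y)^4*(5-y)^3*(y^2-3)) * ((11/2):ℝ)^9 := by
    rw [key]
    generalize y - (-6) = α at ha ⊢
    generalize (-1/2) - y = β at hb ⊢
    positivity
  have hh : (0:ℝ) < (11/2)^9 := by positivity
  nlinarith [nonneg_of_mul_nonneg_left hpos hh]

lemma poly5_1 (y : ℝ) (h1 : (-1/2) ≤ y) (h2 : y ≤ (9/4)) : (6+y)^4*(5-y)^3*(y^2-3) ≤ 486000 := by
  have ha : 0 ≤ y - (-1/2) := by linarith
  have hb : 0 ≤ (9/4) - y := by linarith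
  have key : (486000 - (6+y)^4*(5-y)^3*(y^2-3)) * (11/4)^9 = (463190881/512) * ((y - (-1/2))^0 * ((9/4) - y)^9) + (8980512501/1024) * ((y - (-1/2))^1 * ((9/4) - y)^8) + (18604101645/512) * ((y - (-1/2))^2 * ((9/4) - y)^7) + (85747346605/1024) * ((y - (-1/2))^3 * ((9/4) - y)^6) + (480401017551/4096) * ((y - (-1/2))^4 * ((9/4) - y)^5) + (841832856147/8192) * ((y - (-1/2))^5 * ((9/4) - y)^4) + (459830153385/8192) * ((y - (-1/2))^6 * ((9/4) - y)^3) + (304017533361/16384) * ((y - (-1/2))^7 * ((9/4) - y)^2) + (451767442473/131072) * ((y - (-1/2))^8 * ((9/4) - y)^1) + (75312775917/262144) * ((y - (-1/2))^9 * ((9/4) - y)^0) := by ring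
  have hpos : 0 ≤ (486000 - (6+y)^4*(5-y)^3*(y^2-3)) * ((11/4):ℝ)^9 := by
    rw [key]
    generalize y - (-1/2) = α at ha ⊢
    generalize (9/4) - y = β at hb ⊢
    positivity
  have hh : (0:ℝ) < (11/4)^9 := by positivity
  nlinarith [nonneg_of_mul_nonneg_left hpos hh]

lemma poly5_2 (y : ℝ) (h1 : (9/4) ≤ y) (h2 : y ≤ (5)) : (6+y)^4*(5-y)^3*(y^2-3) ≤ 486000 := by
  have ha : 0 ≤ y - (9/4) := by linarith
  have hb : 0 ≤ (5) - y := by linarith
  have key : (486000 - (6+y)^4*(5-y)^3*(y^2-3)) * (11/4)^9 = (75312775917/262144) * ((y - (9/4))^0 * ((5) - y)^9) + (56511885195/32768) * ((y - (9/4))^1 * ((5) - y)^8) + (19574407917/4096) * ((y - (9/4))^2 * ((5) - y)^7) + (683506071/64) * ((y - (9/4))^3 * ((5) - y)^6) + (23477988777/1024) * ((y - (9/4))^4 * ((5) - y)^5) + (4622824785/128) * ((y - (9/4))^5 * ((5) - y)^4) + (1092009119/32) * ((y - (9/4))^6 * ((5) - y)^3) + (17496000) * ((y - (9/4))^7 *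 ((5) - y)^2) + (4374000) * ((y - (9/4))^8 * ((5) - y)^1) + (486000) * ((y - (9/4))^9 * ((5) - y)^0) := by ring
  have hpos : 0 ≤ (486000 - (6+y)^4*(5-y)^3*(y^2-3)) * ((11/4):ℝ)^9 := by
    rw [key]
    generalize y - (9/4) = α at ha ⊢
    generalize (5) - y = β at hb ⊢
    positivity
  have hh : (0:ℝ) < (11/4)^9 := by positivity
  nlinarith [nonneg_of_mul_nonneg_left hpos hh]

lemma poly5 (y : ℝ) (h1 : (-6) ≤ y) (h2 : y ≤ (5)) : (6+y)^4*(5-y)^3*(y^2-3) ≤ 486000 := by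
  rcases le_total y (-1/2) with h | h
  · exact poly5_0 y (by assumption) (by assumption)
  rcases le_total y (9/4) with h | h
  · exact poly5_1 y (by assumption) (by assumption)
  exact poly5_2 y (by assumption) (by assumption)

end Pool.Agent.H92.Tur
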