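import Mathlib
import Pool.Agent.H92.Tur3

set_option autoImplicit false

namespace Pool.Agent.H92.Tur

open Real

/-- normalised second derivative of the comparison polynomial, with `a = m+1`, `b = m`. -/
noncomputable def Psi (m : ℕ) (y : ℝ) : ℝ :=
  (1 + y / (m + 1)) ^ (m - 1) * (1 - y / m) ^ (m - 2) * (1 - 2 * y ^ 2 / (m + 1))

lemma pow_le_exp_mul (u : ℝ) (hu : 0 ≤ 1 + u) (k : ℕ) : (1 + u) ^ k ≤ exp (k * u) := by
  have h1 : 1 + u ≤ exp u := by linarith [add_one_le_exp u]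
  calc (1 + u) ^ k ≤ (exp u) ^ k := pow_le_pow_left₀ hu h1 k
    _ = exp (k * u) := by rw [← exp_nat_mul]

section
variable (m : ℕ) (hm : 3 ≤ m) (y : ℝ) (h1 : -((m:ℝ) + 1) ≤ y) (h2 : y ≤ m)
include hm h1 h2

lemma fac1 : 0 ≤ 1 + y / ((m:ℝ) + 1) := by
  have : (0:ℝ) < (m:ℝ) + 1 := by positivity
  have h : -1 ≤ y / ((m:ℝ) + 1) := by rw [le_div_iff₀ this]; linarith
  linarith

lemma fac2 : 0 ≤ 1 - y / (m:ℝ) := by
  have hm0 : (0:ℝ) < m := by have : 0 < m := by omega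
                             exact_mod_cast this
  have h : y / (m:ℝ) ≤ 1 := by rw [div_le_one hm0]; exact h2
  linarith

/-- `Ψ ≤ exp(ε y) (1 - κ y²)₊` -/
lemma prod_le_exp : (1 + y / ((m:ℝ) + 1)) ^ (m - 1) * (1 - y / (m:ℝ)) ^ (m - 2) ≤
    exp (2 / ((m:ℝ) * (m + 1)) * y) := by
  have f1 := fac1 m hm y h1 h2
  have f2 := fac2 m hm y h1 h2
  have hm0 : (0:ℝ) < m := by have : 0 < m := by omega
                             exact_mod_cast this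
  have e1 := pow_le_exp_mul (y / ((m:ℝ) + 1)) f1 (m - 1)
  have e2 := pow_le_exp_mul (-(y / (m:ℝ))) (by linarith) (m - 2)
  rw [← sub_eq_add_neg] at e2
  calc _ ≤ exp (((m - 1 : ℕ) : ℝ) * (y / ((m:ℝ) + 1))) * exp (((m - 2 : ℕ) : ℝ) * (-(y / (m:ℝ)))) := by
        gcongr
    _ = exp (2 / ((m:ℝ) * (m + 1)) * y) := by
        rw [← exp_add]
        congr 1
        rw [Nat.cast_sub (by omega), Nat.cast_sub (by omega)]
        push_cast
        field_simp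
        ring

lemma prod_nonneg' : 0 ≤ (1 + y / ((m:ℝ) + 1)) ^ (m - 1) * (1 - y / (m:ℝ)) ^ (m - 2) := by
  have f1 := fac1 m hm y h1 h2
  have f2 := fac2 m hm y h1 h2
  positivity

/-- second bound for the product, with Gaussian decay -/
lemma prod_le_exp2 : (1 + y / ((m:ℝ) + 1)) ^ (m - 1) * (1 - y / (m:ℝ)) ^ (m - 2) ≤
    exp (2 * y / ((m:ℝ) * (m + 1)) - (1 - 2 / (m:ℝ)) * (y ^ 2 / (m + 1))) := by
  have f1 := fac1 m hm y h1 h2
  have f2 := fac2 m hm y h1 h2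
  have hm0 : (0:ℝ) < m := by have : 0 < m := by omega
                             exact_mod_cast this
  have e : (1 + y / ((m:ℝ) + 1)) ^ (m - 1) * (1 - y / (m:ℝ)) ^ (m - 2) =
      (1 + y / ((m:ℝ) + 1)) * ((1 + y / ((m:ℝ) + 1)) * (1 - y / (m:ℝ))) ^ (m - 2) := by
    rw [mul_pow, ← mul_assoc, ← pow_succ']
    congr 3
    omega
  have e' : (1 + y / ((m:ℝ) + 1)) * (1 - y / (m:ℝ)) = 1 + (-((y + y^2) / ((m:ℝ) * (m + 1)))) := by
    field_simp
    ring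
  rw [e, e']
  have g1 : 1 + y / ((m:ℝ) + 1) ≤ exp (y / ((m:ℝ) + 1)) := by
    linarith [add_one_le_exp (y / ((m:ℝ) + 1))]
  have g2 := pow_le_exp_mul (-((y + y^2) / ((m:ℝ) * (m + 1)))) (by rw [← e']; positivity) (m - 2)
  calc _ ≤ exp (y / ((m:ℝ) + 1)) * exp (((m - 2 : ℕ) : ℝ) * (-((y + y^2) / ((m:ℝ) * (m + 1))))) := by
        have : 0 ≤ (1 + (-((y + y^2) / ((m:ℝ) * (m + 1))))) ^ (m - 2) := by
          apply pow_nonneg; rw [← e']; positivity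
        gcongr
    _ = _ := by
        rw [← exp_add]
        congr 1
        rw [Nat.cast_sub (by omega)]
        push_cast
        field_simp
        ring

end

/-- `Ψ ≤ 1` for nonpositive `y` with `κ y² ≤ 1`. -/
lemma Psi_le_one_neg (m : ℕ) (hm : 3 ≤ m) (y : ℝ) (h1 : -((m:ℝ) + 1) ≤ y) (h2 : y ≤ 0)
    (h3 : 2 * y ^ 2 ≤ m + 1) : 0 ≤ Psi m y ∧ Psi m y ≤ 1 := by
  have hm0 : (0:ℝ) < m := by have : 0 < m := by omega
                             exact_mod_cast this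
  have hy2 : y ≤ m := by linarith
  have k1 := prod_le_exp m hm y h1 hy2
  have k2 := prod_nonneg' m hm y h1 hy2
  have k3 : exp (2 / ((m:ℝ) * (m + 1)) * y) ≤ 1 := by
    rw [exp_le_one_iff]
    apply mul_nonpos_of_nonneg_of_nonpos (by positivity) h2
  have k4 : 0 ≤ 1 - 2 * y ^ 2 / ((m:ℝ) + 1) := by
    have : 2 * y ^ 2 / ((m:ℝ) + 1) ≤ 1 := by rw [div_le_one (by positivity)]; exact h3
    linarith
  have k5 : 1 - 2 * y ^ 2 / ((m:ℝ) + 1) ≤ 1 := by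
    have : 0 ≤ 2 * y ^ 2 / ((m:ℝ) + 1) := by positivity
    linarith
  unfold Psi
  constructor
  · exact mul_nonneg k2 k4
  · exact le_trans (mul_le_mul (le_trans k1 k3) k5 k4 (by norm_num)) (by norm_num)

lemma Psi_nonneg (m : ℕ) (hm : 3 ≤ m) (y : ℝ) (h1 : -((m:ℝ) + 1) ≤ y) (h2 : y ≤ m)
    (h3 : 2 * y ^ 2 ≤ m + 1) : 0 ≤ Psi m y := by
  have k2 := prod_nonneg' m hm y h1 h2
  have k4 : 0 ≤ 1 - 2 * y ^ 2 / ((m:ℝ) + 1) := by
    have : 2 * y ^ 2 / ((m:ℝ) + 1) ≤ 1 := by rw [div_le_one (by positivity)]; exact h3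
    linarith
  unfold Psi
  exact mul_nonneg k2 k4

/-- decay to the right of `1/(2m)`. -/
lemma Psi_le_right (m : ℕ) (hm : 3 ≤ m) (y : ℝ) (h1 : 1 / (2 * (m:ℝ)) ≤ y) (h2 : y ≤ m)
    (h3 : 2 * y ^ 2 ≤ m + 1) : Psi m y ≤ Psi m (1 / (2 * (m:ℝ))) := by
  have hm0 : (0:ℝ) < m := by have : 0 < m := by omega
                             exact_mod_cast this
  have hm3 : (3:ℝ) ≤ m := by exact_mod_cast hm
  set y1 : ℝ := 1 / (2 * (m:ℝ)) with hy1
  have hy1pos : 0 < y1 := by rw [hy1]; positivity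
  have hy1m : y1 * m = 1/2 := by rw [hy1]; field_simp
  have hy1le : y1 ≤ 1/6 := by
    rw [hy1, div_le_div_iff₀ (by positivity) (by norm_num)]; linarith
  set d := y - y1 with hd
  have hd0 : 0 ≤ d := by rw [hd]; linarith
  have hy0 : 0 < y := by linarith
  have A1 : 0 ≤ 1 + y1 / ((m:ℝ) + 1) := by positivity
  have A2 : 0 < 1 - y1 / (m:ℝ) := by
    have : y1 / (m:ℝ) < 1 := by rw [div_lt_one hm0]; linarith
    linarith
  have A3 : 0 < 1 - 2 * y1 ^ 2 / ((m:ℝ) + 1) := by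
    have : 2 * y1 ^ 2 / ((m:ℝ) + 1) < 1 := by rw [div_lt_one (by positivity)]; nlinarith
    linarith
  have f1 := fac1 m hm y (by linarith) h2
  have f2 := fac2 m hm y (by linarith) h2
  have B1 : 1 + y / ((m:ℝ) + 1) ≤ (1 + y1 / ((m:ℝ) + 1)) * exp (d / ((m:ℝ) + 1)) := by
    have h := add_one_le_exp (d / ((m:ℝ) + 1))
    have hh : 0 ≤ d / ((m:ℝ) + 1) := by positivity
    calc 1 + y / ((m:ℝ) + 1) = 1 + y1 / ((m:ℝ) + 1) + d / ((m:ℝ) + 1) := by rw [hd]; ring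
      _ ≤ (1 + y1 / ((m:ℝ) + 1)) * (d / ((m:ℝ) + 1) + 1) := by
          have : 0 ≤ y1 / ((m:ℝ) + 1) * (d / ((m:ℝ) + 1)) := by positivity
          nlinarith
      _ ≤ _ := by gcongr
  have B2 : 1 - y / (m:ℝ) ≤ (1 - y1 / (m:ℝ)) * exp (-(d / (m:ℝ))) := by
    have h := add_one_le_exp (-(d / (m:ℝ)))
    calc 1 - y / (m:ℝ) = 1 - y1 / (m:ℝ) - d / (m:ℝ) := by rw [hd]; ring
      _ ≤ (1 - y1 / (m:ℝ)) * (-(d / (m:ℝ)) + 1) := by
          have : 0 ≤ y1 / (m:ℝ) * (d / (m:ℝ)) := by positivity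
          nlinarith
      _ ≤ _ := by gcongr
  have B3 : 1 - 2 * y ^ 2 / ((m:ℝ) + 1) ≤ (1 - 2 * y1 ^ 2 / ((m:ℝ) + 1)) *
      exp (-(2 * (y ^ 2 - y1 ^ 2) / ((m:ℝ) + 1))) := by
    have h := add_one_le_exp (-(2 * (y ^ 2 - y1 ^ 2) / ((m:ℝ) + 1)))
    have hh : 0 ≤ y ^ 2 - y1 ^ 2 := by nlinarith
    calc 1 - 2 * y ^ 2 / ((m:ℝ) + 1) = 1 - 2 * y1 ^ 2 / ((m:ℝ) + 1) - 2 * (y ^ 2 - y1 ^ 2) / ((m:ℝ) + 1) := by
          ring
      _ ≤ (1 - 2 * y1 ^ 2 / ((m:ℝ) + 1)) * (-(2 * (y ^ 2 - y1 ^ 2) / ((m:ℝ) + 1)) + 1) := by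
          have : 0 ≤ 2 * y1 ^ 2 / ((m:ℝ) + 1) * (2 * (y ^ 2 - y1 ^ 2) / ((m:ℝ) + 1)) := by positivity
          nlinarith
      _ ≤ _ := by gcongr
  have f3 : 0 ≤ 1 - 2 * y ^ 2 / ((m:ℝ) + 1) := by
    have : 2 * y ^ 2 / ((m:ℝ) + 1) ≤ 1 := by rw [div_le_one (by positivity)]; exact h3
    linarith
  unfold Psi
  calc _ ≤ ((1 + y1 / ((m:ℝ) + 1)) * exp (d / ((m:ℝ) + 1))) ^ (m - 1) *
        ((1 - y1 / (m:ℝ)) * exp (-(d / (m:ℝ)))) ^ (m - 2) *
        ((1 - 2 * y1 ^ 2 / ((m:ℝ) + 1)) * exp (-(2 * (y ^ 2 - y1 ^ 2) / ((m:ℝ) + 1)))) := by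
        gcongr
    _ = ((1 + y1 / ((m:ℝ) + 1)) ^ (m - 1) * (1 - y1 / (m:ℝ)) ^ (m - 2) *
          (1 - 2 * y1 ^ 2 / ((m:ℝ) + 1))) *
        (exp (((m - 1 : ℕ) : ℝ) * (d / ((m:ℝ) + 1))) * exp (((m - 2 : ℕ) : ℝ) * (-(d / (m:ℝ)))) *
          exp (-(2 * (y ^ 2 - y1 ^ 2) / ((m:ℝ) + 1)))) := by
        rw [mul_pow, mul_pow, exp_nat_mul, exp_nat_mul]; ring
    _ ≤ ((1 + y1 / ((m:ℝ) + 1)) ^ (m - 1) * (1 - y1 / (m:ℝ)) ^ (m - 2) *
          (1 - 2 * y1 ^ 2 / ((m:ℝ) + 1))) * 1 := by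
        apply mul_le_mul_of_nonneg_left _ (by positivity)
        rw [← exp_add, ← exp_add, exp_le_one_iff]
        rw [Nat.cast_sub (by omega), Nat.cast_sub (by omega)]
        push_cast
        have e : ((m:ℝ) - 1) * (d / (m + 1)) + ((m:ℝ) - 2) * -(d / m) + -(2 * (y ^ 2 - y1 ^ 2) / (m + 1))
          = (2 * d - 2 * m * (y^2 - y1^2)) / (m * (m+1)) := by
          field_simp
          ring
        rw [e]
        apply div_nonpos_of_nonpos_of_nonneg _ (by positivity)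
        have : y ^ 2 - y1 ^ 2 = d * (y + y1) := by rw [hd]; ring
        rw [this]
        have h5 : 2 * y1 ≤ y + y1 := by linarith
        have h6 : d * (2 * y1) ≤ d * (y + y1) := mul_le_mul_of_nonneg_left h5 hd0
        nlinarith
    _ = _ := by rw [mul_one]

/-- the upper bound `Ψ < ab/(ab-2)` near `0`. -/
lemma Psi_lt (m : ℕ) (hm : 3 ≤ m) (y : ℝ) (h1 : 0 ≤ y) (h2 : y ≤ 1/6) :
    Psi m y < (m:ℝ) * (m + 1) / ((m:ℝ) * (m + 1) - 2) := by
  have hm0 : (0:ℝ) < m := by have : 0 < m := by omega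
                             exact_mod_cast this
  have hm3 : (3:ℝ) ≤ m := by exact_mod_cast hm
  have k1 := prod_le_exp m hm y (by linarith) (by linarith)
  have k5 : 1 - 2 * y ^ 2 / ((m:ℝ) + 1) ≤ 1 := by
    have : 0 ≤ 2 * y ^ 2 / ((m:ℝ) + 1) := by positivity
    linarith
  have k2 := prod_nonneg' m hm y (by linarith) (by linarith)
  set e : ℝ := 2 / ((m:ℝ) * (m + 1)) with he
  have he0 : 0 < e := by rw [he]; positivity
  have he1 : e ≤ 1/6 := by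
    rw [he, div_le_div_iff₀ (by positivity) (by norm_num)]; nlinarith
  have hlt : exp (e * y) < 1 / (1 - e) := by
    have h3 : exp (e * y) ≤ exp e := by
      apply exp_le_exp.mpr; nlinarith
    have h4 : 1 - e < exp (-e) := by
      have := add_one_lt_exp (show -e ≠ 0 by linarith)
      linarith
    have h5 : exp e < 1 / (1 - e) := by
      rw [lt_div_iff₀ (by linarith)]
      calc exp e * (1 - e) < exp e * exp (-e) := by
            apply mul_lt_mul_of_pos_left h4 (exp_pos e)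
        _ = 1 := by rw [← exp_add]; simp
    linarith
  have h6 : (m:ℝ) * (m + 1) / ((m:ℝ) * (m + 1) - 2) = 1 / (1 - e) := by
    rw [he]
    have : (m:ℝ) * (m + 1) - 2 ≠ 0 := by nlinarith
    have h7 : (m:ℝ) * (m + 1) ≠ 0 := by positivity
    have h8 : (1:ℝ) - 2 / (m * (m + 1)) ≠ 0 := by
      have := he1
      rw [he] at this
      intro hcon
      linarith
    field_simp
  rw [h6]
  refine lt_of_le_of_lt ?_ hlt
  unfold Psi
  calc _ ≤ ((1 + y / ((m:ℝ) + 1)) ^ (m - 1) * (1 - y / (m:ℝ)) ^ (m - 2)) * 1 := by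
        apply mul_le_mul_of_nonneg_left k5 k2
    _ ≤ _ := by rw [mul_one]; exact k1

/-- the elementary inequality for `m ≥ 6` -/
lemma cubic_aux (w : ℝ) (hw : 0 ≤ w) : 3.2 * w - 0.69 ≤ exp w := by
  have h := Real.sum_le_exp_of_nonneg hw 4
  simp [Finset.sum_range_succ, Nat.factorial] at h
  nlinarith [sq_nonneg (w - 1.3238), mul_nonneg hw (sq_nonneg (w - 1.3238))]

end Pool.Agent.H92.Tur
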