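import Mathlib
import Pool.Agent.H92.Tur4

set_option autoImplicit false

namespace Pool.Agent.H92.Tur

open Real

/-- the lobe where the second derivative is positive is small. -/
lemma lobe (m : ℕ) (hm : 3 ≤ m) (y : ℝ) (h1 : -((m:ℝ) + 1) ≤ y) (h2 : y ≤ m)
    (h3 : (m:ℝ) + 1 ≤ 2 * y ^ 2) : -1 ≤ Psi m y ∧ Psi m y ≤ 0 := by
  have k2 := prod_nonneg' m hm y h1 h2
  have k4 : 1 - 2 * y ^ 2 / ((m:ℝ) + 1) ≤ 0 := by
    have : 1 ≤ 2 * y ^ 2 / ((m:ℝ) + 1) := by rw [le_div_iff₀ (by positivity)]; linarith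
    linarith
  have hle : Psi m y ≤ 0 := by
    unfold Psi
    exact mul_nonpos_of_nonneg_of_nonpos k2 k4
  refine ⟨?_, hle⟩
  rcases Nat.lt_or_ge m 6 with h6 | h6
  · -- small cases
    interval_cases m
    · unfold Psi
      norm_num at h1 h2 h3 ⊢
      have := poly3 y (by linarith) (by linarith)
      nlinarith
    · unfold Psi
      norm_num at h1 h2 h3 ⊢
      have := poly4 y (by linarith) (by linarith)
      nlinarith
    · unfold Psi
      norm_num at h1 h2 h3 ⊢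
      have := poly5 y (by linarith) (by linarith)
      nlinarith
  · -- large cases
    have hm6 : (6:ℝ) ≤ m := by exact_mod_cast h6
    have hm0 : (0:ℝ) < m := by linarith
    have k1 := prod_le_exp2 m hm y h1 h2
    set r : ℝ := y ^ 2 / ((m:ℝ) + 1) with hr
    have hr12 : 1/2 ≤ r := by
      rw [hr, le_div_iff₀ (by positivity)]; linarith
    set w : ℝ := (1 - 2 / (m:ℝ)) * r - 2 * y / ((m:ℝ) * (m + 1)) with hw
    have hwlow : 0.625 * r - 0.0953 ≤ w := by
      have a1 : 2 * y / ((m:ℝ) * (m + 1)) ≤ r / 24 + 0.0953 := by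
        have b1 : 2 * y ≤ y ^ 2 / 4 + 4 := by nlinarith [sq_nonneg (y - 4)]
        have b2 : 2 * y / ((m:ℝ) * (m + 1)) ≤ (y ^ 2 / 4 + 4) / ((m:ℝ) * (m + 1)) := by gcongr
        have b3 : (y ^ 2 / 4 + 4) / ((m:ℝ) * (m + 1)) = r / (4 * m) + 4 / ((m:ℝ) * (m + 1)) := by
          rw [hr]; field_simp
        have b4 : r / (4 * m) ≤ r / 24 := by
          apply div_le_div_of_nonneg_left (by linarith) (by norm_num) (by linarith)
        have b5 : 4 / ((m:ℝ) * (m + 1)) ≤ 4 / 42 := by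
          apply div_le_div_of_nonneg_left (by norm_num) (by norm_num) (by nlinarith)
        have b6 : (4:ℝ) / 42 ≤ 0.0953 := by norm_num
        linarith
      have a2 : 2/3 * r ≤ (1 - 2 / (m:ℝ)) * r := by
        have : 2 / (m:ℝ) ≤ 2 / 6 := by
          apply div_le_div_of_nonneg_left (by norm_num) (by norm_num) hm6
        nlinarith
      rw [hw]
      linarith
    have hw0 : 0 ≤ w := by linarith
    have hc := cubic_aux w hw0
    have hexp : (1 + y / ((m:ℝ) + 1)) ^ (m - 1) * (1 - y / (m:ℝ)) ^ (m - 2) ≤ exp (-w) := by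
      refine le_trans k1 (le_of_eq ?_)
      rw [hw]; congr 1; ring
    have h2r : 2 * r - 1 ≤ exp w := by linarith
    have hPsi : -Psi m y = (1 + y / ((m:ℝ) + 1)) ^ (m - 1) * (1 - y / (m:ℝ)) ^ (m - 2) * (2 * r - 1) := by
      unfold Psi
      rw [hr]; ring
    have : -Psi m y ≤ 1 := by
      rw [hPsi]
      calc _ ≤ exp (-w) * exp w := by
            apply mul_le_mul hexp h2r (by linarith) (exp_pos _).le
        _ = 1 := by rw [← exp_add]; simp
    linarith

/-- location of the maximum of `|Ψ|`. -/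
theorem exists_ystar (m : ℕ) (hm : 3 ≤ m) : ∃ ys : ℝ, 0 ≤ ys ∧ ys ≤ 1/6 ∧
    (∀ y : ℝ, -((m:ℝ) + 1) ≤ y → y ≤ m → |Psi m y| ≤ Psi m ys) ∧ 1 ≤ Psi m ys ∧
    Psi m ys < (m:ℝ) * (m + 1) / ((m:ℝ) * (m + 1) - 2) := by
  have hm3 : (3:ℝ) ≤ m := by exact_mod_cast hm
  have hm0 : (0:ℝ) < m := by linarith
  have hcont : ContinuousOn (Psi m) (Set.Icc 0 (1 / (2 * (m:ℝ)))) := by
    apply Continuous.continuousOn
    unfold Psi
    fun_prop
  have hne : (Set.Icc (0:ℝ) (1 / (2 * (m:ℝ)))).Nonempty := ⟨0, by constructor <;> positivity⟩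
  obtain ⟨ys, hys, hmax⟩ := isCompact_Icc.exists_isMaxOn hne hcont
  have hle : 1 / (2 * (m:ℝ)) ≤ 1/6 := by
    rw [div_le_div_iff₀ (by positivity) (by norm_num)]; linarith
  have hys6 : ys ≤ 1/6 := le_trans hys.2 hle
  have hP0 : Psi m 0 = 1 := by simp [Psi]
  have h1 : 1 ≤ Psi m ys := by
    rw [← hP0]; exact hmax ⟨le_rfl, by positivity⟩
  refine ⟨ys, hys.1, hys6, ?_, h1, Psi_lt m hm ys hys.1 hys6⟩
  intro y hy1 hy2
  rcases le_total (2 * y ^ 2) ((m:ℝ) + 1) with h | h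
  · rcases le_total y 0 with h0 | h0
    · obtain ⟨p1, p2⟩ := Psi_le_one_neg m hm y hy1 h0 h
      rw [abs_of_nonneg p1]; linarith
    · rw [abs_of_nonneg (Psi_nonneg m hm y hy1 hy2 h)]
      rcases le_total y (1 / (2 * (m:ℝ))) with h5 | h5
      · exact hmax ⟨h0, h5⟩
      · exact le_trans (Psi_le_right m hm y h5 hy2 h) (hmax ⟨by positivity, le_rfl⟩)
  · obtain ⟨p1, p2⟩ := lobe m hm y hy1 hy2 h
    rw [abs_of_nonpos p2]; linarith

end Pool.Agent.H92.Tur
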