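import Mathlib
import Pool.Agent.H92.Tur2
import Pool.Agent.H92.Tur5

set_option autoImplicit false

namespace Pool.Agent.H92.Tur

open Polynomial

lemma dd_aux (k : ℕ) (α β y : ℝ) :
    (derivative (derivative ((1 + C α * X) ^ (k+4) * (1 - C β * X) ^ (k+3)))).eval y =
      (1 + α * y) ^ (k+2) * (1 - β * y) ^ (k+1) *
      ((k+4) * (k+3) * α^2 * (1 - β * y)^2 - 2 * (k+4) * (k+3) * α * β * (1 + α * y) * (1 - β * y)
        + (k+3) * (k+2) * β^2 * (1 + α * y)^2) := by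
  have e1 : k + 4 - 1 = k + 3 := by omega
  have e2 : k + 3 - 1 = k + 2 := by omega
  have e4 : k + 2 - 1 = k + 1 := by omega
  simp only [derivative_mul, derivative_pow, derivative_add, derivative_sub, derivative_one,
    derivative_X, derivative_C, eval_add, eval_sub, eval_mul, eval_pow, eval_one, eval_X, eval_C,
    zero_mul, mul_zero, zero_add, add_zero, mul_one, zero_sub, eval_zero, eval_neg,
    eval_natCast, C_eq_natCast, derivative_natCast, derivative_neg, neg_zero, e1, e2, e4]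
  push_cast
  ring

lemma q_dd (m : ℕ) (hm : 3 ≤ m) (y : ℝ) :
    (derivative (derivative (q (m+1) m))).eval y =
      - ((2 * (m:ℝ) + 1) / ((m:ℝ) * (m + 1)) * Psi m y) := by
  obtain ⟨k, rfl⟩ : ∃ k, m = k + 3 := ⟨m - 3, by omega⟩
  unfold q Psi
  have e0 : k + 3 + 1 = k + 4 := by omega
  have e2 : k + 3 - 1 = k + 2 := by omega
  have e3 : k + 3 - 2 = k + 1 := by omega
  rw [e0, dd_aux, e2, e3]
  push_cast
  have h3 : (k:ℝ) + 3 ≠ 0 := by positivity
  have h4 : (k:ℝ) + 4 ≠ 0 := by positivity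
  have h5 : (k:ℝ) + 3 + 1 = k + 4 := by ring
  rw [h5]
  have hA : ∀ x : ℝ, 1 / x * y = y / x := fun x => by ring
  rw [hA, hA]
  have hkey : ((k:ℝ)+4) * (k+3) * (1 / (k+4))^2 * (1 - y / (k+3))^2 -
      2 * (k+4) * (k+3) * (1 / (k+4)) * (1 / (k+3)) * (1 + y / (k+4)) * (1 - y / (k+3))
        + (k+3) * (k+2) * (1 / (k+3))^2 * (1 + y / (k+4))^2 =
      - ((2 * ((k:ℝ) + 3) + 1) / (((k:ℝ) + 3) * (k + 4)) * (1 - 2 * y ^ 2 / (k + 4))) := by
    field_simp
    ring
  rw [hkey]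
  ring

end Pool.Agent.H92.Tur
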