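import Mathlib

set_option autoImplicit false

namespace Pool.Agent.H92.Tur

open Polynomial

/-- The maximum norm of a polynomial on `[-1,1]`. -/
noncomputable def nrm (P : ℝ[X]) : ℝ := sSup ((fun x : ℝ => |P.eval x|) '' Set.Icc (-1:ℝ) 1)

/-- Real polynomials of degree exactly `n` with `n` real zeros (counted with multiplicity), all in
`[-1,1]`. -/
def Pn (n : ℕ) : Set ℝ[X] :=
  {P | P.natDegree = n ∧ Multiset.card P.roots = n ∧ ∀ x ∈ P.roots, -1 ≤ x ∧ x ≤ 1}

/-- The polynomial `(1-x)^m (1+x)^(m+1)`. -/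
noncomputable def Qm (m : ℕ) : ℝ[X] := (1 - X) ^ m * (1 + X) ^ (m + 1)

end Pool.Agent.H92.Tur
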