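import Mathlib
import Pool.Agent.H92.Tur6
import Pool.Agent.H92.TurDefs

set_option autoImplicit false

namespace Pool.Agent.H92.Tur

open Polynomial

lemma nrm_attained (P : ℝ[X]) : ∃ x ∈ Set.Icc (-1:ℝ) 1, |P.eval x| = nrm P ∧
    ∀ y ∈ Set.Icc (-1:ℝ) 1, |P.eval y| ≤ nrm P := by
  have hc : ContinuousOn (fun x : ℝ => |P.eval x|) (Set.Icc (-1:ℝ) 1) := by
    apply Continuous.continuousOn
    fun_prop
  obtain ⟨x, hx, hmax⟩ := isCompact_Icc.exists_isMaxOn (⟨0, by norm_num⟩ : (Set.Icc (-1:ℝ) 1).Nonempty) hc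
  have h : IsGreatest ((fun x : ℝ => |P.eval x|) '' Set.Icc (-1:ℝ) 1) |P.eval x| := by
    constructor
    · exact ⟨x, hx, rfl⟩
    · rintro _ ⟨y, hy, rfl⟩
      exact hmax hy
  have e : nrm P = |P.eval x| := h.csSup_eq
  exact ⟨x, hx, e.symm, fun y hy => by rw [e]; exact hmax hy⟩

lemma le_nrm (P : ℝ[X]) (y : ℝ) (h1 : -1 ≤ y) (h2 : y ≤ 1) : |P.eval y| ≤ nrm P := by
  obtain ⟨x, _, _, h⟩ := nrm_attained P
  exact h y ⟨h1, h2⟩

lemma nrm_le (P : ℝ[X]) (M : ℝ) (h : ∀ y : ℝ, -1 ≤ y → y ≤ 1 → |P.eval y| ≤ M) : nrm P ≤ M := by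
  obtain ⟨x, hx, he, _⟩ := nrm_attained P
  rw [← he]
  exact h x hx.1 hx.2

lemma nrm_eq_of (P : ℝ[X]) (M x : ℝ) (h1 : -1 ≤ x) (h2 : x ≤ 1) (hx : |P.eval x| = M)
    (h : ∀ y : ℝ, -1 ≤ y → y ≤ 1 → |P.eval y| ≤ M) : nrm P = M := by
  apply le_antisymm (nrm_le P M h)
  rw [← hx]
  exact le_nrm P x h1 h2

lemma comp_dd (P : ℝ[X]) (a b y : ℝ) :
    (derivative (derivative (P.comp (C a + C b * X)))).eval y =
      b ^ 2 * (derivative (derivative P)).eval (a + b * y) := by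
  simp [derivative_comp, derivative_mul]
  ring

lemma nrm_C_mul (c : ℝ) (P : ℝ[X]) : nrm (C c * P) = |c| * nrm P := by
  obtain ⟨x, hx, he, h⟩ := nrm_attained P
  apply nrm_eq_of _ _ x hx.1 hx.2
  · rw [eval_mul, eval_C, abs_mul, he]
  · intro y h1 h2
    rw [eval_mul, eval_C, abs_mul]
    exact mul_le_mul_of_nonneg_left (h y ⟨h1, h2⟩) (abs_nonneg c)

lemma nrm_comp_neg (P : ℝ[X]) : nrm (P.comp (-X)) = nrm P := by
  obtain ⟨x, hx, he, h⟩ := nrm_attained P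
  apply nrm_eq_of _ _ (-x) (by linarith [hx.2]) (by linarith [hx.1])
  · rw [eval_comp, eval_neg, eval_X, neg_neg, he]
  · intro y h1 h2
    rw [eval_comp, eval_neg, eval_X]
    exact h (-y) ⟨by linarith, by linarith⟩

lemma dd_comp_neg (P : ℝ[X]) : derivative (derivative (P.comp (-X))) =
    (derivative (derivative P)).comp (-X) := by
  simp [derivative_comp]

/-- the centre of `Qm`. -/
noncomputable def x0 (m : ℕ) : ℝ := 1 / (2 * (m:ℝ) + 1)

lemma Qm_comp (m : ℕ) (hm : 3 ≤ m) :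
    (Qm m).comp (C (x0 m) + C (2 / (2 * (m:ℝ) + 1)) * X) = C ((Qm m).eval (x0 m)) * q (m+1) m := by
  apply Polynomial.funext
  intro y
  unfold Qm q x0
  simp only [eval_comp, eval_mul, eval_pow, eval_add, eval_sub, eval_one, eval_X, eval_C]
  push_cast
  have hm0 : (m:ℝ) ≠ 0 := by
    have : m ≠ 0 := by omega
    exact_mod_cast this
  have hm1 : (m:ℝ) + 1 ≠ 0 := by positivity
  have hn : 2 * (m:ℝ) + 1 ≠ 0 := by positivity
  have e1 : 1 - (1 / (2 * (m:ℝ) + 1) + 2 / (2 * (m:ℝ) + 1) * y) =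
      (1 - 1 / (2 * (m:ℝ) + 1)) * (1 - 1 / (m:ℝ) * y) := by
    field_simp; ring
  have e2 : 1 + (1 / (2 * (m:ℝ) + 1) + 2 / (2 * (m:ℝ) + 1) * y) =
      (1 + 1 / (2 * (m:ℝ) + 1)) * (1 + 1 / ((m:ℝ) + 1) * y) := by
    field_simp; ring
  rw [e1, e2, mul_pow, mul_pow]
  ring

lemma Qm_x0_pos (m : ℕ) (hm : 3 ≤ m) : 0 < (Qm m).eval (x0 m) := by
  unfold Qm x0
  simp only [eval_mul, eval_pow, eval_add, eval_sub, eval_one, eval_X]
  have hm3 : (3:ℝ) ≤ m := by exact_mod_cast hm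
  have h1 : 1 / (2 * (m:ℝ) + 1) < 1 := by
    rw [div_lt_one (by positivity)]; linarith
  have h2 : 0 < 1 / (2 * (m:ℝ) + 1) := by positivity
  have h3 : 0 < 1 - 1 / (2 * (m:ℝ) + 1) := by linarith
  positivity

lemma q_le_one (m : ℕ) (hm : 3 ≤ m) (y : ℝ) (h1 : -((m:ℝ) + 1) ≤ y) (h2 : y ≤ m) :
    |(q (m+1) m).eval y| ≤ 1 := by
  have f1 := fac1 m hm y h1 h2
  have f2 := fac2 m hm y h1 h2
  have hm0 : (0:ℝ) < m := by have : 0 < m := by omega
                             exact_mod_cast this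
  have e : (q (m+1) m).eval y = (1 + y / ((m:ℝ) + 1)) ^ (m+1) * (1 - y / (m:ℝ)) ^ m := by
    unfold q
    simp only [eval_mul, eval_pow, eval_add, eval_sub, eval_one, eval_X, eval_C]
    push_cast
    ring
  rw [e, abs_of_nonneg (by positivity)]
  have e1 := pow_le_exp_mul (y / ((m:ℝ) + 1)) f1 (m + 1)
  have e2 := pow_le_exp_mul (-(y / (m:ℝ))) (by linarith) m
  rw [← sub_eq_add_neg] at e2
  calc _ ≤ Real.exp (((m + 1 : ℕ) : ℝ) * (y / ((m:ℝ) + 1))) * Real.exp ((m : ℝ) * (-(y / (m:ℝ)))) := by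
        gcongr
    _ = 1 := by
        rw [← Real.exp_add, Real.exp_eq_one_iff]
        push_cast
        field_simp
        ring

/-- the constant `n^3/(n^2-1)` -/
noncomputable def KK (m : ℕ) : ℝ := (2 * (m:ℝ) + 1) ^ 3 / (4 * ((m:ℝ) * (m + 1)))

lemma x_to_y (m : ℕ) (x : ℝ) : x = x0 m + 2 / (2 * (m:ℝ) + 1) * (((2 * (m:ℝ) + 1) * x - 1) / 2) := by
  unfold x0
  have hn : 2 * (m:ℝ) + 1 ≠ 0 := by positivity
  field_simp
  ring

lemma y_range (m : ℕ) (x : ℝ) (h1 : -1 ≤ x) (h2 : x ≤ 1) :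
    -((m:ℝ) + 1) ≤ ((2 * (m:ℝ) + 1) * x - 1) / 2 ∧ ((2 * (m:ℝ) + 1) * x - 1) / 2 ≤ m := by
  have hn : 0 < 2 * (m:ℝ) + 1 := by positivity
  constructor <;> nlinarith

lemma nrm_Qm (m : ℕ) (hm : 3 ≤ m) : nrm (Qm m) = (Qm m).eval (x0 m) := by
  have hpos := Qm_x0_pos m hm
  have hn : (0:ℝ) < 2 * (m:ℝ) + 1 := by positivity
  apply nrm_eq_of _ _ (x0 m)
  · have : 0 ≤ x0 m := by unfold x0; positivity
    linarith
  · unfold x0
    rw [div_le_one hn]
    have : (0:ℝ) ≤ m := Nat.cast_nonneg m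
    linarith
  · exact abs_of_pos hpos
  · intro x h1 h2
    obtain ⟨r1, r2⟩ := y_range m x h1 h2
    have h := congrArg (fun p => p.eval (((2 * (m:ℝ) + 1) * x - 1) / 2)) (Qm_comp m hm)
    simp only [eval_comp, eval_add, eval_mul, eval_C, eval_X] at h
    rw [← x_to_y m x] at h
    rw [h, abs_mul, abs_of_pos hpos]
    have := q_le_one m hm _ r1 r2
    nlinarith

lemma Qm_dd (m : ℕ) (hm : 3 ≤ m) (x : ℝ) : (derivative (derivative (Qm m))).eval x =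
    - (KK m * (Qm m).eval (x0 m) * Psi m (((2 * (m:ℝ) + 1) * x - 1) / 2)) := by
  have h := congrArg (fun p => (derivative (derivative p)).eval (((2 * (m:ℝ) + 1) * x - 1) / 2))
    (Qm_comp m hm)
  simp only [comp_dd, derivative_C_mul, eval_mul, eval_C] at h
  rw [← x_to_y m x, q_dd m hm] at h
  unfold KK
  have hn : (2 * (m:ℝ) + 1) ≠ 0 := by positivity
  have hm0 : (m:ℝ) ≠ 0 := by
    have : m ≠ 0 := by omega
    exact_mod_cast this
  have hm1 : (m:ℝ) + 1 ≠ 0 := by positivity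
  set D := (derivative (derivative (Qm m))).eval x
  set Q0 := (Qm m).eval (x0 m)
  set Y := Psi m (((2 * (m:ℝ) + 1) * x - 1) / 2)
  have : D = ((2 * (m:ℝ) + 1) / 2)^2 * ((2 / (2 * (m:ℝ) + 1)) ^ 2 * D) := by
    field_simp
  rw [this, h]
  field_simp
  ring

/-- the norm of the second derivative of `Qm`. -/
lemma nrm_Qm_dd (m : ℕ) (hm : 3 ≤ m) (ys : ℝ) (h1 : 0 ≤ ys) (h2 : ys ≤ 1/6)
    (hys : ∀ y : ℝ, -((m:ℝ) + 1) ≤ y → y ≤ m → |Psi m y| ≤ Psi m ys) :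
    nrm (derivative (derivative (Qm m))) = KK m * (Qm m).eval (x0 m) * Psi m ys := by
  have hpos := Qm_x0_pos m hm
  have hm3 : (3:ℝ) ≤ m := by exact_mod_cast hm
  have hn : (0:ℝ) < 2 * (m:ℝ) + 1 := by positivity
  have hK : 0 < KK m := by unfold KK; positivity
  have hP : 0 ≤ Psi m ys := le_trans (abs_nonneg _) (hys 0 (by linarith) (by linarith))
  apply nrm_eq_of _ _ (x0 m + 2 / (2 * (m:ℝ) + 1) * ys)
  · have : 0 ≤ x0 m := by unfold x0; positivity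
    have : 0 ≤ 2 / (2 * (m:ℝ) + 1) * ys := by positivity
    linarith
  · unfold x0
    rw [div_mul_eq_mul_div, ← add_div, div_le_one hn]
    linarith
  · rw [Qm_dd m hm]
    have : ((2 * (m:ℝ) + 1) * (x0 m + 2 / (2 * (m:ℝ) + 1) * ys) - 1) / 2 = ys := by
      unfold x0
      field_simp
      ring
    rw [this, abs_neg, abs_of_nonneg (by positivity)]
  · intro x h1 h2
    obtain ⟨r1, r2⟩ := y_range m x h1 h2
    rw [Qm_dd m hm, abs_neg, abs_mul, abs_of_pos (by positivity)]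
    exact mul_le_mul_of_nonneg_left (hys _ r1 r2) (by positivity)

end Pool.Agent.H92.Tur
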