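import Mathlib
import Pool.Agent.H92.Tur7

set_option autoImplicit false

namespace Pool.Agent.H92.Tur

open Polynomial Finset

variable {n : ℕ}

/-- polynomial with leading coefficient `c` and zeros `z i`. -/
noncomputable def PP (c : ℝ) (z : Fin n → ℝ) : ℝ[X] := C c * ∏ i, (X - C (z i))

lemma GP_zero (s : Finset (Fin n)) (v : Fin n → ℝ) :
    (GP s v).eval 0 = 1 ∧ (derivative (GP s v)).eval 0 = ∑ i ∈ s, v i ∧
    (derivative (derivative (GP s v))).eval 0 = (∑ i ∈ s, v i) ^ 2 - ∑ i ∈ s, (v i) ^ 2 := by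
  induction s using Finset.induction_on with
  | empty => simp [GP]
  | insert a s ha ih =>
    obtain ⟨h0, h1, h2⟩ := ih
    have e : GP (insert a s) v = (1 + C (v a) * X) * GP s v := by
      unfold GP
      rw [Finset.prod_insert ha]
    rw [e]
    refine ⟨?_, ?_, ?_⟩
    · simp [h0]
    · rw [Finset.sum_insert ha]; simp [derivative_mul, h0, h1]
    · rw [Finset.sum_insert ha, Finset.sum_insert ha]
      simp [derivative_mul, h1, h2]; ring

/-- Taylor form of `PP` at `x` with scaling. -/
lemma PP_comp (c : ℝ) (z : Fin n → ℝ) (x S : ℝ) (hx : ∀ i, x - z i ≠ 0) (hS : S ≠ 0) :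
    (PP c z).comp (C x + C (1 / S) * X) =
      C ((PP c z).eval x) * GP Finset.univ (fun i => 1 / (S * (x - z i))) := by
  unfold PP GP
  rw [mul_comp, C_comp, Polynomial.prod_comp, eval_mul, eval_C, eval_prod, C_mul, mul_assoc]
  congr 1
  have : C (∏ i, (X - C (z i)).eval x) = ∏ i, C (x - z i) := by
    rw [map_prod]
    apply Finset.prod_congr rfl
    intro i _
    simp
  rw [this, ← Finset.prod_mul_distrib]
  apply Finset.prod_congr rfl
  intro i _
  simp only [sub_comp, X_comp, C_comp]
  have hi := hx i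
  have : (C (x - z i) : ℝ[X]) * (1 + C (1 / (S * (x - z i))) * X) =
      C (x - z i) + C ((x - z i) * (1 / (S * (x - z i)))) * X := by
    rw [C_mul]; ring
  rw [this]
  have h2 : (x - z i) * (1 / (S * (x - z i))) = 1 / S := by field_simp
  rw [h2, C_sub]
  ring

lemma PP_dd (c : ℝ) (z : Fin n → ℝ) (x S y : ℝ) (hx : ∀ i, x - z i ≠ 0) (hS : S ≠ 0) :
    (derivative (derivative (PP c z))).eval (x + 1 / S * y) =
      - (S ^ 2 * (PP c z).eval x * F (fun i => 1 / (S * (x - z i))) y) := by
  have h := congrArg (fun p => (derivative (derivative p)).eval y) (PP_comp c z x S hx hS)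
  simp only [comp_dd, derivative_C_mul, eval_mul, eval_C] at h
  unfold F
  set D := (derivative (derivative (PP c z))).eval (x + 1 / S * y)
  have : D = S ^ 2 * ((1 / S) ^ 2 * D) := by field_simp
  rw [this, h]
  ring

lemma PP_dd0 (c : ℝ) (z : Fin n → ℝ) (x : ℝ) (hx : ∀ i, x - z i ≠ 0) :
    (derivative (derivative (PP c z))).eval x =
      (PP c z).eval x * ((∑ i, 1 / (x - z i)) ^ 2 - ∑ i, (1 / (x - z i)) ^ 2) := by
  have h := PP_dd c z x 1 0 hx one_ne_zero
  rw [mul_zero, add_zero] at h
  rw [h]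
  unfold F
  rw [(GP_zero Finset.univ (fun i => 1 / (1 * (x - z i)))).2.2]
  simp only [one_mul]
  ring

lemma PP_d0 (c : ℝ) (z : Fin n → ℝ) (x : ℝ) (hx : ∀ i, x - z i ≠ 0) :
    (derivative (PP c z)).eval x = (PP c z).eval x * (∑ i, 1 / (x - z i)) := by
  have h := congrArg (fun p => (derivative p).eval 0) (PP_comp c z x 1 hx one_ne_zero)
  have h2 := (GP_zero Finset.univ (fun i => 1 / (1 * (x - z i)))).2.1
  simp only [derivative_comp, derivative_C_mul, eval_mul, eval_C] at h
  rw [h2] at h
  simp only [one_mul] at h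
  simp at h
  simp only [one_div]
  exact h

lemma PP_ne (c : ℝ) (z : Fin n → ℝ) (x : ℝ) (h : (PP c z).eval x ≠ 0) : ∀ i, x - z i ≠ 0 := by
  intro i hi
  apply h
  unfold PP
  rw [eval_mul, eval_prod]
  rw [Finset.prod_eq_zero (Finset.mem_univ i)]
  · simp
  · simpa using hi

/-- critical point at an interior extremum of `|P|` -/
lemma deriv_zero (P : ℝ[X]) (x : ℝ) (h1 : -1 < x) (h2 : x < 1) (hx : |P.eval x| = nrm P)
    (h0 : P.eval x ≠ 0) : (derivative P).eval x = 0 := by
  have hloc : IsLocalMax (fun y => P.eval x * P.eval y) x := by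
    have : ∀ᶠ y in nhds x, -1 < y ∧ y < 1 := by
      exact (eventually_gt_nhds h1).and (eventually_lt_nhds h2)
    refine this.mono ?_
    intro y hy
    show P.eval x * P.eval y ≤ P.eval x * P.eval x
    have h3 := le_nrm P y hy.1.le hy.2.le
    calc P.eval x * P.eval y ≤ |P.eval x * P.eval y| := le_abs_self _
      _ = |P.eval x| * |P.eval y| := abs_mul _ _
      _ ≤ |P.eval x| * |P.eval x| := by
          apply mul_le_mul_of_nonneg_left _ (abs_nonneg _)
          rw [hx]; exact h3
      _ = P.eval x * P.eval x := abs_mul_abs_self _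
  have hd : HasDerivAt (fun y => P.eval x * P.eval y) (P.eval x * (derivative P).eval x) x :=
    (P.hasDerivAt x).const_mul _
  have := hloc.hasDerivAt_eq_zero hd
  rcases mul_eq_zero.mp this with h | h
  · exact absurd h h0
  · exact h

end Pool.Agent.H92.Tur
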