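import Mathlib
import Pool.Agent.H92.Tur8

set_option autoImplicit false

namespace Pool.Agent.H92.Tur

open Polynomial Finset

variable {n : ℕ}

/-- the indices of zeros to the left of `x`. -/
noncomputable def LI (z : Fin n → ℝ) (x : ℝ) : Finset (Fin n) :=
  Finset.univ.filter (fun i => z i < x)

lemma geom (z : Fin n → ℝ) (hz : ∀ i, -1 ≤ z i ∧ z i ≤ 1) (x : ℝ)
    (hx : ∀ i, x - z i ≠ 0) (hsum : ∑ i, 1 / (x - z i) = 0) :
    ((LI z x).card : ℝ) ≤ (∑ i ∈ LI z x, 1 / (x - z i)) * (1 + x) ∧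
    ((LI z x)ᶜ.card : ℝ) ≤ (∑ i ∈ LI z x, 1 / (x - z i)) * (1 - x) ∧
    ∑ i ∈ (LI z x)ᶜ, 1 / (x - z i) = - (∑ i ∈ LI z x, 1 / (x - z i)) ∧
    (∀ i ∈ LI z x, 0 < 1 / (x - z i)) ∧ (∀ i ∈ (LI z x)ᶜ, 1 / (x - z i) < 0) := by
  have hc : ∑ i ∈ (LI z x)ᶜ, 1 / (x - z i) = - (∑ i ∈ LI z x, 1 / (x - z i)) := by
    have := Finset.sum_add_sum_compl (LI z x) (fun i => 1 / (x - z i))
    linarith
  have p1 : ∀ i ∈ LI z x, 0 < x - z i := by
    intro i hi
    unfold LI at hi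
    rw [Finset.mem_filter] at hi
    linarith [hi.2]
  have p2 : ∀ i ∈ (LI z x)ᶜ, x - z i < 0 := by
    intro i hi
    unfold LI at hi
    rw [Finset.mem_compl, Finset.mem_filter] at hi
    push Not at hi
    have := hi (Finset.mem_univ i)
    exact lt_of_le_of_ne (by linarith) (hx i)
  refine ⟨?_, ?_, hc, ?_, ?_⟩
  · rw [Finset.sum_mul, Finset.card_eq_sum_ones]
    push_cast
    apply Finset.sum_le_sum
    intro i hi
    have := p1 i hi
    rw [div_mul_eq_mul_div, one_mul, le_div_iff₀ this]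
    linarith [(hz i).1]
  · have : (∑ i ∈ LI z x, 1 / (x - z i)) * (1 - x) = ∑ i ∈ (LI z x)ᶜ, (-(1 / (x - z i))) * (1 - x) := by
      rw [← Finset.sum_mul, Finset.sum_neg_distrib, hc, neg_neg]
    rw [this, Finset.card_eq_sum_ones]
    push_cast
    apply Finset.sum_le_sum
    intro i hi
    have h3 := p2 i hi
    have h4 : 0 < z i - x := by linarith
    have h5 : -(1 / (x - z i)) = 1 / (z i - x) := by
      rw [← neg_sub (z i) x, one_div, one_div, inv_neg, neg_neg]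
    rw [h5, div_mul_eq_mul_div, one_mul, le_div_iff₀ h4]
    linarith [(hz i).2]
  · intro i hi
    have := p1 i hi
    positivity
  · intro i hi
    exact one_div_neg.mpr (p2 i hi)

/-- the target constant is less than `n^3/(n^2-9)`. -/
lemma KPsi_lt (m : ℕ) (hm : 3 ≤ m) (ψ : ℝ)
    (h : ψ < (m:ℝ) * (m + 1) / ((m:ℝ) * (m + 1) - 2)) :
    KK m * ψ < (2 * (m:ℝ) + 1) ^ 3 / (4 * (((m:ℝ) - 1) * (m + 2))) := by
  have hm3 : (3:ℝ) ≤ m := by exact_mod_cast hm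
  have h1 : 0 < (m:ℝ) * (m + 1) - 2 := by nlinarith
  have hK : 0 < KK m := by unfold KK; positivity
  calc KK m * ψ < KK m * ((m:ℝ) * (m + 1) / ((m:ℝ) * (m + 1) - 2)) := mul_lt_mul_of_pos_left h hK
    _ = (2 * (m:ℝ) + 1) ^ 3 / (4 * (((m:ℝ) - 1) * (m + 2))) := by
        unfold KK
        have e : ((m:ℝ) - 1) * (m + 2) = (m:ℝ) * (m + 1) - 2 := by ring
        rw [e]
        have hm0 : (m:ℝ) ≠ 0 := by positivity
        field_simp

/-- unbalanced interior case -/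
lemma unbalanced (m : ℕ) (hm : 3 ≤ m) (a b : ℕ) (hab : a + b = 2 * m + 1) (h1 : a ≠ m) (h2 : a ≠ m + 1)
    (ha : 0 < a) (hb : 0 < b) (S : ℝ) (hS : (2 * (m:ℝ) + 1) / 2 ≤ S) :
    (2 * (m:ℝ) + 1) ^ 3 / (4 * (((m:ℝ) - 1) * (m + 2))) ≤ S ^ 2 / a + S ^ 2 / b := by
  have hm3 : (3:ℝ) ≤ m := by exact_mod_cast hm
  have haR : (0:ℝ) < a := by exact_mod_cast ha
  have hbR : (0:ℝ) < b := by exact_mod_cast hb
  have habR : (a:ℝ) + b = 2 * m + 1 := by exact_mod_cast hab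
  have hprod : (a:ℝ) * b ≤ ((m:ℝ) - 1) * (m + 2) := by
    have hb' : (b:ℝ) = 2 * m + 1 - a := by linarith
    rw [hb']
    rcases Nat.lt_or_ge a m with h | h
    · have h3 : (a:ℝ) ≤ m - 1 := by
        have : a + 1 ≤ m := h
        have : (a:ℝ) + 1 ≤ m := by exact_mod_cast this
        linarith
      nlinarith
    · have h3 : (m:ℝ) + 2 ≤ a := by
        have : m + 2 ≤ a := by omega
        exact_mod_cast this
      nlinarith
  have e : S ^ 2 / a + S ^ 2 / b = S ^ 2 * (2 * m + 1) / (a * b) := by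
    rw [← habR]
    field_simp
    ring
  rw [e]
  have hS2 : ((2 * (m:ℝ) + 1) / 2) ^ 2 ≤ S ^ 2 := by
    apply pow_le_pow_left₀ (by positivity) hS
  have hp1 : (0:ℝ) < ((m:ℝ) - 1) * (m + 2) := by
    apply mul_pos <;> linarith
  rw [div_le_div_iff₀ (by positivity) (by positivity)]
  calc (2 * (m:ℝ) + 1) ^ 3 * (a * b) ≤ (2 * (m:ℝ) + 1) ^ 3 * (((m:ℝ) - 1) * (m + 2)) := by
        gcongr
    _ = (((2 * (m:ℝ) + 1) / 2) ^ 2 * (2 * m + 1)) * (4 * (((m:ℝ) - 1) * (m + 2))) := by ring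
    _ ≤ (S ^ 2 * (2 * m + 1)) * (4 * (((m:ℝ) - 1) * (m + 2))) := by gcongr

/-- endpoint case -/
lemma endpoint_sum (n : ℕ) (v : Fin n → ℝ) (hv : ∀ i, 1/2 ≤ v i) :
    (n:ℝ) * (n - 1) / 4 ≤ (∑ i, v i) ^ 2 - ∑ i, (v i) ^ 2 := by
  have h1 : ∀ i, ((n:ℝ) - 1) / 2 ≤ ∑ j, v j - v i := by
    intro i
    have e : ∑ j, v j - v i = ∑ j ∈ Finset.univ.erase i, v j := by
      rw [← Finset.add_sum_erase Finset.univ v (Finset.mem_univ i)]; ring
    rw [e]
    have h2 : ∑ j ∈ Finset.univ.erase i, (1/2:ℝ) ≤ ∑ j ∈ Finset.univ.erase i, v j :=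
      Finset.sum_le_sum (fun j _ => hv j)
    rw [Finset.sum_const, Finset.card_erase_of_mem (Finset.mem_univ i), Finset.card_univ,
      Fintype.card_fin, nsmul_eq_mul] at h2
    have hn : 1 ≤ n := by
      have := i.2; omega
    rw [Nat.cast_sub hn] at h2
    push_cast at h2
    linarith
  have e : (∑ i, v i) ^ 2 - ∑ i, (v i) ^ 2 = ∑ i, v i * (∑ j, v j - v i) := by
    simp only [mul_sub]
    rw [Finset.sum_sub_distrib, ← Finset.sum_mul, sq]
    congr 1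
    apply Finset.sum_congr rfl
    intros; ring
  rw [e]
  rcases Nat.eq_zero_or_pos n with hn | hn
  · subst hn; simp
  · have hnR : (1:ℝ) ≤ n := by exact_mod_cast hn
    calc (n:ℝ) * (n - 1) / 4 = ∑ i : Fin n, (1/2:ℝ) * (((n:ℝ) - 1) / 2) := by
          rw [Finset.sum_const, Finset.card_univ, Fintype.card_fin, nsmul_eq_mul]; ring
      _ ≤ _ := by
          apply Finset.sum_le_sum
          intro i _
          apply mul_le_mul (hv i) (h1 i) (by linarith)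
          linarith [hv i]

lemma endpoint_const (m : ℕ) (hm : 3 ≤ m) :
    (2 * (m:ℝ) + 1) ^ 3 / (4 * (((m:ℝ) - 1) * (m + 2))) ≤ ((2 * m + 1 : ℕ) : ℝ) * (((2 * m + 1 : ℕ):ℝ) - 1) / 4 := by
  have hm3 : (3:ℝ) ≤ m := by exact_mod_cast hm
  push_cast
  have hp1 : (0:ℝ) < ((m:ℝ) - 1) * (m + 2) := by
    apply mul_pos <;> linarith
  rw [div_le_div_iff₀ (by positivity) (by norm_num)]
  have : (2 * (m:ℝ) + 1) ^ 2 ≤ (2 * m) * (((m:ℝ) - 1) * (m + 2)) := by nlinarith [sq_nonneg ((m:ℝ) - 3)]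
  have h4 : 0 < 2 * (m:ℝ) + 1 := by positivity
  nlinarith [mul_le_mul_of_nonneg_left this h4.le]

end Pool.Agent.H92.Tur
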