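import Mathlib
import Pool.Agent.H92.Tur9

set_option autoImplicit false

namespace Pool.Agent.H92.Tur

open Polynomial Finset

lemma balanced (m : ℕ) (hm : 3 ≤ m) (ys : ℝ) (hys0 : 0 ≤ ys) (hys6 : ys ≤ 1/6)
    (hψ1 : 1 ≤ Psi m ys) (c : ℝ) (hc : c ≠ 0) (z : Fin (2 * m + 1) → ℝ)
    (hz : ∀ i, -1 ≤ z i ∧ z i ≤ 1) (x : ℝ) (h1 : -1 < x)
    (hPx : |(PP c z).eval x| = nrm (PP c z)) (hP0 : (PP c z).eval x ≠ 0)
    (hsum : ∑ i, 1 / (x - z i) = 0) (hcard : (LI z x).card = m + 1) :
    KK m * Psi m ys * nrm (PP c z) ≤ nrm (derivative (derivative (PP c z))) ∧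
    (nrm (derivative (derivative (PP c z))) = KK m * Psi m ys * nrm (PP c z) →
      ∃ c' : ℝ, c' ≠ 0 ∧ PP c z = C c' * Qm m) := by
  have hx := PP_ne c z x hP0
  have hm3 : (3:ℝ) ≤ m := by exact_mod_cast hm
  obtain ⟨g1, g2, g3, g4, g5⟩ := geom z hz x hx hsum
  set I := LI z x with hI
  have hcard' : Iᶜ.card = m := by
    rw [Finset.card_compl, Fintype.card_fin, hcard]; omega
  set S := ∑ i ∈ I, 1 / (x - z i) with hS
  rw [hcard] at g1
  rw [hcard'] at g2
  push_cast at g1
  have hS2 : (2 * (m:ℝ) + 1) / 2 ≤ S := by nlinarith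
  have hSpos : 0 < S := by linarith
  set w : Fin (2 * m + 1) → ℝ := fun i => 1 / (S * (x - z i)) with hw
  have hwv : ∀ i, w i = 1 / S * (1 / (x - z i)) := by
    intro i
    rw [hw]
    have := hx i
    field_simp
  have w1 : ∀ i ∈ I, 0 ≤ w i := by
    intro i hi
    rw [hwv]
    have := g4 i hi
    positivity
  have w2 : ∀ i ∈ Iᶜ, w i ≤ 0 := by
    intro i hi
    rw [hwv]
    exact mul_nonpos_of_nonneg_of_nonpos (by positivity) (g5 i hi).le
  have w3 : ∑ i ∈ I, w i = 1 := by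
    have : ∑ i ∈ I, w i = 1 / S * S := by
      rw [hS, Finset.mul_sum]
      exact Finset.sum_congr rfl (fun i _ => hwv i)
    rw [this]; field_simp
  have w4 : ∑ i ∈ Iᶜ, w i = -1 := by
    have : ∑ i ∈ Iᶜ, w i = 1 / S * (-S) := by
      rw [← g3, Finset.mul_sum]
      exact Finset.sum_congr rfl (fun i _ => hwv i)
    rw [this]; field_simp
  obtain ⟨f1, f2⟩ := smooth I ys hys0 hys6 _ w w1 w2 w3 w4 le_rfl
  have fbar : F (wbar I) ys = (2 * (m:ℝ) + 1) / ((m:ℝ) * (m + 1)) * Psi m ys := by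
    unfold F
    rw [GP_wbar, hcard, hcard', q_dd m hm]
    ring
  have fbarpos : 0 < F (wbar I) ys := by
    rw [fbar]
    have : 0 < Psi m ys := by linarith
    positivity
  have hnpos : 0 < nrm (PP c z) := by
    rw [← hPx]; exact abs_pos.mpr hP0
  have hdd := PP_dd c z x S ys hx hSpos.ne'
  have habs : |(derivative (derivative (PP c z))).eval (x + 1 / S * ys)| =
      S ^ 2 * nrm (PP c z) * F w ys := by
    rw [hdd, abs_neg, abs_mul, abs_mul, hPx, abs_of_nonneg (by positivity : 0 ≤ S^2),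
      abs_of_pos (lt_of_lt_of_le fbarpos f1)]
  have hys_le : 1 / S * ys ≤ 1 - x := by
    rw [div_mul_eq_mul_div, one_mul, div_le_iff₀ hSpos]
    linarith
  have hge : S ^ 2 * nrm (PP c z) * F w ys ≤ nrm (derivative (derivative (PP c z))) := by
    rw [← habs]
    apply le_nrm
    · have : 0 ≤ 1 / S * ys := by positivity
      linarith
    · linarith
  have hSS : ((2 * (m:ℝ) + 1) / 2) ^ 2 ≤ S ^ 2 := pow_le_pow_left₀ (by positivity) hS2 2
  have hKK : KK m * Psi m ys * nrm (PP c z) =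
      ((2 * (m:ℝ) + 1) / 2) ^ 2 * nrm (PP c z) * F (wbar I) ys := by
    rw [fbar]
    unfold KK
    have hm0 : (m:ℝ) ≠ 0 := by positivity
    field_simp
    ring
  constructor
  · rw [hKK]
    calc ((2 * (m:ℝ) + 1) / 2) ^ 2 * nrm (PP c z) * F (wbar I) ys
        ≤ S ^ 2 * nrm (PP c z) * F w ys := by
          apply mul_le_mul (mul_le_mul_of_nonneg_right hSS hnpos.le) f1 fbarpos.le (by positivity)
      _ ≤ _ := hge
  · intro heq
    rw [heq, hKK] at hge
    -- cancel the norm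
    have hge' : S ^ 2 * F w ys ≤ ((2 * (m:ℝ) + 1) / 2) ^ 2 * F (wbar I) ys := by
      have : nrm (PP c z) * (S ^ 2 * F w ys) ≤ nrm (PP c z) * (((2 * (m:ℝ) + 1) / 2) ^ 2 * F (wbar I) ys) := by
        linarith
      exact le_of_mul_le_mul_left this hnpos
    have hFw : F w ys ≤ F (wbar I) ys := by
      have h3 : S ^ 2 * F w ys ≤ S ^ 2 * F (wbar I) ys :=
        le_trans hge' (mul_le_mul_of_nonneg_right hSS fbarpos.le)
      exact le_of_mul_le_mul_left h3 (by positivity)
    have hww := f2 (le_antisymm f1 hFw)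
    have hSeq : S = (2 * (m:ℝ) + 1) / 2 := by
      apply le_antisymm _ hS2
      have h3 : S ^ 2 * F (wbar I) ys ≤ ((2 * (m:ℝ) + 1) / 2) ^ 2 * F (wbar I) ys :=
        le_trans (mul_le_mul_of_nonneg_left f1 (by positivity)) hge'
      have h4 : S ^ 2 ≤ ((2 * (m:ℝ) + 1) / 2) ^ 2 := le_of_mul_le_mul_right h3 fbarpos
      by_contra hcon
      push Not at hcon
      have h5 : ((2 * (m:ℝ) + 1) / 2) * ((2 * (m:ℝ) + 1) / 2) < S * S :=
        mul_lt_mul'' hcon hcon (by positivity) (by positivity)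
      rw [sq, sq] at h4
      exact absurd h4 (not_le.mpr h5)
    rw [hSeq] at g1 g2
    have hn : 0 < 2 * (m:ℝ) + 1 := by positivity
    have hxe : (2 * (m:ℝ) + 1) * x = 1 := by
      apply le_antisymm <;> linarith
    have z1 : ∀ i ∈ I, z i = -1 := by
      intro i hi
      have e := congrFun hww i
      simp only [hw, wbar, hi, if_true] at e
      rw [hcard] at e
      push_cast at e
      have hxi := hx i
      have hne : S * (x - z i) ≠ 0 := mul_ne_zero hSpos.ne' hxi
      rw [div_eq_div_iff hne (by positivity)] at e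
      rw [hSeq] at e
      have e3 : (2 * (m:ℝ) + 1) * (z i + 1) = 0 := by nlinarith
      rcases mul_eq_zero.mp e3 with h | h
      · linarith
      · linarith
    have z2 : ∀ i ∈ Iᶜ, z i = 1 := by
      intro i hi
      have e := congrFun hww i
      have hi' : i ∉ I := Finset.mem_compl.mp hi
      simp only [hw, wbar, hi', if_false] at e
      rw [hcard'] at e
      have hxi := hx i
      have hne : S * (x - z i) ≠ 0 := mul_ne_zero hSpos.ne' hxi
      have hm0 : (m:ℝ) ≠ 0 := by positivity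
      have e2 : 1 / (S * (x - z i)) = (-1) / (m:ℝ) := by rw [e]; ring
      rw [div_eq_div_iff hne hm0] at e2
      rw [hSeq] at e2
      have e3 : (2 * (m:ℝ) + 1) * (z i - 1) = 0 := by nlinarith
      rcases mul_eq_zero.mp e3 with h | h
      · linarith
      · linarith
    refine ⟨c * (-1) ^ m, mul_ne_zero hc (pow_ne_zero _ (by norm_num)), ?_⟩
    unfold PP Qm
    rw [← Finset.prod_mul_prod_compl I]
    have p1 : ∏ i ∈ I, (X - C (z i)) = (1 + X : ℝ[X]) ^ (m + 1) := by
      rw [← hcard, ← Finset.prod_const]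
      apply Finset.prod_congr rfl
      intro i hi
      rw [z1 i hi, C_neg, C_1]; ring
    have p2 : ∏ i ∈ Iᶜ, (X - C (z i)) = (X - 1 : ℝ[X]) ^ m := by
      have p4 : (X - 1 : ℝ[X]) ^ m = (X - 1 : ℝ[X]) ^ (Iᶜ.card) := congrArg _ hcard'.symm
      rw [p4, ← Finset.prod_const]
      apply Finset.prod_congr rfl
      intro i hi
      rw [z2 i hi, C_1]
    rw [p1, p2]
    have p3 : (X - 1 : ℝ[X]) ^ m = (-1) ^ m * (1 - X) ^ m := by
      rw [← mul_pow]; congr 1; ring
    rw [p3, C_mul, C_pow, C_neg, C_1]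
    ring

end Pool.Agent.H92.Tur
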