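import Mathlib
import Pool.Agent.H92.Tur10

set_option autoImplicit false

namespace Pool.Agent.H92.Tur

open Polynomial Finset

lemma PP_ne_zero (m : ℕ) (c : ℝ) (hc : c ≠ 0) (z : Fin (2 * m + 1) → ℝ) : PP c z ≠ 0 := by
  unfold PP
  apply mul_ne_zero
  · exact C_ne_zero.mpr hc
  · exact Finset.prod_ne_zero_iff.mpr (fun i _ => X_sub_C_ne_zero _)

lemma nrm_pos (P : ℝ[X]) (h : P ≠ 0) : 0 < nrm P := by
  obtain ⟨x, hx, he, hm⟩ := nrm_attained P
  by_contra hcon
  have h0 : nrm P ≤ 0 := not_lt.mp hcon
  apply h
  apply Polynomial.eq_zero_of_infinite_isRoot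
  apply Set.Infinite.mono _ (Set.Icc_infinite (show (-1:ℝ) < 1 by norm_num))
  intro y hy
  have := hm y hy
  have h1 : |P.eval y| = 0 := le_antisymm (le_trans this h0) (abs_nonneg _)
  exact abs_eq_zero.mp h1

lemma PP_comp_neg (m : ℕ) (c : ℝ) (z : Fin (2 * m + 1) → ℝ) :
    (PP c z).comp (-X) = PP (-c) (fun i => - z i) := by
  unfold PP
  rw [mul_comp, C_comp, Polynomial.prod_comp]
  have : ∏ i, (X - C (z i)).comp (-X) = ∏ i : Fin (2 * m + 1), ((-1 : ℝ[X]) * (X - C (- z i))) := by
    apply Finset.prod_congr rfl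
    intro i _
    simp only [sub_comp, X_comp, C_comp, C_neg]
    ring
  rw [this, Finset.prod_mul_distrib, Finset.prod_const, Finset.card_univ, Fintype.card_fin,
    Odd.neg_one_pow ⟨m, rfl⟩, C_neg]
  ring

theorem core (m : ℕ) (hm : 3 ≤ m) (ys : ℝ) (hys0 : 0 ≤ ys) (hys6 : ys ≤ 1/6)
    (hψ1 : 1 ≤ Psi m ys) (hlt : Psi m ys < (m:ℝ) * (m + 1) / ((m:ℝ) * (m + 1) - 2))
    (c : ℝ) (hc : c ≠ 0) (z : Fin (2 * m + 1) → ℝ) (hz : ∀ i, -1 ≤ z i ∧ z i ≤ 1) :
    KK m * Psi m ys * nrm (PP c z) ≤ nrm (derivative (derivative (PP c z))) ∧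
    (nrm (derivative (derivative (PP c z))) = KK m * Psi m ys * nrm (PP c z) →
      ∃ c' : ℝ, c' ≠ 0 ∧ (PP c z = C c' * Qm m ∨ PP c z = C c' * (Qm m).comp (-X))) := by
  have hnpos := nrm_pos _ (PP_ne_zero m c hc z)
  obtain ⟨x, hx, hPx, hmax⟩ := nrm_attained (PP c z)
  have hP0 : (PP c z).eval x ≠ 0 := by
    rw [← hPx] at hnpos
    exact abs_pos.mp hnpos
  have hxz := PP_ne c z x hP0
  have hdd0 := PP_dd0 c z x hxz
  have hK := KPsi_lt m hm _ hlt
  -- a strict inequality settles everything
  have strict : (2 * (m:ℝ) + 1) ^ 3 / (4 * (((m:ℝ) - 1) * (m + 2))) ≤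
      |(∑ i, 1 / (x - z i)) ^ 2 - ∑ i, (1 / (x - z i)) ^ 2| →
      KK m * Psi m ys * nrm (PP c z) ≤ nrm (derivative (derivative (PP c z))) ∧
      (nrm (derivative (derivative (PP c z))) = KK m * Psi m ys * nrm (PP c z) →
      ∃ c' : ℝ, c' ≠ 0 ∧ (PP c z = C c' * Qm m ∨ PP c z = C c' * (Qm m).comp (-X))) := by
    intro h
    have h2 : KK m * Psi m ys * nrm (PP c z) < nrm (derivative (derivative (PP c z))) := by
      calc KK m * Psi m ys * nrm (PP c z)
          < |(∑ i, 1 / (x - z i)) ^ 2 - ∑ i, (1 / (x - z i)) ^ 2| * nrm (PP c z) := by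
            apply mul_lt_mul_of_pos_right (lt_of_lt_of_le hK h) hnpos
        _ = |(derivative (derivative (PP c z))).eval x| := by
            rw [hdd0, abs_mul, hPx]; ring
        _ ≤ _ := le_nrm _ x hx.1 hx.2
    exact ⟨h2.le, fun h3 => absurd h3 (ne_of_gt h2)⟩
  have hend := endpoint_const m hm
  rcases eq_or_lt_of_le hx.1 with hx1 | hx1
  · -- x = -1
    apply strict
    have hv : ∀ i, 1/2 ≤ -(1 / (x - z i)) := by
      intro i
      have h3 : x - z i ≤ 0 := by linarith [(hz i).1]
      have h4 : x - z i < 0 := lt_of_le_of_ne h3 (hxz i)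
      have h5 : -(1 / (x - z i)) = 1 / (z i - x) := by
        rw [← neg_sub (z i) x, one_div, one_div, inv_neg, neg_neg]
      rw [h5]
      apply one_div_le_one_div_of_le (by linarith)
      linarith [(hz i).2]
    have := endpoint_sum (2 * m + 1) _ hv
    rw [Finset.sum_neg_distrib, neg_sq] at this
    simp only [neg_sq] at this
    exact le_trans hend (le_trans this (le_abs_self _))
  · rcases eq_or_lt_of_le hx.2 with hx2 | hx2
    · -- x = 1
      apply strict
      have hv : ∀ i, 1/2 ≤ 1 / (x - z i) := by
        intro i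
        have h3 : 0 ≤ x - z i := by linarith [(hz i).2]
        have h4 : 0 < x - z i := lt_of_le_of_ne h3 (hxz i).symm
        apply one_div_le_one_div_of_le h4
        linarith [(hz i).1]
      have := endpoint_sum (2 * m + 1) _ hv
      exact le_trans hend (le_trans this (le_abs_self _))
    · -- interior
      have hd := deriv_zero _ x hx1 hx2 hPx hP0
      rw [PP_d0 c z x hxz] at hd
      have hsum : ∑ i, 1 / (x - z i) = 0 := by
        rcases mul_eq_zero.mp hd with h | h
        · exact absurd h hP0
        · exact h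
      by_cases hc1 : (LI z x).card = m + 1
      · obtain ⟨b1, b2⟩ := balanced m hm ys hys0 hys6 hψ1 c hc z hz x hx1 hPx hP0 hsum hc1
        refine ⟨b1, fun h => ?_⟩
        obtain ⟨c', h1, h2⟩ := b2 h
        exact ⟨c', h1, Or.inl h2⟩
      · by_cases hc2 : (LI z x).card = m
        · -- reflect
          have hcomp := PP_comp_neg m c z
          have hn1 : nrm (PP (-c) (fun i => - z i)) = nrm (PP c z) := by
            rw [← hcomp, nrm_comp_neg]
          have hn2 : nrm (derivative (derivative (PP (-c) (fun i => - z i)))) =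
              nrm (derivative (derivative (PP c z))) := by
            rw [← hcomp, dd_comp_neg, nrm_comp_neg]
          have hev : (PP (-c) (fun i => - z i)).eval (-x) = (PP c z).eval x := by
            rw [← hcomp, eval_comp, eval_neg, eval_X, neg_neg]
          have hsum' : ∑ i, 1 / (-x - (fun i => - z i) i) = 0 := by
            have : ∑ i, 1 / (-x - (fun i => - z i) i) = - ∑ i, 1 / (x - z i) := by
              rw [← Finset.sum_neg_distrib]
              apply Finset.sum_congr rfl
              intro i _
              have : -x - (fun i => - z i) i = -(x - z i) := by ring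
              rw [this, one_div, one_div, inv_neg]
            rw [this, hsum, neg_zero]
          have hcard : (LI (fun i => - z i) (-x)).card = m + 1 := by
            have e : LI (fun i => - z i) (-x) = (LI z x)ᶜ := by
              ext i
              unfold LI
              rw [Finset.mem_compl, Finset.mem_filter, Finset.mem_filter]
              simp only [Finset.mem_univ, true_and, neg_lt_neg_iff, not_lt]
              constructor
              · intro h; exact h.le
              · intro h
                exact lt_of_le_of_ne h (fun h' => hxz i (by linarith))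
            rw [e, Finset.card_compl, Fintype.card_fin, hc2]; omega
          obtain ⟨b1, b2⟩ := balanced m hm ys hys0 hys6 hψ1 (-c) (neg_ne_zero.mpr hc)
            (fun i => - z i) (fun i => ⟨by linarith [(hz i).2], by linarith [(hz i).1]⟩) (-x)
            (by linarith) (by rw [hev, hn1, hPx]) (by rw [hev]; exact hP0) hsum' hcard
          rw [hn1, hn2] at b1 b2
          refine ⟨b1, fun h => ?_⟩
          obtain ⟨c', h1, h2⟩ := b2 h
          refine ⟨c', h1, Or.inr ?_⟩
          have : PP c z = ((PP c z).comp (-X)).comp (-X) := by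
            rw [comp_assoc]; simp
          rw [this, hcomp, h2, mul_comp, C_comp]
        · -- unbalanced
          apply strict
          obtain ⟨g1, g2, g3, g4, g5⟩ := geom z hz x hxz hsum
          set I := LI z x with hI
          set S := ∑ i ∈ I, 1 / (x - z i) with hS
          have hcc : I.card + Iᶜ.card = 2 * m + 1 := by
            rw [Finset.card_add_card_compl, Fintype.card_fin]
          have hccR : (I.card : ℝ) + (Iᶜ.card : ℝ) = 2 * m + 1 := by exact_mod_cast hcc
          have hS2 : (2 * (m:ℝ) + 1) / 2 ≤ S := by nlinarith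
          have hSpos : 0 < S := lt_of_lt_of_le (by positivity) hS2
          have ha : 0 < I.card := by
            rw [Finset.card_pos]
            by_contra h
            rw [Finset.not_nonempty_iff_eq_empty] at h
            rw [hS, h] at hSpos
            simp at hSpos
          have hb : 0 < Iᶜ.card := by
            rw [Finset.card_pos]
            by_contra h
            rw [Finset.not_nonempty_iff_eq_empty] at h
            rw [h] at g3
            simp only [Finset.sum_empty] at g3
            linarith
          refine le_trans (unbalanced m hm I.card Iᶜ.card hcc hc2 hc1 ha hb S hS2) ?_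
          rw [hsum]
          have haR : (0:ℝ) < I.card := by exact_mod_cast ha
          have hbR : (0:ℝ) < Iᶜ.card := by exact_mod_cast hb
          have c1 := sq_sum_le_card_mul_sum_sq (s := I) (f := fun i => 1 / (x - z i))
          have c2 := sq_sum_le_card_mul_sum_sq (s := Iᶜ) (f := fun i => 1 / (x - z i))
          rw [← hS] at c1
          rw [g3, neg_sq] at c2
          have d1 : S ^ 2 / I.card ≤ ∑ i ∈ I, (1 / (x - z i)) ^ 2 := by
            rw [div_le_iff₀ haR]; linarith
          have d2 : S ^ 2 / Iᶜ.card ≤ ∑ i ∈ Iᶜ, (1 / (x - z i)) ^ 2 := by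
            rw [div_le_iff₀ hbR]; linarith
          have e := Finset.sum_add_sum_compl I (fun i => (1 / (x - z i)) ^ 2)
          have : |(0:ℝ) ^ 2 - ∑ i, (1 / (x - z i)) ^ 2| = ∑ i, (1 / (x - z i)) ^ 2 := by
            rw [zero_pow two_ne_zero, zero_sub, abs_neg, abs_of_nonneg]
            exact Finset.sum_nonneg (fun i _ => sq_nonneg _)
          rw [this, ← e]
          linarith

/-- structure of `Pn`. -/
lemma Pn_structure (m : ℕ) (P : ℝ[X]) (hP : P ∈ Pn (2 * m + 1)) :
    ∃ c : ℝ, c ≠ 0 ∧ ∃ z : Fin (2 * m + 1) → ℝ, (∀ i, -1 ≤ z i ∧ z i ≤ 1) ∧ P = PP c z := by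
  obtain ⟨h1, h2, h3⟩ := hP
  have hne : P ≠ 0 := by
    rintro rfl
    simp at h2
  have hprod := C_leadingCoeff_mul_prod_multiset_X_sub_C (show Multiset.card P.roots = P.natDegree by rw [h1, h2])
  obtain ⟨l, hl⟩ := Quot.exists_rep P.roots
  have hl' : (l : Multiset ℝ) = P.roots := hl
  have hlen : l.length = 2 * m + 1 := by rw [← h2, ← hl', Multiset.coe_card]
  refine ⟨P.leadingCoeff, leadingCoeff_ne_zero.mpr hne, fun i => l.get (Fin.cast hlen.symm i), ?_, ?_⟩
  · intro i
    apply h3
    rw [← hl', Multiset.mem_coe]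
    exact List.get_mem _ _
  · have e1 : (Multiset.map (fun a => X - C a) P.roots).prod = (l.map (fun a => (X - C a : ℝ[X]))).prod := by
      rw [← hl', Multiset.map_coe, Multiset.prod_coe]
    have e2 : l.map (fun a => (X - C a : ℝ[X])) =
        List.ofFn (fun i : Fin (2 * m + 1) => (X - C (l.get (Fin.cast hlen.symm i)) : ℝ[X])) := by
      apply List.ext_get
      · simp [hlen]
      · intro n h1 h2
        simp only [List.get_eq_getElem, List.getElem_map, List.getElem_ofFn]
        rfl
    rw [e1, e2, List.prod_ofFn] at hprod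
    exact hprod.symm

end Pool.Agent.H92.Tur
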