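import Mathlib
import Pool.Agent.H92.Tur11

set_option autoImplicit false

namespace Pool.Agent.H92.Tur

open Polynomial

lemma Qm_dd_poly (k : ℕ) : derivative (derivative (Qm (k+3))) =
    C (2 * (k:ℝ) + 6) * ((1 - X) ^ (k+1) * (1 + X) ^ (k+2) * (C (2 * (k:ℝ) + 7) * X ^ 2 - 2 * X - 1)) := by
  apply Polynomial.funext
  intro x
  unfold Qm
  have e1 : k + 3 - 1 = k + 2 := by omega
  have e2 : k + 3 + 1 - 1 = k + 3 := by omega
  have e4 : k + 2 - 1 = k + 1 := by omega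
  simp only [derivative_mul, derivative_pow, derivative_add, derivative_sub, derivative_one,
    derivative_X, eval_add, eval_sub, eval_mul, eval_pow, eval_one, eval_X, eval_C,
    zero_mul, mul_zero, zero_add, add_zero, mul_one, zero_sub, eval_neg, eval_ofNat,
    eval_natCast, C_eq_natCast, derivative_natCast, derivative_neg, neg_zero, e1, e2, e4]
  push_cast
  ring

lemma Qm_ddd (k : ℕ) (x : ℝ) : (derivative (derivative (derivative (Qm (k+3))))).eval x =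
    - ((2 * (k:ℝ) + 6) * ((1 - x) ^ k * (1 + x) ^ (k+1)) *
      ((2 * (k:ℝ) + 7) * (2 * (k:ℝ) + 5) * x ^ 3 - 3 * (2 * (k:ℝ) + 5) * x ^ 2
        - 3 * (2 * (k:ℝ) + 5) * x + 3)) := by
  rw [Qm_dd_poly]
  have e1 : k + 1 - 1 = k := by omega
  have e2 : k + 2 - 1 = k + 1 := by omega
  have e3 : 2 - 1 = 1 := rfl
  simp only [derivative_mul, derivative_pow, derivative_add, derivative_sub, derivative_one,
    derivative_X, derivative_C, eval_add, eval_sub, eval_mul, eval_pow, eval_one, eval_X, eval_C,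
    zero_mul, mul_zero, zero_add, add_zero, mul_one, zero_sub, eval_neg, eval_ofNat, sub_zero,
    eval_natCast, C_eq_natCast, derivative_ofNat, derivative_neg, e1, e2, e3, eval_zero]
  push_cast
  ring

lemma Qm_x0 (m : ℕ) : (Qm m).eval (x0 m) =
    2 ^ (2 * m + 1) * (m:ℝ) ^ m * ((m:ℝ) + 1) ^ (m + 1) / (2 * (m:ℝ) + 1) ^ (2 * m + 1) := by
  unfold Qm x0
  simp only [eval_mul, eval_pow, eval_add, eval_sub, eval_one, eval_X]
  have hn : 2 * (m:ℝ) + 1 ≠ 0 := by positivity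
  have e1 : 1 - 1 / (2 * (m:ℝ) + 1) = 2 * m / (2 * (m:ℝ) + 1) := by field_simp; ring
  have e2 : 1 + 1 / (2 * (m:ℝ) + 1) = 2 * (m + 1) / (2 * (m:ℝ) + 1) := by field_simp; ring
  rw [e1, e2, div_pow, div_pow, div_mul_div_comm, mul_pow, mul_pow, ← pow_add]
  have e3 : m + (m + 1) = 2 * m + 1 := by ring
  rw [e3]
  congr 1
  have e4 : (2:ℝ) ^ (2 * m + 1) = 2 ^ m * 2 ^ (m+1) := by rw [← pow_add, e3]
  rw [e4]
  ring

/-- explicit form of the constant -/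
theorem explicit (m : ℕ) (hm : 3 ≤ m) (ys : ℝ) (h1 : 0 ≤ ys) (h2 : ys ≤ 1/6)
    (hys : ∀ y : ℝ, -((m:ℝ) + 1) ≤ y → y ≤ m → |Psi m y| ≤ Psi m ys) (hψ1 : 1 ≤ Psi m ys) :
    ∃ ξ : ℝ, 1 / (2 * (m:ℝ) + 1) < ξ ∧ ξ ≤ 4 / (3 * (2 * (m:ℝ) + 1)) ∧
      (2 * (m:ℝ) + 1) * (2 * (m:ℝ) - 1) * ξ ^ 3 - 3 * (2 * (m:ℝ) - 1) * ξ ^ 2
        - 3 * (2 * (m:ℝ) - 1) * ξ + 3 = 0 ∧
      (∀ η : ℝ, 0 ≤ η → η ≤ 4 / (3 * (2 * (m:ℝ) + 1)) →
        (2 * (m:ℝ) + 1) * (2 * (m:ℝ) - 1) * η ^ 3 - 3 * (2 * (m:ℝ) - 1) * η ^ 2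
        - 3 * (2 * (m:ℝ) - 1) * η + 3 = 0 → η = ξ) ∧
      nrm (derivative (derivative (Qm m))) / nrm (Qm m) =
        (2 * (m:ℝ)) * (1 - ξ) ^ (m - 2) * (1 + ξ) ^ (m - 1) * (1 + 2 * ξ - (2 * (m:ℝ) + 1) * ξ ^ 2) *
          (2 * (m:ℝ) + 1) ^ (2 * m + 1) / (2 ^ (2 * m + 1) * (m:ℝ) ^ m * ((m:ℝ) + 1) ^ (m + 1)) := by
  have hpos := Qm_x0_pos m hm
  have hm3 : (3:ℝ) ≤ m := by exact_mod_cast hm
  have hn : (0:ℝ) < 2 * (m:ℝ) + 1 := by positivity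
  have hN := nrm_Qm_dd m hm ys h1 h2 hys
  set ξ : ℝ := x0 m + 2 / (2 * (m:ℝ) + 1) * ys with hξ
  have hx0 : x0 m = 1 / (2 * (m:ℝ) + 1) := rfl
  have hξ1 : 1 / (2 * (m:ℝ) + 1) ≤ ξ := by
    have : 0 ≤ 2 / (2 * (m:ℝ) + 1) * ys := by positivity
    rw [hξ, hx0]; linarith
  have hξ2 : ξ ≤ 4 / (3 * (2 * (m:ℝ) + 1)) := by
    rw [hξ, hx0]
    have : 1 / (2 * (m:ℝ) + 1) + 2 / (2 * (m:ℝ) + 1) * ys = (3 + 6 * ys) / (3 * (2 * (m:ℝ) + 1)) := by
      field_simp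
      ring
    rw [this]
    gcongr
    linarith
  have hb : 4 / (3 * (2 * (m:ℝ) + 1)) < 1 := by
    rw [div_lt_one (by positivity)]; linarith
  have hb0 : 0 < 1 / (2 * (m:ℝ) + 1) := by positivity
  have hval : (derivative (derivative (Qm m))).eval ξ = -nrm (derivative (derivative (Qm m))) := by
    rw [Qm_dd m hm, hN]
    have : ((2 * (m:ℝ) + 1) * ξ - 1) / 2 = ys := by
      rw [hξ, hx0]
      field_simp
      ring
    rw [this]
  have hNpos : 0 < nrm (derivative (derivative (Qm m))) := by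
    rw [hN]
    have : 0 < Psi m ys := by linarith
    have : 0 < KK m := by unfold KK; positivity
    positivity
  have hd := deriv_zero (derivative (derivative (Qm m))) ξ (by linarith) (by linarith)
    (by rw [hval, abs_neg, abs_of_pos hNpos]) (by rw [hval]; linarith)
  have hcub : (2 * (m:ℝ) + 1) * (2 * (m:ℝ) - 1) * ξ ^ 3 - 3 * (2 * (m:ℝ) - 1) * ξ ^ 2
        - 3 * (2 * (m:ℝ) - 1) * ξ + 3 = 0 := by
    obtain ⟨k, rfl⟩ : ∃ k, m = k + 3 := ⟨m - 3, by omega⟩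
    rw [Qm_ddd] at hd
    have a1 : 0 < 1 - ξ := by linarith
    have a2 : 0 < 1 + ξ := by linarith
    have a3 : (2 * (k:ℝ) + 6) * ((1 - ξ) ^ k * (1 + ξ) ^ (k+1)) ≠ 0 := by positivity
    rw [neg_eq_zero] at hd
    rcases mul_eq_zero.mp hd with h | h
    · exact absurd h a3
    · push_cast
      linear_combination h
  refine ⟨ξ, ?_, hξ2, hcub, ?_, ?_⟩
  · apply lt_of_le_of_ne hξ1
    intro h
    rw [← h] at hcub
    have : (2 * (m:ℝ) + 1) * (2 * (m:ℝ) - 1) * (1 / (2 * (m:ℝ) + 1)) ^ 3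
      - 3 * (2 * (m:ℝ) - 1) * (1 / (2 * (m:ℝ) + 1)) ^ 2
        - 3 * (2 * (m:ℝ) - 1) * (1 / (2 * (m:ℝ) + 1)) + 3 =
        4 / (2 * (m:ℝ) + 1) + 4 / (2 * (m:ℝ) + 1) ^ 2 := by
      field_simp
      ring
    rw [this] at hcub
    have : 0 < 4 / (2 * (m:ℝ) + 1) + 4 / (2 * (m:ℝ) + 1) ^ 2 := by positivity
    linarith
  · intro η hη0 hη1 hη
    by_contra hne
    have hξ0 : 0 ≤ ξ := by linarith
    have e : (ξ - η) * ((2 * (m:ℝ) - 1) * ((2 * (m:ℝ) + 1) * (ξ^2 + ξ * η + η^2) - 3 * (ξ + η) - 3)) = 0 := by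
      linear_combination hcub - hη
    have h3 : ξ - η ≠ 0 := fun h => hne (by linarith)
    have h4 : (2 * (m:ℝ) - 1) ≠ 0 := by
      intro h; linarith
    have h5 := (mul_eq_zero.mp ((mul_eq_zero.mp e).resolve_left h3)).resolve_left h4
    have hM : (2 * (m:ℝ) + 1) * (4 / (3 * (2 * (m:ℝ) + 1))) = 4/3 := by field_simp
    have b1 : (2 * (m:ℝ) + 1) * ξ ≤ 4/3 := by
      rw [← hM]; exact mul_le_mul_of_nonneg_left hξ2 hn.le
    have b2 : (2 * (m:ℝ) + 1) * η ≤ 4/3 := by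
      rw [← hM]; exact mul_le_mul_of_nonneg_left hη1 hn.le
    have b3 : ξ ≤ 1 := by linarith
    have b4 : η ≤ 1 := by linarith
    have c1 : (2 * (m:ℝ) + 1) * ξ^2 ≤ 4/3 * ξ := by nlinarith
    have c2 : (2 * (m:ℝ) + 1) * (ξ * η) ≤ 4/3 * η := by nlinarith
    have c3 : (2 * (m:ℝ) + 1) * η^2 ≤ 4/3 * η := by nlinarith
    linarith
  · rw [nrm_Qm m hm]
    have hval' : nrm (derivative (derivative (Qm m))) =
        (2 * (m:ℝ)) * (1 - ξ) ^ (m - 2) * (1 + ξ) ^ (m - 1) * (1 + 2 * ξ - (2 * (m:ℝ) + 1) * ξ ^ 2) := by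
      have h6 : nrm (derivative (derivative (Qm m))) = -(derivative (derivative (Qm m))).eval ξ := by
        rw [hval, neg_neg]
      rw [h6]
      obtain ⟨k, rfl⟩ : ∃ k, m = k + 3 := ⟨m - 3, by omega⟩
      rw [Qm_dd_poly]
      have e2 : k + 3 - 1 = k + 2 := by omega
      have e3 : k + 3 - 2 = k + 1 := by omega
      simp only [eval_add, eval_sub, eval_mul, eval_pow, eval_one, eval_X, eval_C, eval_ofNat, e2, e3]
      push_cast
      ring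
    rw [hval', Qm_x0 m, div_div_eq_mul_div]

end Pool.Agent.H92.Tur
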